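import Pool.Agent.Run7.h848.XG.Smash
import Mathlib.RingTheory.Idempotents

/-!
# Decompositions of the motive, or exponentially many cycles
-/

set_option autoImplicit false
set_option linter.unusedSectionVars false

open CategoryTheory Limits MonoidalCategory Module Filter Topology
open Pool.Agent.Y112.SR Pool.Agent.Y112.KD Pool.Agent.N64.AF
open Pool.Agent.Y116.MT (tr)
open scoped ENNReal

namespace Pool.Agent.Run7.h848.XG

universe v u w t x

section CK

variable {C : Type u} [Category.{v} C] [Preadditive C] [MonoidalCategory C]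
  [SymmetricCategory C] {K : Type w} [Field K]

/-- `e` is a decomposition of the motive `T` with endomorphisms in the ring `E₀` which lifts the
decomposition `e₀` of the realisation. -/
structure IsLift (R : SuperRealisation C K) {T : C} (E₀ : Subring (End T)) {ι : Type} [Fintype ι]
    (e₀ : ι → (R.H.obj T ⟶ R.H.obj T)) (e : ι → End T) : Prop where
  mem : ∀ i, e i ∈ E₀
  complete : CompleteOrthogonalIdempotents e
  map : ∀ i, R.H.map (e i : T ⟶ T) = e₀ i

/-- Each decomposition of the realisation with algebraic projectors in `E₀` lifts to a decomposition of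
`T` with projectors in `E₀`, and the decomposition is unique up to conjugation by an invertible
element of `E₀` which acts as the identity on the realisation. -/
def Decomposes (R : SuperRealisation C K) {T : C} (E₀ : Subring (End T)) : Prop :=
  ∀ (ι : Type) [Fintype ι] (e₀ : ι → (R.H.obj T ⟶ R.H.obj T)),
    (∀ i, e₀ i ≫ e₀ i = e₀ i) → (∀ i j, i ≠ j → e₀ i ≫ e₀ j = 0) → ∑ i, e₀ i = 𝟙 _ →
    (∀ i, ∃ f ∈ E₀, R.H.map (f : T ⟶ T) = e₀ i) →
    (∃ e : ι → End T, IsLift R E₀ e₀ e) ∧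
    ∀ e e' : ι → End T, IsLift R E₀ e₀ e → IsLift R E₀ e₀ e' →
      ∃ u ∈ E₀, ∃ v ∈ E₀, u * v = 1 ∧ v * u = 1 ∧ R.H.map (u : T ⟶ T) = 𝟙 _ ∧
        ∀ i, u * e i = e' i * u

/-- Lifting modulo a nil ideal. -/
theorem decomposes_of_nil (R : SuperRealisation C K) {T : C} (E₀ : Subring (End T))
    (hnil : ∀ y ∈ E₀, R.H.map (y : T ⟶ T) = 0 → IsNilpotent y) : Decomposes R E₀ := by
  intro ι _ e₀ h1 h2 h3 h4
  let φ : E₀ →+* End (R.H.obj T) :=
    { toFun := fun x => R.H.map (x.1 : T ⟶ T)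
      map_one' := R.H.map_id T
      map_mul' := fun x y => R.H.map_comp (y.1 : T ⟶ T) (x.1 : T ⟶ T)
      map_zero' := R.H.map_zero T T
      map_add' := fun x y => R.H.map_add }
  have hker : ∀ x ∈ RingHom.ker φ, IsNilpotent x := by
    intro x hx
    obtain ⟨k, hk⟩ := hnil x.1 x.2 hx
    exact ⟨k, Subtype.ext (by simpa using hk)⟩
  constructor
  · let ε₀ : ι → End (R.H.obj T) := e₀
    have he0 : CompleteOrthogonalIdempotents ε₀ :=
      ⟨⟨fun i => h1 i, fun i j hij => h2 j i (Ne.symm hij)⟩, h3⟩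
    obtain ⟨e, he1, he2⟩ := he0.lift_of_isNilpotent_ker φ hker (by
      intro i
      obtain ⟨f, hf, hf2⟩ := h4 i
      exact ⟨⟨f, hf⟩, hf2⟩)
    refine ⟨fun i => (e i).1, fun i => (e i).2, ?_, fun i => congrFun he2 i⟩
    have := he1.map E₀.subtype
    exact this
  · intro e e' he he'
    let ε : ι → E₀ := fun i => ⟨e i, he.mem i⟩
    let ε' : ι → E₀ := fun i => ⟨e' i, he'.mem i⟩
    have hφ : ∀ i, φ (ε i) = e₀ i := fun i => he.map i
    have hφ' : ∀ i, φ (ε' i) = e₀ i := fun i => he'.map i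
    set u : E₀ := ∑ i, ε' i * ε i with hu
    have hφu : φ u = 1 := by
      rw [hu, map_sum]
      have h5 : ∀ i, φ (ε' i * ε i) = (e₀ i : End (R.H.obj T)) := by
        intro i
        rw [map_mul, hφ, hφ']
        exact h1 i
      rw [Finset.sum_congr rfl fun i _ => h5 i]
      exact h3
    have hn : IsNilpotent (1 - u) := hker _ (by rw [RingHom.mem_ker, map_sub, map_one, hφu, sub_self])
    have hunit : IsUnit u := by
      have := hn.isUnit_one_sub
      rwa [sub_sub_cancel] at this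
    obtain ⟨U, hU⟩ := hunit
    refine ⟨u.1, u.2, (U⁻¹ : E₀ˣ).1.1, (U⁻¹ : E₀ˣ).1.2, ?_, ?_, hφu, ?_⟩
    · rw [← hU]
      exact congrArg Subtype.val U.mul_inv
    · rw [← hU]
      exact congrArg Subtype.val U.inv_mul
    · intro j
      have hu1 : (u.1 : End T) = ∑ i, e' i * e i := by
        rw [hu]
        simp [ε, ε']
      rw [hu1, Finset.sum_mul, Finset.mul_sum]
      rw [Finset.sum_eq_single j, Finset.sum_eq_single j]
      · rw [mul_assoc, he.complete.idem j, ← mul_assoc, he'.complete.idem j]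
      · intro b _ hb
        rw [← mul_assoc, he'.complete.ortho (Ne.symm hb), zero_mul]
      · simp
      · intro b _ hb
        rw [mul_assoc, he.complete.ortho hb, mul_zero]
      · simp

end CK

section Main

variable {C : Type u} [Category.{v} C] [Preadditive C] [MonoidalCategory C]
  [MonoidalPreadditive C] [SymmetricCategory C] [RightRigidCategory C]
  {Λ : Type t} [Field Λ] [CharZero Λ] [Linear Λ C] [MonoidalLinear Λ C]
  {K : Type w} [Field K] [IsAlgClosed K] [Algebra Λ K] {R : SuperRealisation C K}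

/-- From `T` to its first power. -/
lemma nil_one (hR : IsReal Λ R) (T : C)
    (h : ∀ y : End (tp T 1), NumTriv (y : tp T 1 ⟶ tp T 1) → IsNilpotent y) (y : End T)
    (hy : NumTriv (y : T ⟶ T)) : IsNilpotent y := by
  let y' : End (tp T 1) := (λ_ T).hom ≫ (y : T ⟶ T) ≫ (λ_ T).inv
  have h1 : NumTriv (y' : tp T 1 ⟶ tp T 1) := hy.comp hR _ _
  obtain ⟨k, hk⟩ := h y' h1
  have h2 : ∀ k, (y' ^ k : End (tp T 1)) = (λ_ T).hom ≫ ((y ^ k : End T) : T ⟶ T) ≫ (λ_ T).inv := by
    intro k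
    induction k with
    | zero =>
      change 𝟙 _ = (λ_ T).hom ≫ 𝟙 T ≫ (λ_ T).inv
      rw [Category.id_comp, Iso.hom_inv_id]
    | succ k ih =>
      rw [pow_succ, pow_succ, End.mul_def, End.mul_def, ih]
      change ((λ_ T).hom ≫ (y : T ⟶ T) ≫ (λ_ T).inv) ≫ _ = _
      simp
  refine ⟨k, ?_⟩
  have h3 : (λ_ T).hom ≫ ((y ^ k : End T) : T ⟶ T) ≫ (λ_ T).inv = 0 := by rw [← h2, hk]
  have h4 : ((y ^ k : End T) : T ⟶ T) =
      (λ_ T).inv ≫ ((λ_ T).hom ≫ ((y ^ k : End T) : T ⟶ T) ≫ (λ_ T).inv) ≫ (λ_ T).hom := by simp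
  rw [h4, h3, zero_comp, comp_zero]

/-- Decomposition of the motive, or exponentially many cycles modulo smash-nilpotence. -/
theorem ck_or [IsIdempotentComplete C] {T : C} [ExactPairing T T] (h : IsPow Λ R T) :
    (∀ E₀ : Subring (End T), Decomposes R E₀) ∨
    ((∀ n : ℕ, ((∑ i ∈ Finset.range (n + 1), n.choose i * numRank Λ (tp T (2 * (n - i))) : ℕ) : ℕ∞) ≤
        dimE Λ ((𝟙_ C ⟶ tp T (2 * n)) ⧸ smashSub Λ (tp T (2 * n)))) ∧
      (∀ n : ℕ, (bt R T ^ 2 + 1) ^ n ≤ (n + 1) ^ (bt R T ^ 2) *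
        ∑ i ∈ Finset.range (n + 1), n.choose i * numRank Λ (tp T (2 * (n - i)))) ∧
      ∃ c : ℝ, (bt R T : ℝ) < c ∧ ∀ᶠ n : ℕ in atTop, ENNReal.ofReal (c ^ n) ≤
        ((dimE Λ ((𝟙_ C ⟶ tp T n) ⧸ smashSub Λ (tp T n)) : ℕ∞) : ℝ≥0∞)) := by
  by_cases hall : ∀ y : End (tp T 1), NumTriv (y : tp T 1 ⟶ tp T 1) → IsNilpotent y
  · exact Or.inl fun E₀ => decomposes_of_nil R E₀ fun y _ hy =>
      nil_one h.real T hall y (numTriv_of_map h.real hy)
  · right
    refine ⟨fun n => ?_, fun n => ?_, growth_of h one_ne_zero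
      (fun n => dimE Λ ((𝟙_ C ⟶ tp T n) ⧸ smashSub Λ (tp T n)))
      (dimE_mono_smash h) (many_smash h 1 hall)⟩
    · have h1 := many_smash h 1 hall n
      rwa [mul_one] at h1
    · have h1 := sum_ge h 1 n
      rwa [mul_one, one_mul] at h1

end Main

end Pool.Agent.Run7.h848.XG
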