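import Pool.Agent.Run7.h848.XG.Deep
import Pool.Agent.Run7.h184.AJ.Main
import Pool.Agent.N64.AF.M6

/-!
# Kernels of Abel–Jacobi maps
-/

set_option autoImplicit false
set_option linter.unusedSectionVars false

open CategoryTheory Limits MonoidalCategory Module Filter Topology
open Pool.Agent.Y112.SR Pool.Agent.Y112.KD Pool.Agent.N64.AF
open Pool.Agent.Y116.MT (tr)
open scoped ENNReal

namespace Pool.Agent.Run7.h848.XG

universe v u w t x

variable {C : Type u} [Category.{v} C] [Preadditive C] [MonoidalCategory C]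
  [MonoidalPreadditive C] [SymmetricCategory C] [RightRigidCategory C]
  {Λ : Type t} [Field Λ] [CharZero Λ] [Linear Λ C] [MonoidalLinear Λ C]
  {K : Type w} [Field K] [IsAlgClosed K] [Algebra Λ K] {R : SuperRealisation C K}

/-- The numerical rank is at most the Betti number. -/
lemma numRank_le_bt {T : C} (hR : IsReal Λ R) (hT : R.CPlus T) (n : ℕ) :
    numRank Λ (tp T n) ≤ bt R T ^ n := by
  have h1 := nr_le_rk hR (cplus_tp hR hT 0) (cplus_tp hR hT n) (numIdem_id (tp T 0))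
    (numIdem_id (tp T n)) (isRk_id R (tp T 0)) (isRk_id R (tp T n))
  rw [bt_tp, bt_tp, pow_zero, one_mul] at h1
  rw [numRank_eq]
  exact h1

/-- Exponential growth makes the limit infinite. -/
lemma top_of_expo {T : C} [ExactPairing T T] (h : IsPow Λ R T) {d : ℕ → ℕ∞} {N : ℕ∞}
    (hN : RatioTo Λ T d N) {c : ℝ} (hc : (bt R T : ℝ) < c)
    (hev : ∀ᶠ n : ℕ in atTop, ENNReal.ofReal (c ^ n) ≤ ((d n : ℕ∞) : ℝ≥0∞)) : N = ⊤ := by
  have hb : (0 : ℝ) < bt R T := by exact_mod_cast bt_pos h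
  have h1 : Tendsto (fun n : ℕ => ENNReal.ofReal ((c / bt R T) ^ n)) atTop (𝓝 ⊤) := by
    apply ENNReal.tendsto_ofReal_atTop.comp
    exact tendsto_pow_atTop_atTop_of_one_lt ((one_lt_div hb).2 hc)
  have h2 : Tendsto (fun n => ((d n : ℕ∞) : ℝ≥0∞) / numRank Λ (tp T n)) atTop (𝓝 ⊤) := by
    refine tendsto_nhds_top_mono h1 ?_
    filter_upwards [hev] with n hn
    have h3 : ENNReal.ofReal ((c / bt R T) ^ n) =
        ENNReal.ofReal (c ^ n) / ((bt R T ^ n : ℕ) : ℝ≥0∞) := by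
      rw [div_pow, ENNReal.ofReal_div_of_pos (by positivity), ← ENNReal.ofReal_natCast]
      push_cast
      rfl
    rw [h3]
    exact ENNReal.div_le_div hn (by exact_mod_cast numRank_le_bt h.real h.cplus n)
  have h3 : (N : ℝ≥0∞) = ⊤ := tendsto_nhds_unique hN h2
  exact_mod_cast h3

/-- A family of subspaces of the spaces of cycles as a functor. -/
abbrev famF (S₀ : ∀ Z : C, Submodule Λ (𝟙_ C ⟶ Z))
    (hS : ∀ {Y Z : C} (f : Y ⟶ Z) (α : 𝟙_ C ⟶ Y), α ∈ S₀ Y → α ≫ f ∈ S₀ Z) :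
    C ⥤ ModuleCat.{v} Λ :=
  sub (homF Λ (𝟙_ C)) (fun Z => (S₀ Z : Submodule Λ (𝟙_ C ⟶ Z))) (fun _ _ f α hα => hS f α hα)

lemma deepDim_le_dimE (S₀ : ∀ Z : C, Submodule Λ (𝟙_ C ⟶ Z)) (Z : C) :
    deepDim S₀ Z ≤ dimE Λ (S₀ Z) := by
  unfold deepDim dimE
  apply OrderHomClass.mono Cardinal.toENat
  exact rank_map_le (smashSub Λ Z).mkQ (S₀ Z)

/-- An Abel–Jacobi map: a linear map on the homologically trivial cycles with values in an additive
functor, compatible with all morphisms; morphisms with trivial realisation act as zero on the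
target. -/
structure AbelJacobi (hR : IsReal Λ R) where
  /-- the target -/
  D : C ⥤ ModuleCat.{x} Λ
  /-- the Abel–Jacobi map -/
  aj : ∀ Z : C, homSub hR (𝟙_ C) Z →ₗ[Λ] D.obj Z
  natural : ∀ {Y Z : C} (f : Y ⟶ Z) (α : homSub hR (𝟙_ C) Y) (β : homSub hR (𝟙_ C) Z),
    β.1 = α.1 ≫ f → aj Z β = (D.map f).hom (aj Y α)
  kill : ∀ {Y Z : C} (f : Y ⟶ Z), R.H.map f = 0 → ∀ a : D.obj Y, (D.map f).hom a = 0

namespace AbelJacobi

variable {hR : IsReal Λ R} (A : AbelJacobi.{v, u, w, t, x} hR)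

/-- The kernel of the Abel–Jacobi map, as a space of cycles. -/
def ker (Z : C) : Submodule Λ (𝟙_ C ⟶ Z) :=
  (LinearMap.ker (A.aj Z)).map (homSub hR (𝟙_ C) Z).subtype

lemma mem_ker {Z : C} {α : 𝟙_ C ⟶ Z} :
    α ∈ A.ker Z ↔ ∃ h : α ∈ homSub hR (𝟙_ C) Z, A.aj Z ⟨α, h⟩ = 0 := by
  constructor
  · rintro ⟨β, hβ, rfl⟩
    exact ⟨β.2, hβ⟩
  · rintro ⟨h, h0⟩
    exact ⟨⟨α, h⟩, h0, rfl⟩

lemma ker_stable {Y Z : C} (f : Y ⟶ Z) (α : 𝟙_ C ⟶ Y) (h : α ∈ A.ker Y) : α ≫ f ∈ A.ker Z := by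
  obtain ⟨h1, h2⟩ := A.mem_ker.1 h
  have h3 : α ≫ f ∈ homSub hR (𝟙_ C) Z := by
    change R.H.map (α ≫ f) = 0
    rw [Functor.map_comp, show R.H.map α = 0 from h1, zero_comp]
  refine A.mem_ker.2 ⟨h3, ?_⟩
  rw [A.natural f ⟨α, h1⟩ ⟨α ≫ f, h3⟩ rfl, h2, map_zero]

/-- Products of two homologically trivial correspondences are in the kernel. -/
theorem isDeep : IsDeep R 2 A.ker where
  stable := fun f α h => A.ker_stable f α h
  deep := by
    rintro Z α ⟨W, g, y, ⟨W', g', y', -, hy', rfl⟩, hy, rfl⟩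
    have h1 : g' ≫ y' ∈ homSub hR (𝟙_ C) W := by
      change R.H.map (g' ≫ y') = 0
      rw [Functor.map_comp, hy', comp_zero]
    have h2 : (g' ≫ y') ≫ y ∈ homSub hR (𝟙_ C) Z := by
      change R.H.map ((g' ≫ y') ≫ y) = 0
      rw [Functor.map_comp, hy, comp_zero]
    refine A.mem_ker.2 ⟨h2, ?_⟩
    rw [A.natural y ⟨g' ≫ y', h1⟩ ⟨(g' ≫ y') ≫ y, h2⟩ rfl]
    exact A.kill y hy _

/-- The Abel–Jacobi map of `Z` is injective. -/
def Inj (Z : C) : Prop := Function.Injective (A.aj Z)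

lemma inj_iff (Z : C) : A.Inj Z ↔ Subsingleton (A.ker Z) := by
  rw [Inj, ← LinearMap.ker_eq_bot, Submodule.subsingleton_iff_eq_bot, ker]
  constructor
  · intro h
    rw [h, Submodule.map_bot]
  · intro h
    rw [eq_bot_iff]
    intro a ha
    have h1 : a.1 ∈ (LinearMap.ker (A.aj Z)).map (homSub hR (𝟙_ C) Z).subtype := ⟨a, ha, rfl⟩
    rw [h] at h1
    exact Subtype.ext ((Submodule.mem_bot _).1 h1)

end AbelJacobi

/-- **The kernels of the Abel–Jacobi maps of the powers.** -/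
theorem aj_main {C : Type u} [Category.{v} C] [Preadditive C] [MonoidalCategory C]
    [MonoidalPreadditive C] [SymmetricCategory C] [RightRigidCategory C]
    [Linear ℚ C] [MonoidalLinear ℚ C] [IsIdempotentComplete C]
    {K : Type w} [Field K] [IsAlgClosed K] [Algebra ℚ K] {R : SuperRealisation C K}
    {T : C} [ExactPairing T T] (h : IsPow ℚ R T) (A : AbelJacobi.{v, u, w, 0, x} h.real) :
    (∀ (m : ℕ) (y : End (tp T m)), R.H.map (y : tp T m ⟶ tp T m) = 0 → ¬ IsNilpotent y →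
      ∀ n : ℕ, ((∑ i ∈ Finset.range (n + 1),
        n.choose i * numRank ℚ (tp T (2 * m * (n - i))) : ℕ) : ℕ∞) ≤
          deepDim A.ker (tp T (2 * m * (n + 2)))) ∧
    (∀ m n : ℕ, (bt R T ^ (2 * m) + 1) ^ n ≤ (m * n + 1) ^ (bt R T ^ 2) *
      ∑ i ∈ Finset.range (n + 1), n.choose i * numRank ℚ (tp T (2 * m * (n - i)))) ∧
    (Pool.Agent.R905.IsKimuraFinite T ∨
      ∃ c : ℝ, (bt R T : ℝ) < c ∧ ∀ᶠ n : ℕ in atTop,
        ENNReal.ofReal (c ^ n) ≤ ((deepDim A.ker (tp T n) : ℕ∞) : ℝ≥0∞)) ∧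
    (∃ N : ℕ∞, RatioTo ℚ T (fun n => dimE ℚ (A.ker (tp T n))) N ∧
      (N = 0 ↔ ∀ n, A.Inj (tp T n)) ∧ (N ≠ ⊤ → Pool.Agent.R905.IsKimuraFinite T)) ∧
    ∀ m n : ℕ, ¬ A.Inj (tp T m) → 128 * (m + 1) ^ 2 * bt R T ^ (2 * m + 6) ≤ 2 * n →
      Pool.Agent.Run7.h184.AJ.Large ℚ R T n (dimE ℚ (A.ker (tp T (2 * n)))) := by
  have hK : Pool.Agent.R905.IsKimuraFinite T ∨
      ∃ c : ℝ, (bt R T : ℝ) < c ∧ ∀ᶠ n : ℕ in atTop,
        ENNReal.ofReal (c ^ n) ≤ ((deepDim A.ker (tp T n) : ℕ∞) : ℝ≥0∞) := by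
    by_cases hall : ∀ (m : ℕ) (y : End (tp T m)), R.H.map (y : tp T m ⟶ tp T m) = 0 →
        IsNilpotent y
    · exact Or.inl (kimura_of_nil h.real h.cplus hall)
    · push Not at hall
      obtain ⟨m, y, hy, hn⟩ := hall
      obtain ⟨c, hc, h1⟩ := expo_growth_deep h y hy hn
      exact Or.inr ⟨c, hc, h1 2 A.ker A.isDeep⟩
  refine ⟨fun m y hy hn n => many_deep h y hy hn (by norm_num) A.isDeep n, sum_ge h, hK, ?_, ?_⟩
  · obtain ⟨N, h1, h2, -⟩ := law h (famF A.ker (fun f α => A.ker_stable f α))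
    refine ⟨N, h1, h2.trans (forall_congr' fun n => (A.inj_iff _).symm), fun hN => ?_⟩
    rcases hK with h3 | ⟨c, hc, h3⟩
    · exact h3
    · refine absurd (top_of_expo h h1 hc ?_) hN
      filter_upwards [h3] with n hn
      exact hn.trans (by exact_mod_cast deepDim_le_dimE A.ker (tp T n))
  · intro m n hm hn
    exact Pool.Agent.Run7.h184.AJ.gap h (famF A.ker (fun f α => A.ker_stable f α)) hn
      fun hs => hm ((A.inj_iff _).2 hs)

end Pool.Agent.Run7.h848.XG
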