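import Pool.Agent.Run7.h848.XG.SimpleDefs
import Pool.Agent.N64.AF.S
import Pool.Agent.N64.AF.M1

/-!
# The contribution of a simple motive to the limit
-/

set_option autoImplicit false
set_option linter.unusedSectionVars false

open CategoryTheory Limits MonoidalCategory Module Filter Topology
open Pool.Agent.Y112.SR Pool.Agent.Y112.KD Pool.Agent.N64.AF
open Pool.Agent.Y116.MT (tr)
open scoped ENNReal

namespace Pool.Agent.Run7.h848.XG

universe v u w t x

variable {C : Type u} [Category.{v} C] [Preadditive C] [MonoidalCategory C]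
  [MonoidalPreadditive C] [SymmetricCategory C] [RightRigidCategory C]
  {Λ : Type t} [Field Λ] [CharZero Λ] [Linear Λ C] [MonoidalLinear Λ C]
  {K : Type w} [Field K] [IsAlgClosed K] [Algebra Λ K] {R : SuperRealisation C K}

lemma nt_left (hR : IsReal Λ R) {W Y Z : C} {f : Y ⟶ Z} (hf : NumTriv f) (a : W ⟶ Y) :
    NumTriv (a ≫ f) := by
  have := NumTriv.comp hR hf a (𝟙 Z)
  rwa [Category.comp_id] at this

lemma nt_right (hR : IsReal Λ R) {Y Z V : C} {f : Y ⟶ Z} (hf : NumTriv f) (b : Z ⟶ V) :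
    NumTriv (f ≫ b) := by
  have := NumTriv.comp hR hf (𝟙 Y) b
  rwa [Category.id_comp] at this

/-- The multiplicity depends only on the class modulo numerical equivalence. -/
lemma nr_congr_num (hR : IsReal Λ R) {Y Z : C} {e e' : Y ⟶ Y} (h : NumTriv (e - e'))
    (f : Z ⟶ Z) : nr Λ e f = nr Λ e' f := by
  have h1 : (numIdeal Λ Y Z).mkQ ∘ₗ Linear.rightComp Λ Y f ∘ₗ Linear.leftComp Λ Z e =
      (numIdeal Λ Y Z).mkQ ∘ₗ Linear.rightComp Λ Y f ∘ₗ Linear.leftComp Λ Z e' := by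
    apply LinearMap.ext
    intro c
    change (numIdeal Λ Y Z).mkQ ((e ≫ c) ≫ f) = (numIdeal Λ Y Z).mkQ ((e' ≫ c) ≫ f)
    rw [Submodule.mkQ_apply, Submodule.mkQ_apply, Submodule.Quotient.eq]
    have h2 : (e ≫ c) ≫ f - (e' ≫ c) ≫ f = (e - e') ≫ (c ≫ f) := by
      rw [Preadditive.sub_comp, Category.assoc, Category.assoc]
    rw [h2]
    exact nt_right hR h _
  unfold nr
  rw [h1]

/-- The numerical idempotents of a simple object. -/
lemma NumSimple.idem (hR : IsReal Λ R) {M : C} (hM : NumSimple M) {e : M ⟶ M} (he : NumIdem e)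
    (h0 : ¬ NumTriv e) : NumTriv (e - 𝟙 M) := by
  obtain ⟨d, hd⟩ := hM.inv e h0
  have h1 : NumTriv ((e ≫ e - e) ≫ d) := nt_right hR he d
  have h2 : NumTriv ((e - 𝟙 M) ≫ (e ≫ d - 𝟙 M)) := nt_left hR hd _
  have h3 : e - 𝟙 M = (e ≫ e - e) ≫ d - (e - 𝟙 M) ≫ (e ≫ d - 𝟙 M) := by
    simp only [Preadditive.sub_comp, Preadditive.comp_sub, Category.id_comp, Category.comp_id,
      Category.assoc]
    abel
  rw [h3]
  exact (numIdeal Λ M M).sub_mem h1 h2

lemma triv_of_nr_zero (hR : IsReal Λ R) {Y : C} {e : Y ⟶ Y} (h : NumTriv e) (Z : C) :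
    nr Λ e (𝟙 Z) = 0 := by
  have h1 : NumTriv (e - 0) := by rwa [sub_zero]
  rw [nr_congr_num hR h1]
  have h2 : (numIdeal Λ Y Z).mkQ ∘ₗ Linear.rightComp Λ Y (𝟙 Z) ∘ₗ Linear.leftComp Λ Z (0 : Y ⟶ Y)
      = 0 := by
    apply LinearMap.ext
    intro c
    change (numIdeal Λ Y Z).mkQ (((0 : Y ⟶ Y) ≫ c) ≫ 𝟙 Z) = 0
    rw [zero_comp, zero_comp, map_zero]
  unfold nr
  rw [h2, LinearMap.range_zero, finrank_bot]

lemma NumSimple.pos (hR : IsReal Λ R) {M : C} (hM : NumSimple M) :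
    0 < nr Λ (𝟙 M) (𝟙 M) := by
  rw [Nat.pos_iff_ne_zero]
  intro h0
  apply hM.ne
  have := finite_num hR M M
  have h1 : (numIdeal Λ M M).mkQ (𝟙 M) ∈ LinearMap.range ((numIdeal Λ M M).mkQ ∘ₗ
      Linear.rightComp Λ M (𝟙 M) ∘ₗ Linear.leftComp Λ M (𝟙 M)) := by
    refine ⟨𝟙 M, ?_⟩
    change (numIdeal Λ M M).mkQ ((𝟙 M ≫ 𝟙 M) ≫ 𝟙 M) = _
    rw [Category.comp_id, Category.comp_id]
  have h2 : LinearMap.range ((numIdeal Λ M M).mkQ ∘ₗ
      Linear.rightComp Λ M (𝟙 M) ∘ₗ Linear.leftComp Λ M (𝟙 M)) = ⊥ :=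
    Submodule.finrank_eq_zero.1 h0
  rw [h2, Submodule.mem_bot, Submodule.mkQ_apply, Submodule.Quotient.mk_eq_zero] at h1
  exact h1

/-- The numerically trivial endomorphisms of `M` act as nilpotent operators on `F M`. -/
def Nil (F : C ⥤ ModuleCat.{x} Λ) (M : C) : Prop :=
  ∀ y : M ⟶ M, NumTriv y → IsNilpotent ((F.map y).hom : Module.End Λ (F.obj M))

/-- The multiplicity of a simple object in a functor. -/
theorem simple_mult (hR : IsReal Λ R) {M : C} (hM : NumSimple M) (hc : R.CPlus M)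
    (F : C ⥤ ModuleCat.{x} Λ) [F.Additive] [F.Linear Λ] [Module.Finite Λ (F.obj M)]
    (hnil : Nil F M) : ∃ l : ℕ, finrank Λ (F.obj M) = l * nr Λ (𝟙 M) (𝟙 M) ∧
      ∀ Z : C, Module.Finite Λ (F.obj Z) → l * nr Λ (𝟙 M) (𝟙 Z) ≤ finrank Λ (F.obj Z) := by
  obtain ⟨l, e, z, h1, h2, h3, h4⟩ := exists_chain hR hc F hnil
  have h5 : ∀ (i : Fin l) (Z : C), nr Λ (e i) (𝟙 Z) = nr Λ (𝟙 M) (𝟙 Z) := by
    intro i Z
    refine nr_congr_num hR (hM.idem hR (h1 i) fun h0 => ?_) _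
    have := h2 i
    rw [triv_of_nr_zero hR h0] at this
    exact lt_irrefl _ this
  refine ⟨l, ?_, fun Z hZ => ?_⟩
  · rw [h3, Finset.sum_congr rfl fun i _ => h5 i M]
    simp
  · have h6 := h4 Z hZ
    rw [Finset.sum_congr rfl fun i _ => h5 i Z] at h6
    simp only [Finset.sum_const, Finset.card_univ, Fintype.card_fin, smul_eq_mul] at h6
    exact h6.trans (Submodule.finrank_le _)

/-- If `M` is a summand of `Z` up to numerically trivial endomorphisms, then `F M` is a summand of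
`F Z`. -/
lemma inj_of_nr (hR : IsReal Λ R) {M Z : C} (hM : NumSimple M) (F : C ⥤ ModuleCat.{x} Λ)
    [F.Additive] [F.Linear Λ] (hnil : Nil F M) (h : 0 < nr Λ (𝟙 M) (𝟙 Z)) :
    ∃ c : M ⟶ Z, Function.Injective (F.map c).hom := by
  obtain ⟨c, hc⟩ : ∃ c : M ⟶ Z, ¬ NumTriv c := by
    by_contra hcon
    push Not at hcon
    have h2 : (numIdeal Λ M Z).mkQ ∘ₗ Linear.rightComp Λ M (𝟙 Z) ∘ₗ Linear.leftComp Λ Z (𝟙 M)
        = 0 := by
      apply LinearMap.ext
      intro c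
      change (numIdeal Λ M Z).mkQ ((𝟙 M ≫ c) ≫ 𝟙 Z) = 0
      rw [Category.comp_id, Category.id_comp, Submodule.mkQ_apply, Submodule.Quotient.mk_eq_zero]
      exact hcon c
    unfold nr at h
    rw [h2, LinearMap.range_zero, finrank_bot] at h
    exact lt_irrefl _ h
  obtain ⟨d, hd⟩ : ∃ d : Z ⟶ M, ¬ NumTriv (c ≫ d) := by
    by_contra hcon
    push Not at hcon
    apply hc
    intro g
    have h1 := hcon g (𝟙 M)
    rwa [Category.comp_id] at h1
  obtain ⟨d', hd'⟩ := hM.inv _ hd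
  refine ⟨c, ?_⟩
  -- `c ≫ d ≫ d' = 1 + y` with `y` nilpotent on `F M`
  have hn := hnil _ hd'
  have hu : IsUnit (1 + ((F.map ((c ≫ d) ≫ d' - 𝟙 M)).hom : Module.End Λ (F.obj M))) :=
    IsNilpotent.isUnit_one_add hn
  have h1 : (1 + ((F.map ((c ≫ d) ≫ d' - 𝟙 M)).hom : Module.End Λ (F.obj M))) =
      (F.map ((c ≫ d) ≫ d')).hom := by
    rw [F.map_sub, F.map_id]
    apply LinearMap.ext
    intro v
    change v + ((F.map ((c ≫ d) ≫ d')).hom v - v) = _
    abel
  rw [h1] at hu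
  have h2 : Function.Injective (F.map ((c ≫ d) ≫ d')).hom :=
    ((Module.End.isUnit_iff _).1 hu).1
  intro a b hab
  apply h2
  have h3 : ∀ v, (F.map ((c ≫ d) ≫ d')).hom v = (F.map (d ≫ d')).hom ((F.map c).hom v) := by
    intro v
    rw [Category.assoc, F.map_comp]
    rfl
  rw [h3, h3, hab]

/-- The first alternative. -/
theorem simple_le (hR : IsReal Λ R) {M : C} (hM : NumSimple M) (hc : R.CPlus M)
    (F : C ⥤ ModuleCat.{x} Λ) [F.Additive] [F.Linear Λ] (hnil : Nil F M) (Z : C) :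
    dimE Λ (F.obj M) * nr Λ (𝟙 M) (𝟙 Z) ≤ nr Λ (𝟙 M) (𝟙 M) * dimE Λ (F.obj Z) := by
  have hpos := hM.pos hR
  by_cases hZ : Module.Finite Λ (F.obj Z)
  swap
  · rw [dimE_top hZ, ENat.mul_top (by exact_mod_cast hpos.ne')]
    exact le_top
  rcases Nat.eq_zero_or_pos (nr Λ (𝟙 M) (𝟙 Z)) with h0 | h0
  · rw [h0, Nat.cast_zero, mul_zero]
    exact bot_le
  have hfin : Module.Finite Λ (F.obj M) := by
    obtain ⟨c, hc⟩ := inj_of_nr hR hM F hnil h0
    exact Module.Finite.of_injective _ hc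
  obtain ⟨l, h1, h2⟩ := simple_mult hR hM hc F hnil
  rw [dimE_eq, dimE_eq, h1]
  have h3 := h2 Z hZ
  have h4 : l * nr Λ (𝟙 M) (𝟙 M) * nr Λ (𝟙 M) (𝟙 Z) ≤ nr Λ (𝟙 M) (𝟙 M) * finrank Λ (F.obj Z) := by
    calc l * nr Λ (𝟙 M) (𝟙 M) * nr Λ (𝟙 M) (𝟙 Z)
        = nr Λ (𝟙 M) (𝟙 M) * (l * nr Λ (𝟙 M) (𝟙 Z)) := by ring
      _ ≤ _ := Nat.mul_le_mul_left _ h3
  exact_mod_cast h4

/-- The second alternative. -/
theorem phantom_le (hR : IsReal Λ R) {M : C} (F : C ⥤ ModuleCat.{x} Λ) [F.Additive] [F.Linear Λ]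
    (hnil : ¬ Nil F M ∨ ¬ Module.Finite Λ (F.obj M)) (a : ℕ) :
    (a + 1) * (numRank Λ (tp M a) : ℕ∞) ≤ dimE Λ (F.obj (tp M (a + 1))) := by
  by_cases hZ : Module.Finite Λ (F.obj (tp M (a + 1)))
  swap
  · rw [dimE_top hZ]
    exact le_top
  rcases Nat.eq_zero_or_pos (numRank Λ (tp M a)) with h0 | h0
  · rw [h0, Nat.cast_zero, mul_zero]
    exact bot_le
  have hfin : Module.Finite Λ (F.obj M) := by
    obtain ⟨α, hα⟩ : ∃ α : 𝟙_ C ⟶ tp M a, ¬ NumTriv α := by
      by_contra hcon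
      push Not at hcon
      have h2 : numIdeal Λ (𝟙_ C) (tp M a) = ⊤ := by
        rw [eq_top_iff]
        intro α _
        exact hcon α
      unfold numRank at h0
      rw [h2, finrank_zero_of_subsingleton] at h0
      exact lt_irrefl _ h0
    rw [numTriv_unit_iff hR] at hα
    push Not at hα
    obtain ⟨β, hβ⟩ := hα
    obtain ⟨q, hq⟩ := hR.unit (α ≫ β)
    have hq0 : q ≠ 0 := by
      rintro rfl
      rw [zero_smul] at hq
      exact hβ hq
    have h1 : α ≫ (q⁻¹ • β) = 𝟙 (𝟙_ C) := by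
      rw [Linear.comp_smul, hq, smul_smul, inv_mul_cancel₀ hq0, one_smul]
    have h2 : ((λ_ M).inv ≫ α ▷ M) ≫ ((q⁻¹ • β) ▷ M ≫ (λ_ M).hom) = 𝟙 M := by
      rw [Category.assoc, ← Category.assoc (α ▷ M), ← comp_whiskerRight, h1, id_whiskerRight,
        Category.id_comp, Iso.inv_hom_id]
    have h3 : Function.Injective (F.map ((λ_ M).inv ≫ α ▷ M)).hom := by
      intro v w hvw
      have h4 : ∀ v, (F.map ((q⁻¹ • β) ▷ M ≫ (λ_ M).hom)).hom
          ((F.map ((λ_ M).inv ≫ α ▷ M)).hom v) = v := by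
        intro v
        have h5 := congrArg F.map h2
        rw [F.map_comp, F.map_id] at h5
        exact congrArg (fun f => (ModuleCat.Hom.hom f) v) h5
      rw [← h4 v, ← h4 w, hvw]
    have hZ' : Module.Finite Λ (F.obj (tp M a ⊗ M)) := hZ
    exact Module.Finite.of_injective _ h3
  rcases hnil with h1 | h1
  swap
  · exact absurd hfin h1
  unfold Nil at h1
  push Not at h1
  obtain ⟨y, hy, hn⟩ := h1
  obtain ⟨z, e, hz, he, he'⟩ := exists_phantom hR F hy hn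
  rw [dimE_eq]
  exact_mod_cast phantom hR F hz he he' a

/-- A direct summand satisfies the sign conjecture. -/
lemma Summand.cplus {M Y : C} (h : Summand M Y) (hY : R.CPlus Y) : R.CPlus M := by
  obtain ⟨i, p, hip⟩ := h
  obtain ⟨f, hf⟩ := hY
  refine ⟨i ≫ f ≫ p, ?_⟩
  have h1 : R.H.map i ≫ R.H.map p = 𝟙 _ := by rw [← R.H.map_comp, hip, R.H.map_id]
  rw [R.H.map_comp, R.H.map_comp, ← Linear.comp_smul, ← Linear.smul_comp, hf,
    Preadditive.add_comp, Preadditive.comp_add, Category.id_comp, h1, ← R.par_natural,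
    ← Category.assoc, h1, Category.id_comp]

/-- The limit is at least the contribution of a simple summand. -/
theorem simple_lim {T : C} [ExactPairing T T] (h : IsPow Λ R T) {M : C} (hM : NumSimple M)
    {m : ℕ} (hs : Summand M (tp T m)) (F : C ⥤ ModuleCat.{x} Λ) [F.Additive] [F.Linear Λ]
    {N : ℕ∞} (hN : RatioTo Λ T (fun n => dimE Λ (F.obj (tp T n))) N) :
    (bt R M : ℕ∞) * dimE Λ (F.obj M) ≤ N * nr Λ (𝟙 M) (𝟙 M) ∧
    (dimE Λ (F.obj M) ≠ 0 → (bt R M : ℕ∞) ≤ N) ∧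
    (N ≠ ⊤ → ∃ l : ℕ, dimE Λ (F.obj M) = (l * nr Λ (𝟙 M) (𝟙 M) : ℕ) ∧
      (l * bt R M : ℕ) ≤ N ∧ ∀ Z : C, l * nr Λ (𝟙 M) (𝟙 Z) ≤ dimE Λ (F.obj Z)) := by
  have hR := h.real
  have hpos := hM.pos (Λ := Λ) hR
  have key : N ≠ ⊤ → ∃ l : ℕ, dimE Λ (F.obj M) = (l * nr Λ (𝟙 M) (𝟙 M) : ℕ) ∧
      (l * bt R M : ℕ) ≤ N ∧ ∀ Z : C, l * nr Λ (𝟙 M) (𝟙 Z) ≤ dimE Λ (F.obj Z) := by
    intro hNt
    obtain ⟨N', rfl⟩ := ENat.ne_top_iff_exists.1 hNt
    obtain ⟨hfin, hlim⟩ := isFin_of_lim h F hN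
    obtain ⟨i, p, hip⟩ := hs
    have hFip : ∀ v, (F.map p).hom ((F.map i).hom v) = v := by
      intro v
      have h1 := congrArg F.map hip
      rw [F.map_comp, F.map_id] at h1
      exact congrArg (fun f => (ModuleCat.Hom.hom f) v) h1
    have hMfin : Module.Finite Λ (F.obj M) := by
      have := hfin.fin m
      refine Module.Finite.of_injective (F.map i).hom fun v w hvw => ?_
      rw [← hFip v, ← hFip w, hvw]
    have hnil : Nil F M := by
      intro y hy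
      have hy' : NumTriv (p ≫ y ≫ i) := nt_left hR (nt_right hR hy i) p
      obtain ⟨k, hk⟩ := hfin.nil m _ hy'
      refine ⟨k, ?_⟩
      have h2 : ∀ (k : ℕ) (v : F.obj M), (((F.map (p ≫ y ≫ i)).hom :
          Module.End Λ (F.obj (tp T m))) ^ k) ((F.map i).hom v) =
          (F.map i).hom ((((F.map y).hom : Module.End Λ (F.obj M)) ^ k) v) := by
        intro k
        induction k with
        | zero => intro v; rfl
        | succ k ih =>
          intro v
          rw [pow_succ', Module.End.mul_apply, ih, pow_succ', Module.End.mul_apply]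
          have h3 : F.map (p ≫ y ≫ i) = F.map p ≫ F.map y ≫ F.map i := by
            rw [F.map_comp, F.map_comp]
          rw [h3]
          change (F.map i).hom ((F.map y).hom ((F.map p).hom ((F.map i).hom _))) = _
          rw [hFip]
      apply LinearMap.ext
      intro v
      have h3 := h2 k v
      rw [hk, LinearMap.zero_apply] at h3
      rw [LinearMap.zero_apply, ← hFip ((((F.map y).hom : Module.End Λ (F.obj M)) ^ k) v), ← h3,
        map_zero]
    have hcM : R.CPlus M := Summand.cplus ⟨i, p, hip⟩ (cplus_tp hR h.cplus m)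
    obtain ⟨l, h1, h2⟩ := simple_mult hR hM hcM F hnil
    have h3 : ∀ Z : C, (l : ℕ∞) * nr Λ (𝟙 M) (𝟙 Z) ≤ dimE Λ (F.obj Z) := by
      intro Z
      by_cases hZ : Module.Finite Λ (F.obj Z)
      · rw [dimE_eq]
        exact_mod_cast h2 Z hZ
      · rw [dimE_top hZ]
        exact le_top
    refine ⟨l, by rw [dimE_eq, h1], ?_, h3⟩
    have hpi : NumIdem (p ≫ i) := by
      have h4 : (p ≫ i) ≫ (p ≫ i) - p ≫ i = 0 := by
        rw [Category.assoc, ← Category.assoc i, hip, Category.id_comp, sub_self]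
      unfold NumIdem
      rw [h4]
      exact (numIdeal Λ _ _).zero_mem
    have hrk : IsRk R (p ≫ i) (bt R M) := by
      have h4 : LinearMap.trace K (R.H.obj M) (R.H.map (𝟙 M)).hom = bt R M := isRk_id R M
      unfold IsRk
      rw [← h4, ← hip, R.H.map_comp, R.H.map_comp]
      exact LinearMap.trace_comp_comm' _ _
    have hc : ∀ n, (0 : ℝ) < cmpSeq (fun n => numRank Λ (tp T n)) (bt R T) n := fun n => by
      exact_mod_cast (numRank_tendsto h).1 n
    have h5 : (l : ℝ) * bt R M ≤ N' := by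
      refine le_of_forall_pos_le_add fun ε hε => ?_
      obtain ⟨δ, hδ, hδε⟩ : ∃ δ : ℝ, 0 < δ ∧ l * δ ≤ ε := by
        refine ⟨ε / (l + 1), by positivity, ?_⟩
        rw [mul_div_assoc', div_le_iff₀ (by positivity)]
        nlinarith
      refine ge_of_tendsto (x := atTop) (hlim.add_const ε) ?_
      filter_upwards [eventually_nr h hpi hrk hδ] with n hn
      have h6 := hfin.fin n
      have h7 : (l * nr Λ (𝟙 M) (𝟙 (tp T n)) : ℕ) ≤ finrank Λ (F.obj (tp T n)) := h2 _ h6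
      rw [nr_retract hR i p hip] at hn
      have h8 : (l : ℝ) * nr Λ (𝟙 M) (𝟙 (tp T n)) ≤ finrank Λ (F.obj (tp T n)) := by
        exact_mod_cast h7
      have h9 := hc n
      have h10 : (l : ℝ) * (((bt R M : ℝ) - δ) *
          cmpSeq (fun n => numRank Λ (tp T n)) (bt R T) n) ≤ finrank Λ (F.obj (tp T n)) :=
        (mul_le_mul_of_nonneg_left hn (Nat.cast_nonneg l)).trans h8
      have h11 : (l : ℝ) * ((bt R M : ℝ) - δ) ≤ (finrank Λ (F.obj (tp T n)) : ℝ) /
          cmpSeq (fun n => numRank Λ (tp T n)) (bt R T) n := by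
        rw [le_div_iff₀ h9]
        linarith
      linarith
    exact_mod_cast h5
  refine ⟨?_, ?_, key⟩
  · by_cases hNt : N = ⊤
    · rw [hNt, ENat.top_mul (by exact_mod_cast hpos.ne')]
      exact le_top
    · obtain ⟨l, h1, h2, -⟩ := key hNt
      rw [h1]
      calc (bt R M : ℕ∞) * ((l * nr Λ (𝟙 M) (𝟙 M) : ℕ) : ℕ∞)
          = ((l * bt R M : ℕ) : ℕ∞) * nr Λ (𝟙 M) (𝟙 M) := by push_cast; ring
        _ ≤ _ := mul_le_mul_left h2 _
  · intro hd
    by_cases hNt : N = ⊤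
    · rw [hNt]
      exact le_top
    · obtain ⟨l, h1, h2, -⟩ := key hNt
      have hl : l ≠ 0 := by
        rintro rfl
        rw [zero_mul] at h1
        exact hd h1
      refine le_trans ?_ h2
      exact_mod_cast Nat.le_mul_of_pos_left _ (Nat.pos_of_ne_zero hl)

end Pool.Agent.Run7.h848.XG
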