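import Pool.Agent.Run7.h848.XG.TransDefs
import Pool.Agent.Run7.h848.XG.Simple

/-!
# Homologically trivial cycles on a simple motive and on the powers of a variety
-/

set_option autoImplicit false
set_option linter.unusedSectionVars false

open CategoryTheory Limits MonoidalCategory Module Filter Topology
open Pool.Agent.Y112.SR Pool.Agent.Y112.KD Pool.Agent.N64.AF
open Pool.Agent.Y116.MT (tr)
open scoped ENNReal

namespace Pool.Agent.Run7.h848.XG

universe v u w t x

variable {C : Type u} [Category.{v} C] [Preadditive C] [MonoidalCategory C]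
  [MonoidalPreadditive C] [SymmetricCategory C] [RightRigidCategory C]
  {Λ : Type t} [Field Λ] [CharZero Λ] [Linear Λ C] [MonoidalLinear Λ C]
  {K : Type w} [Field K] [IsAlgClosed K] [Algebra Λ K] {R : SuperRealisation C K}

lemma homRank_eq (Y Z : C) : homRank Λ Y Z = nr Λ (𝟙 Y) (𝟙 Z) := by
  have h1 : LinearMap.range ((numIdeal Λ Y Z).mkQ ∘ₗ Linear.rightComp Λ Y (𝟙 Z) ∘ₗ
      Linear.leftComp Λ Z (𝟙 Y)) = ⊤ := by
    rw [eq_top_iff]
    rintro x -
    obtain ⟨c, rfl⟩ := Submodule.mkQ_surjective _ x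
    refine ⟨c, ?_⟩
    change (numIdeal Λ Y Z).mkQ ((𝟙 Y ≫ c) ≫ 𝟙 Z) = _
    rw [Category.comp_id, Category.id_comp]
  unfold homRank nr
  rw [h1, finrank_top]

/-- The functor of the homologically trivial cycles. -/
abbrev homFun (hR : IsReal Λ R) : C ⥤ ModuleCat.{v} Λ :=
  sub (homF Λ (𝟙_ C)) (fun Z => (homSub hR (𝟙_ C) Z : Submodule Λ (𝟙_ C ⟶ Z))) (by
    intro Y Z f α hα
    change R.H.map (α ≫ f) = 0
    rw [Functor.map_comp, show R.H.map α = 0 from hα, zero_comp])

/-- Operators on a summand. -/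
lemma nil_of_summand (hR : IsReal Λ R) {M Y : C} (h : Summand M Y) (F : C ⥤ ModuleCat.{x} Λ)
    [F.Additive] [F.Linear Λ] (hY : Nil F Y) : Nil F M := by
  obtain ⟨i, p, hip⟩ := h
  have hFip : ∀ v, (F.map p).hom ((F.map i).hom v) = v := by
    intro v
    have h1 := congrArg F.map hip
    rw [F.map_comp, F.map_id] at h1
    exact congrArg (fun f => (ModuleCat.Hom.hom f) v) h1
  intro y hy
  have hy' : NumTriv (p ≫ y ≫ i) := nt_left hR (nt_right hR hy i) p
  obtain ⟨k, hk⟩ := hY _ hy'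
  refine ⟨k, ?_⟩
  have h2 : ∀ (k : ℕ) (v : F.obj M), (((F.map (p ≫ y ≫ i)).hom :
      Module.End Λ (F.obj Y)) ^ k) ((F.map i).hom v) =
      (F.map i).hom ((((F.map y).hom : Module.End Λ (F.obj M)) ^ k) v) := by
    intro k
    induction k with
    | zero => intro v; rfl
    | succ k ih =>
      intro v
      rw [pow_succ', Module.End.mul_apply, ih, pow_succ', Module.End.mul_apply]
      have h3 : F.map (p ≫ y ≫ i) = F.map p ≫ F.map y ≫ F.map i := by
        rw [F.map_comp, F.map_comp]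
      rw [h3]
      change (F.map i).hom ((F.map y).hom ((F.map p).hom ((F.map i).hom _))) = _
      rw [hFip]
  apply LinearMap.ext
  intro v
  have h3 := h2 k v
  rw [hk, LinearMap.zero_apply] at h3
  rw [LinearMap.zero_apply, ← hFip ((((F.map y).hom : Module.End Λ (F.obj M)) ^ k) v), ← h3,
    map_zero]

lemma fin_of_summand {M Y : C} (h : Summand M Y) (F : C ⥤ ModuleCat.{x} Λ)
    [F.Additive] [F.Linear Λ] (hY : Module.Finite Λ (F.obj Y)) : Module.Finite Λ (F.obj M) := by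
  obtain ⟨i, p, hip⟩ := h
  refine Module.Finite.of_injective (F.map i).hom fun v w hvw => ?_
  have hFip : ∀ v, (F.map p).hom ((F.map i).hom v) = v := by
    intro v
    have h1 := congrArg F.map hip
    rw [F.map_comp, F.map_id] at h1
    exact congrArg (fun f => (ModuleCat.Hom.hom f) v) h1
  rw [← hFip v, ← hFip w, hvw]

/-- The contribution of a simple summand, for a functor. -/
theorem summand_main {T : C} [ExactPairing T T] (h : IsPow Λ R T) {M : C} (hM : NumSimple M)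
    (hs : Summand M T) (F : C ⥤ ModuleCat.{x} Λ) [F.Additive] [F.Linear Λ] :
    (∃ N : ℕ∞, RatioTo Λ T (fun n => dimE Λ (F.obj (tp T n))) N ∧
      (N = 0 ↔ ∀ n, Subsingleton (F.obj (tp T n))) ∧
      (bt R M : ℕ∞) * dimE Λ (F.obj M) ≤ N * homRank Λ M M ∧
      (dimE Λ (F.obj M) ≠ 0 → (bt R M : ℕ∞) ≤ N) ∧
      (N ≠ ⊤ → ∃ l : ℕ, dimE Λ (F.obj M) = (l * homRank Λ M M : ℕ) ∧
        (l * bt R M : ℕ) ≤ N ∧ ∀ Z : C, l * homRank Λ M Z ≤ dimE Λ (F.obj Z))) ∧
    ((∀ Z : C, dimE Λ (F.obj M) * homRank Λ M Z ≤ homRank Λ M M * dimE Λ (F.obj Z)) ∨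
      ∀ a : ℕ, (a + 1) * (numRank Λ (tp M a) : ℕ∞) ≤ dimE Λ (F.obj (tp M (a + 1))) ∧
        (a + 1) * (numRank Λ (tp T a) : ℕ∞) ≤ dimE Λ (F.obj (tp T (a + 1)))) := by
  have hR := h.real
  have hs1 : Summand M (tp T 1) := by
    obtain ⟨i, p, hip⟩ := hs
    refine ⟨i ≫ (λ_ T).inv, (λ_ T).hom ≫ p, ?_⟩
    rw [Category.assoc, Iso.inv_hom_id_assoc, hip]
  constructor
  · obtain ⟨N, h1, h2, -⟩ := law h F
    obtain ⟨h3, h4, h5⟩ := simple_lim h hM hs1 F h1
    simp only [homRank_eq]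
    exact ⟨N, h1, h2, h3, h4, h5⟩
  · simp only [homRank_eq]
    by_cases hn : Nil F M
    · exact Or.inl (simple_le hR hM (hs.cplus h.cplus) F hn)
    · refine Or.inr fun a => ⟨phantom_le hR F (Or.inl hn) a, phantom_le hR F (Or.inl ?_) a⟩
      exact fun h1 => hn (nil_of_summand hR hs F h1)

end Pool.Agent.Run7.h848.XG
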