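import Pool.Agent.Run7.h848.XG.SimpleLawDefs
import Pool.Agent.Run7.h848.XG.Trans
import Pool.Agent.Run7.h184.AJ.Main

/-!
# The law for additive functors and simple motives
-/

set_option autoImplicit false
set_option linter.unusedSectionVars false

open CategoryTheory Limits MonoidalCategory Module Filter Topology
open Pool.Agent.Y112.SR Pool.Agent.Y112.KD Pool.Agent.N64.AF
open Pool.Agent.Y116.MT (tr)
open scoped ENNReal

namespace Pool.Agent.Run7.h848.XG

universe v u w t x

variable {C : Type u} [Category.{v} C] [Preadditive C] [MonoidalCategory C]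
  [MonoidalPreadditive C] [SymmetricCategory C] [RightRigidCategory C]
  {Λ : Type t} [Field Λ] [CharZero Λ] [Linear Λ C] [MonoidalLinear Λ C]
  {K : Type w} [Field K] [IsAlgClosed K] [Algebra Λ K] {R : SuperRealisation C K}

lemma dimE_zero_iff {V : Type x} [AddCommGroup V] [Module Λ V] :
    dimE Λ V = 0 ↔ Subsingleton V := by
  unfold dimE
  rw [Cardinal.toENat_eq_zero, rank_zero_iff]

lemma fin_sub_summand {M Y : C} (h : Summand M Y) (F : C ⥤ ModuleCat.{x} Λ)
    [F.Additive] [F.Linear Λ] (hY : Subsingleton (F.obj Y)) : Subsingleton (F.obj M) := by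
  obtain ⟨i, p, hip⟩ := h
  have hFip : ∀ v, (F.map p).hom ((F.map i).hom v) = v := by
    intro v
    have h1 := congrArg F.map hip
    rw [F.map_comp, F.map_id] at h1
    exact congrArg (fun f => (ModuleCat.Hom.hom f) v) h1
  constructor
  intro v w
  rw [← hFip v, ← hFip w, Subsingleton.elim ((F.map i).hom v) ((F.map i).hom w)]

/-- **The law for an additive functor, with the contributions of the simple motives.** -/
theorem simpleLaw {T : C} [ExactPairing T T] (h : IsPow Λ R T) (F : C ⥤ ModuleCat.{x} Λ)
    [F.Additive] [F.Linear Λ] : SimpleLaw Λ R T (fun Z => dimE Λ (F.obj Z)) where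
  law := by
    obtain ⟨N, h1, h2, -⟩ := Pool.Agent.N64.AF.law h F
    refine ⟨N, h1, h2.trans (forall_congr' fun n => dimE_zero_iff.symm), fun m M hM hs => ?_⟩
    simp only [homRank_eq]
    exact simple_lim h hM hs F h1
  compare := by
    intro m M hM hs
    simp only [homRank_eq]
    by_cases hn : Nil F M
    · exact Or.inl (simple_le h.real hM (hs.cplus (cplus_tp h.real h.cplus m)) F hn)
    · refine Or.inr fun a =>
        ⟨phantom_le h.real F (Or.inl hn) a, phantom_le h.real F (Or.inl ?_) a⟩
      exact fun h1 => hn (nil_of_summand h.real hs F h1)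
  gap := by
    intro m n M hs hd hn
    refine Pool.Agent.Run7.h184.AJ.gap h F hn fun hsub => hd ?_
    exact dimE_zero_iff.2 (fin_sub_summand hs F hsub)

end Pool.Agent.Run7.h848.XG
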