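import Pool.Agent.Run7.h848.XG.AJ
import Pool.Agent.Run7.h848.XG.SimpleLaw

/-!
# Two Abel–Jacobi maps
-/

set_option autoImplicit false
set_option linter.unusedSectionVars false

open CategoryTheory Limits MonoidalCategory Module Filter Topology
open Pool.Agent.Y112.SR Pool.Agent.Y112.KD Pool.Agent.N64.AF
open scoped ENNReal

namespace Pool.Agent.Run7.h848.XG

universe v u w t x

variable {C : Type u} [Category.{v} C] [Preadditive C] [MonoidalCategory C]
  [MonoidalPreadditive C] [SymmetricCategory C] [RightRigidCategory C]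
  {Λ : Type t} [Field Λ] [CharZero Λ] [Linear Λ C] [MonoidalLinear Λ C]
  {K : Type w} [Field K] [IsAlgClosed K] [Algebra Λ K] {R : SuperRealisation C K}

namespace AbelJacobi

variable {hR : IsReal Λ R}

/-- The dimension of the kernel of `A` modulo the elements which are also in the kernel of `B`. -/
noncomputable def defect (A B : AbelJacobi.{v, u, w, t, x} hR) (Z : C) : ℕ∞ :=
  dimE Λ (A.ker Z ⧸ (B.ker Z).comap (A.ker Z).subtype)

lemma defect_zero_iff (A B : AbelJacobi.{v, u, w, t, x} hR) (Z : C) :
    A.defect B Z = 0 ↔ A.ker Z ≤ B.ker Z := by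
  unfold defect
  rw [dimE_zero_iff, Submodule.Quotient.subsingleton_iff, ← Submodule.comap_subtype_eq_top]

/-- The functor with these dimensions. -/
abbrev defF (A B : AbelJacobi.{v, u, w, t, x} hR) : C ⥤ ModuleCat.{v} Λ :=
  quoS (famF A.ker (fun f α => A.ker_stable f α))
    (fun Z => (B.ker Z).comap (A.ker Z).subtype)
    (fun _ _ f α hα => B.ker_stable f α.1 hα)

theorem ker_law {T : C} [ExactPairing T T] (h : IsPow Λ R T)
    (A : AbelJacobi.{v, u, w, t, x} h.real) :
    SimpleLaw Λ R T (fun Z => dimE Λ (A.ker Z)) :=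
  simpleLaw h (famF A.ker (fun f α => A.ker_stable f α))

theorem defect_law {T : C} [ExactPairing T T] (h : IsPow Λ R T)
    (A B : AbelJacobi.{v, u, w, t, x} h.real) :
    SimpleLaw Λ R T (A.defect B) :=
  simpleLaw h (defF A B)

end AbelJacobi

end Pool.Agent.Run7.h848.XG
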