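import Pool.Agent.Run7.h848.XG.Pow

/-!
# Fitting's lemma modulo a nil left ideal
-/

set_option autoImplicit false

open Module

namespace Pool.Agent.Run7.h848.XG

universe t v

/-- Let `I` be a left ideal of finite codimension whose elements are nilpotent. Each element which
is not nilpotent has a multiple which is an idempotent and not zero. -/
theorem exists_idem_of_nil {Λ : Type t} [Field Λ] {E : Type v} [Ring E] [Algebra Λ E]
    (I : Ideal E) (hI : ∀ x ∈ I, IsNilpotent x) [Module.Finite Λ (E ⧸ I)] (y : E)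
    (hy : ¬ IsNilpotent y) : ∃ u : E, IsIdempotentElem (u * y) ∧ u * y ≠ 0 := by
  set L : E →ₐ[Λ] Module.End Λ (E ⧸ I) := Algebra.lsmul Λ Λ (E ⧸ I) with hL
  have hker : ∀ x : E, L x = 0 → IsNilpotent x := by
    intro x hx
    apply hI
    have h1 : L x (Submodule.Quotient.mk 1) = 0 := by rw [hx]; rfl
    have h2 : (Submodule.Quotient.mk (x • (1 : E)) : E ⧸ I) = 0 := h1
    rw [smul_eq_mul, mul_one] at h2
    exact (Submodule.Quotient.mk_eq_zero _).1 h2
  obtain ⟨q, hq1, hq2⟩ := Pool.Agent.Y133.Half.exists_fit (L y)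
  set x : E := Polynomial.aeval y q * y with hx
  have hLx : L x = Polynomial.aeval (L y) q * L y := by
    rw [hx, map_mul, Polynomial.aeval_algHom_apply]
  rw [← hLx] at hq1 hq2
  have hx0 : L x ≠ 0 := by
    intro h0
    obtain ⟨k, hk⟩ := hq2 h0
    rw [← map_pow] at hk
    obtain ⟨l, hl⟩ := hker _ hk
    exact hy ⟨k * l, by rw [pow_mul, hl]⟩
  obtain ⟨n, hn⟩ := hker (x - x ^ 2) (by rw [map_sub, map_pow, sq, hq1, sub_self])
  have hn0 : n ≠ 0 := by
    rintro rfl
    rw [pow_zero] at hn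
    have h1 : L x = L (x * 1) := by rw [mul_one]
    rw [hn, mul_zero, map_zero] at h1
    exact hx0 h1
  have he := isIdempotentElem_one_sub_one_sub_pow_pow x n hn
  -- the idempotent is a multiple of `x`
  obtain ⟨g, hg⟩ : ∃ g : E, 1 - (1 - x ^ n) ^ n = g * x := by
    have h1 : ∃ g : E, 1 - (1 - x ^ n) ^ n = g * x ^ n := by
      refine ⟨∑ i ∈ Finset.range n, (1 - x ^ n) ^ i, ?_⟩
      have h2 := geom_sum_mul (1 - x ^ n) n
      have h3 : (1 - x ^ n) - 1 = -x ^ n := by abel
      rw [h3, mul_neg] at h2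
      rw [← neg_inj, h2, neg_sub]
    obtain ⟨g, hg⟩ := h1
    obtain ⟨k, rfl⟩ := Nat.exists_eq_succ_of_ne_zero hn0
    exact ⟨g * x ^ k, by rw [hg, pow_succ, mul_assoc]⟩
  refine ⟨g * Polynomial.aeval y q, ?_, ?_⟩
  · rw [mul_assoc, ← hx, ← hg]
    exact he
  · rw [mul_assoc, ← hx, ← hg]
    intro h0
    apply hx0
    have h1 : IsIdempotentElem (L x) := hq1
    have h2 : L (1 - (1 - x ^ n) ^ n) = L x := by
      obtain ⟨k, rfl⟩ := Nat.exists_eq_succ_of_ne_zero hn0
      rw [map_sub, map_pow, map_sub, map_pow, map_one, h1.pow_succ_eq, h1.one_sub.pow_succ_eq,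
        sub_sub_cancel]
    rw [← h2, h0, map_zero]

end Pool.Agent.Run7.h848.XG
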