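import Pool.Agent.Run7.h848.XG.UniformDual

/-!
# Alternating morphisms to the powers of an even object
-/

set_option autoImplicit false
set_option linter.unusedSectionVars false

open CategoryTheory Limits MonoidalCategory Module Filter Topology
open Pool.Agent.Y112.SR Pool.Agent.Y112.KD Pool.Agent.N64.AF Pool.Agent.R905
open Pool.Agent.Y116.MT (tr)
open scoped ENNReal

namespace Pool.Agent.Run7.h848.XG

universe v u w t x

section Cat

variable {C : Type u} [Category.{v} C] [MonoidalCategory C] [SymmetricCategory C]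
  [Preadditive C] [Linear ℚ C] [MonoidalPreadditive C] [MonoidalLinear ℚ C]

lemma comp_asym_whisker {η : ℚ} (hη : η * η = 1) {X : C} (n : ℕ) : ∀ {Y Z : C}
    (h : Z ⟶ tp X n ⊗ Y), (∀ s, IsSwap X n s → h ≫ (s ▷ Y) = η • h) →
    h ≫ (asym η X n ▷ Y) = h := by
  induction n with
  | zero =>
    intro Y Z h _
    simp [asym_zero]
  | succ n ih =>
    intro Y Z h hh
    rcases n with - | n
    · simp [asym_one]
    · have h1 : h ≫ ((asym η X (n + 1) ▷ X) ▷ Y) = h := by
        have h2 := ih (h ≫ (α_ (tp X (n + 1)) X Y).hom) (fun s hs => by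
          rw [Category.assoc, ← associator_naturality_left, ← Category.assoc,
            hh _ (IsSwap.lift _ _ hs), Linear.smul_comp])
        rw [Category.assoc, ← associator_naturality_left, ← Category.assoc] at h2
        exact (cancel_mono _).mp h2
      have h3 : h ≫ (sw (tp X n) X ▷ Y) = η • h := hh _ (IsSwap.last n)
      have hn : ((n + 1 : ℕ) : ℚ) + 1 ≠ 0 := by positivity
      rw [asym_succ, MonoidalLinear.smul_whiskerRight, MonoidalPreadditive.add_whiskerRight,
        MonoidalLinear.smul_whiskerRight, comp_whiskerRight, comp_whiskerRight, Linear.comp_smul,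
        Preadditive.comp_add, Linear.comp_smul, ← Category.assoc, ← Category.assoc, h1, h3,
        Linear.smul_comp, h1, smul_smul]
      have e1 : η * ((n + 1 : ℕ) : ℚ) * η = ((n + 1 : ℕ) : ℚ) := by
        linear_combination ((n + 1 : ℕ) : ℚ) * hη
      rw [e1]
      have e2 : h + ((n + 1 : ℕ) : ℚ) • h = (((n + 1 : ℕ) : ℚ) + 1) • h := by module
      rw [e2, smul_smul, inv_mul_cancel₀ hn, one_smul]

/-- (Anti)symmetric morphisms to a power are fixed by the (anti)symmetrizer. -/
lemma comp_asym {η : ℚ} (hη : η * η = 1) {X Z : C} {n : ℕ} (h : Z ⟶ tp X n)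
    (hh : ∀ s, IsSwap X n s → h ≫ s = η • h) : h ≫ asym η X n = h := by
  have h1 := comp_asym_whisker hη n (Y := 𝟙_ C) (h ≫ (ρ_ (tp X n)).inv) (fun s hs => by
    rw [Category.assoc, ← rightUnitor_inv_naturality, ← Category.assoc, hh s hs,
      Linear.smul_comp])
  rw [Category.assoc, ← rightUnitor_inv_naturality, ← Category.assoc] at h1
  exact (cancel_mono _).mp h1

/-- All alternating morphisms to the powers `M ^ n`, `n > b`, are zero. -/
def AlternatingVanish (M : C) (b : ℕ) : Prop :=
  ∀ n : ℕ, b < n → ∀ (Z : C) (u : Z ⟶ tp M n), (∀ s, IsSwap M n s → u ≫ s = -u) → u = 0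

lemma alternatingVanish_of {M : C} {b : ℕ} (h : asym (-1) M (b + 1) = 0) :
    AlternatingVanish M b := by
  have h1 : ∀ n, b < n → asym (-1) M n = 0 := by
    intro n hn
    induction n, hn using Nat.le_induction with
    | base => exact h
    | succ n _ ih => exact asym_mono (by norm_num) M ih
  intro n hn Z u hu
  rw [← comp_asym (by norm_num : (-1 : ℚ) * (-1) = 1) u fun s hs => by rw [hu s hs, neg_one_smul],
    h1 n hn, comp_zero]

end Cat

section Main

variable {C : Type u} [Category.{v} C] [Preadditive C] [MonoidalCategory C]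
  [MonoidalPreadditive C] [SymmetricCategory C] [RightRigidCategory C]
  [Linear ℚ C] [MonoidalLinear ℚ C] [IsIdempotentComplete C]
  {K : Type w} [Field K] [IsAlgClosed K] [Algebra ℚ K] {R : SuperRealisation C K}

/-- Alternating morphisms vanish, or there are many endomorphisms. -/
theorem alternating_or (hR : IsReal ℚ R) {M : C} (hM : R.par M = 𝟙 _) (hb : 0 < bt R M) :
    AlternatingVanish M (bt R M) ∨ ∀ n : ℕ, ((∑ i ∈ Finset.range (n + 1), n.choose i *
        homRank ℚ (tp M ((bt R M + 1) * (n - i))) (tp M ((bt R M + 1) * (n - i))) : ℕ) : ℕ∞) ≤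
      dimE ℚ (tp M ((bt R M + 1) * n) ⟶ tp M ((bt R M + 1) * n)) := by
  have hc := R_charZero R
  have hcp : R.CPlus M := ⟨𝟙 M, by rw [CategoryTheory.Functor.map_id, hM, two_smul]⟩
  have h0 : R.H.map (asym (-1) M (bt R M + 1)) = 0 :=
    Pool.Agent.N861.AF.map_asym_zero R (unitQ_of hR) (1 : ℚ) (by norm_num)
      (by rw [hM]; norm_num)
  by_cases hn : ∀ y : End (tp M (bt R M + 1)), NumTriv (y : tp M (bt R M + 1) ⟶ _) →
      IsNilpotent y
  · refine Or.inl (alternatingVanish_of ?_)
    obtain ⟨k, hk⟩ := hn (en (asym (-1) M (bt R M + 1))) (numTriv_of_map hR h0)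
    have h1 : IsIdempotentElem (en (asym (-1) M (bt R M + 1))) :=
      asym_idem (by norm_num) M _
    have h2 := h1.pow_succ_eq k
    rw [pow_succ, hk, zero_mul] at h2
    exact h2.symm
  · refine Or.inr fun n => ?_
    have h1 := many_dual hR hcp hb (bt R M + 1) hn n
    obtain ⟨ψ⟩ := nonempty_equiv_tensor_dual (Λ := ℚ) M ((bt R M + 1) * n)
    refine le_trans (le_of_eq ?_) (h1.trans (dimE_le_of_injective ψ.toLinearMap ψ.injective))
    congr 1
    refine Finset.sum_congr rfl fun i _ => ?_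
    rw [numRank_tensor_dual hR, homRank_eq]

/-- One number decides. -/
theorem alternating_one (hR : IsReal ℚ R) {M : C} (hM : R.par M = 𝟙 _) (hb : 0 < bt R M)
    (hσ : dimE ℚ (tp M (decisiveEnd (bt R M)) ⟶ tp M (decisiveEnd (bt R M))) ≤
      (bt R M ^ (2 * decisiveEnd (bt R M)) : ℕ)) : AlternatingVanish M (bt R M) := by
  have hcp : R.CPlus M := ⟨𝟙 M, by rw [CategoryTheory.Functor.map_id, hM, two_smul]⟩
  rcases alternating_or hR hM hb with h1 | h1
  · exact h1
  · exfalso
    obtain ⟨b, hb'⟩ : ∃ b, b = bt R M := ⟨_, rfl⟩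
    have hb1 : 1 ≤ b := by
      rw [hb']
      exact hb
    have h2 := h1 (4 * (b ^ (2 * (b + 1))) ^ 2)
    have h3 := sum_ge_end hR hcp (bt R M + 1) (4 * (b ^ (2 * (b + 1))) ^ 2)
    have h4 := num_bound b hb1
    rw [← hb'] at h2 h3 hσ
    have h5 : (b + 1) * (4 * (b ^ (2 * (b + 1))) ^ 2) = decisiveEnd b := by
      unfold decisiveEnd
      rw [← pow_mul]
      have h6 : 2 * (b + 1) * 2 = 4 * (b + 1) := by ring
      rw [h6]
      ring
    rw [h5] at h2
    have h6 := h2.trans hσ
    have h7 : (∑ i ∈ Finset.range (4 * (b ^ (2 * (b + 1))) ^ 2 + 1),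
        (4 * (b ^ (2 * (b + 1))) ^ 2).choose i *
          homRank ℚ (tp M ((b + 1) * (4 * (b ^ (2 * (b + 1))) ^ 2 - i)))
            (tp M ((b + 1) * (4 * (b ^ (2 * (b + 1))) ^ 2 - i)))) ≤
        b ^ (2 * decisiveEnd b) := by exact_mod_cast h6
    have h8 : b ^ (2 * decisiveEnd b) =
        (b ^ (2 * (b + 1))) ^ (4 * (b ^ (2 * (b + 1))) ^ 2) := by
      rw [← pow_mul, ← h5, mul_assoc 2]
    rw [h8] at h7
    exact absurd (h3.trans (Nat.mul_le_mul_left _ h7)) (not_le.2 h4)

end Main

end Pool.Agent.Run7.h848.XG
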