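import Pool.Agent.Run7.h184.AJ.Main

/-!
# Insertions into the factors of a power

For a splitting `P = A ⊕ B` with a numerically trivial summand `B` and a morphism `w : 𝟙 ⟶ B` the
insertions of `w` into the factors of `P ^ n` are independent.
-/

set_option autoImplicit false
set_option linter.unusedSectionVars false

open CategoryTheory Limits MonoidalCategory Module
open Pool.Agent.Y112.SR Pool.Agent.Y112.KD Pool.Agent.N64.AF
open Pool.Agent.Y116.MT (tr)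

namespace Pool.Agent.Run7.h848.XG

universe v u w t x

section Cat

variable {C : Type u} [Category.{v} C] [MonoidalCategory C]

/-- The object `((X ⊗ P) ⊗ P) ⊗ ⋯ ⊗ P`. -/
def Q (P : C) : C → ℕ → C
  | X, 0 => X
  | X, n + 1 => Q P (X ⊗ P) n

/-- The functor `Q P _ n`. -/
def Qm (P : C) : ∀ {X X' : C} (_ : X ⟶ X') (n : ℕ), (Q P X n ⟶ Q P X' n)
  | _, _, g, 0 => g
  | _, _, g, n + 1 => Qm P (g ▷ P) n

lemma Qm_id (P : C) (n : ℕ) : ∀ X : C, Qm P (𝟙 X) n = 𝟙 (Q P X n) := by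
  induction n with
  | zero => intro X; rfl
  | succ n ih =>
    intro X
    change Qm P (𝟙 X ▷ P) n = _
    rw [id_whiskerRight, ih]
    rfl

lemma Qm_comp (P : C) (n : ℕ) : ∀ {X X' X'' : C} (g : X ⟶ X') (h : X' ⟶ X''),
    Qm P (g ≫ h) n = Qm P g n ≫ Qm P h n := by
  induction n with
  | zero => intro _ _ _ _ _; rfl
  | succ n ih =>
    intro X X' X'' g h
    change Qm P ((g ≫ h) ▷ P) n = Qm P (g ▷ P) n ≫ Qm P (h ▷ P) n
    rw [comp_whiskerRight, ih]

lemma Qm_zero [Preadditive C] [MonoidalPreadditive C] (P : C) (n : ℕ) : ∀ {X X' : C},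
    Qm P (0 : X ⟶ X') n = 0 := by
  induction n with
  | zero => intro _ _; rfl
  | succ n ih =>
    intro X X'
    change Qm P ((0 : X ⟶ X') ▷ P) n = 0
    rw [MonoidalPreadditive.zero_whiskerRight, ih]

/-- Change of the object `P`. -/
def Qc {B P : C} (i : B ⟶ P) : ∀ (X : C) (n : ℕ), (Q B X n ⟶ Q P X n)
  | _, 0 => 𝟙 _
  | X, n + 1 => Qc i (X ⊗ B) n ≫ Qm P (X ◁ i) n

lemma Qc_nat {B P : C} (i : B ⟶ P) (n : ℕ) : ∀ {X X' : C} (g : X ⟶ X'),
    Qm B g n ≫ Qc i X' n = Qc i X n ≫ Qm P g n := by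
  induction n with
  | zero => intro X X' g; exact (Category.comp_id g).trans (Category.id_comp g).symm
  | succ n ih =>
    intro X X' g
    change Qm B (g ▷ B) n ≫ Qc i (X' ⊗ B) n ≫ Qm P (X' ◁ i) n =
      (Qc i (X ⊗ B) n ≫ Qm P (X ◁ i) n) ≫ Qm P (g ▷ P) n
    rw [← Category.assoc, ih, Category.assoc, Category.assoc, ← Qm_comp, ← Qm_comp]
    congr 2
    exact (whisker_exchange _ _).symm

/-- Insertion of `w` on the right. -/
def ins {B : C} (w : 𝟙_ C ⟶ B) (X : C) : X ⟶ X ⊗ B := (ρ_ X).inv ≫ X ◁ w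

lemma ins_nat {B : C} (w : 𝟙_ C ⟶ B) {X X' : C} (g : X ⟶ X') :
    g ≫ ins w X' = ins w X ≫ g ▷ B := by
  unfold ins
  rw [← Category.assoc, rightUnitor_inv_naturality, Category.assoc, Category.assoc,
    whisker_exchange]

lemma ins_comp {B P : C} (w : 𝟙_ C ⟶ B) (i : B ⟶ P) (X : C) :
    ins w X ≫ X ◁ i = ins (w ≫ i) X := by
  unfold ins
  rw [Category.assoc, ← whiskerLeft_comp]

/-- Repeated insertion of `w`. -/
def J {B : C} (w : 𝟙_ C ⟶ B) : ∀ (X : C) (r : ℕ), (X ⟶ Q B X r)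
  | X, 0 => 𝟙 X
  | X, r + 1 => ins w X ≫ J w (X ⊗ B) r

lemma J_nat {B : C} (w : 𝟙_ C ⟶ B) (r : ℕ) : ∀ {X X' : C} (g : X ⟶ X'),
    g ≫ J w X' r = J w X r ≫ Qm B g r := by
  induction r with
  | zero => intro X X' g; exact (Category.comp_id g).trans (Category.id_comp g).symm
  | succ r ih =>
    intro X X' g
    change g ≫ ins w X' ≫ J w (X' ⊗ B) r = (ins w X ≫ J w (X ⊗ B) r) ≫ Qm B (g ▷ B) r
    rw [← Category.assoc, ins_nat, Category.assoc, ih, Category.assoc]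

lemma J_change {B P : C} (w : 𝟙_ C ⟶ B) (i : B ⟶ P) (r : ℕ) : ∀ X : C,
    J w X r ≫ Qc i X r = J (w ≫ i) X r := by
  induction r with
  | zero => intro X; exact Category.comp_id _
  | succ r ih =>
    intro X
    change (ins w X ≫ J w (X ⊗ B) r) ≫ Qc i (X ⊗ B) r ≫ Qm P (X ◁ i) r =
      ins (w ≫ i) X ≫ J (w ≫ i) (X ⊗ P) r
    rw [Category.assoc, ← Category.assoc (J w (X ⊗ B) r), ih, ← J_nat, ← Category.assoc, ins_comp]

end Cat

section Sym

variable {C : Type u} [Category.{v} C] [MonoidalCategory C] [SymmetricCategory C]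

/-- The functor `Q P _ n` on isomorphisms. -/
def Qiso (P : C) {X X' : C} (e : X ≅ X') (n : ℕ) : Q P X n ≅ Q P X' n where
  hom := Qm P e.hom n
  inv := Qm P e.inv n
  hom_inv_id := by rw [← Qm_comp, e.hom_inv_id, Qm_id]
  inv_hom_id := by rw [← Qm_comp, e.inv_hom_id, Qm_id]

/-- The factor `B` can be moved to the right. -/
def move (P B : C) : ∀ (X : C) (n : ℕ), (Q P (X ⊗ B) n ≅ Q P X n ⊗ B)
  | _, 0 => Iso.refl _
  | X, n + 1 =>
    Qiso P (α_ X B P ≪≫ whiskerLeftIso X (β_ B P) ≪≫ (α_ X P B).symm) n ≪≫ move P B (X ⊗ P) n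

end Sym

section Rank

variable {C : Type u} [Category.{v} C] [Preadditive C] [MonoidalCategory C]
  {Λ : Type t} [Field Λ] [Linear Λ C]

/-- The linear map `x ↦ F (x ≫ J) v₀`. -/
def phi (F : C ⥤ ModuleCat.{x} Λ) [F.Additive] [F.Linear Λ] (v₀ : F.obj (𝟙_ C)) {B : C}
    (w : 𝟙_ C ⟶ B) (r : ℕ) (X : C) : (𝟙_ C ⟶ X) →ₗ[Λ] F.obj (Q B X r) where
  toFun y := (F.map (y ≫ J w X r)).hom v₀
  map_add' y z := by rw [Preadditive.add_comp, F.map_add]; rfl
  map_smul' c y := by rw [Linear.smul_comp, F.map_smul]; rfl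

variable (F : C ⥤ ModuleCat.{x} Λ) [F.Additive] [F.Linear Λ] (v₀ : F.obj (𝟙_ C)) {B : C}
    (w : 𝟙_ C ⟶ B)

lemma phi_comp (r : ℕ) {X X' : C} (g : X ⟶ X') (y : 𝟙_ C ⟶ X) :
    phi F v₀ w r X' (y ≫ g) = (F.map (Qm B g r)).hom (phi F v₀ w r X y) := by
  change (F.map ((y ≫ g) ≫ J w X' r)).hom v₀ =
    (F.map (Qm B g r)).hom ((F.map (y ≫ J w X r)).hom v₀)
  rw [Category.assoc, J_nat, ← Category.assoc, F.map_comp]
  rfl

/-- The dimension of the range. -/
noncomputable def rk (r : ℕ) (X : C) : ℕ∞ := dimE Λ (LinearMap.range (phi F v₀ w r X))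

/-- `F.map (Qm g)` as a map between the ranges. -/
noncomputable def rmap (r : ℕ) {X X' : C} (g : X ⟶ X') :
    LinearMap.range (phi F v₀ w r X) →ₗ[Λ] LinearMap.range (phi F v₀ w r X') :=
  ((F.map (Qm B g r)).hom.comp (Submodule.subtype _)).codRestrict _ (by
    rintro ⟨_, y, rfl⟩
    exact ⟨y ≫ g, phi_comp F v₀ w r g y⟩)

lemma rmap_comp (r : ℕ) {X X' X'' : C} (g : X ⟶ X') (h : X' ⟶ X'')
    (a : LinearMap.range (phi F v₀ w r X)) :
    rmap F v₀ w r h (rmap F v₀ w r g a) = rmap F v₀ w r (g ≫ h) a := by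
  apply Subtype.ext
  change (F.map (Qm B h r)).hom ((F.map (Qm B g r)).hom a.1) = (F.map (Qm B (g ≫ h) r)).hom a.1
  rw [Qm_comp, F.map_comp]
  rfl

lemma rmap_id (r : ℕ) {X : C} (a : LinearMap.range (phi F v₀ w r X)) :
    rmap F v₀ w r (𝟙 X) a = a := by
  apply Subtype.ext
  change (F.map (Qm B (𝟙 X) r)).hom a.1 = a.1
  rw [Qm_id, F.map_id]
  rfl

lemma rmap_zero [MonoidalPreadditive C] (r : ℕ) {X X' : C}
    (a : LinearMap.range (phi F v₀ w r X)) :
    rmap F v₀ w r (0 : X ⟶ X') a = 0 := by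
  obtain ⟨_, y, rfl⟩ := a
  apply Subtype.ext
  change (F.map (Qm B (0 : X ⟶ X') r)).hom (phi F v₀ w r X y) = 0
  rw [← phi_comp, comp_zero, map_zero]

/-- Injective linear maps and dimensions. -/
lemma dimE_le_of_injective {V W : Type x} [AddCommGroup V] [Module Λ V] [AddCommGroup W]
    [Module Λ W] (f : V →ₗ[Λ] W) (hf : Function.Injective f) : dimE Λ V ≤ dimE Λ W := by
  unfold dimE
  exact OrderHomClass.mono Cardinal.toENat (LinearMap.rank_le_of_injective f hf)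

lemma rk_mono (r : ℕ) {X X' : C} (i : X ⟶ X') (p : X' ⟶ X) (h : i ≫ p = 𝟙 X) :
    rk F v₀ w r X ≤ rk F v₀ w r X' := by
  apply dimE_le_of_injective (rmap F v₀ w r i)
  intro a b hab
  have h1 := congrArg (rmap F v₀ w r p) hab
  rw [rmap_comp, rmap_comp, h, rmap_id, rmap_id] at h1
  exact h1

/-- Direct sums. -/
lemma rk_split [MonoidalPreadditive C] (r : ℕ) {X X₁ X₂ : C} (i₁ : X₁ ⟶ X) (p₁ : X ⟶ X₁)
    (i₂ : X₂ ⟶ X) (p₂ : X ⟶ X₂) (h₁ : i₁ ≫ p₁ = 𝟙 _) (h₂ : i₂ ≫ p₂ = 𝟙 _)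
    (h₁₂ : i₁ ≫ p₂ = 0) (h₂₁ : i₂ ≫ p₁ = 0) :
    rk F v₀ w r X₁ + rk F v₀ w r X₂ ≤ rk F v₀ w r X := by
  have h3 : rk F v₀ w r X₁ + rk F v₀ w r X₂ = dimE Λ
      (LinearMap.range (phi F v₀ w r X₁) × LinearMap.range (phi F v₀ w r X₂)) := by
    unfold rk dimE
    rw [rank_prod', map_add]
  rw [h3]
  apply dimE_le_of_injective ((rmap F v₀ w r i₁).coprod (rmap F v₀ w r i₂))
  rw [injective_iff_map_eq_zero]
  rintro ⟨a, b⟩ hab
  rw [LinearMap.coprod_apply] at hab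
  have h4 := congrArg (rmap F v₀ w r p₁) hab
  rw [map_add, rmap_comp, rmap_comp, h₁, h₂₁, rmap_id, rmap_zero, add_zero, map_zero] at h4
  have h5 := congrArg (rmap F v₀ w r p₂) hab
  rw [map_add, rmap_comp, rmap_comp, h₂, h₁₂, rmap_id, rmap_zero, zero_add, map_zero] at h5
  exact Prod.ext h4 h5

/-- One more insertion. -/
lemma rk_succ (r : ℕ) (X : C) : rk F v₀ w (r + 1) X ≤ rk F v₀ w r (X ⊗ B) := by
  have h : LinearMap.range (phi F v₀ w (r + 1) X) ≤ LinearMap.range (phi F v₀ w r (X ⊗ B)) := by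
    rintro _ ⟨y, rfl⟩
    refine ⟨y ≫ ins w X, ?_⟩
    change (F.map ((y ≫ ins w X) ≫ J w (X ⊗ B) r)).hom v₀ =
      (F.map (y ≫ ins w X ≫ J w (X ⊗ B) r)).hom v₀
    rw [Category.assoc]
  exact dimE_le_of_injective (Submodule.inclusion h) (Submodule.inclusion_injective h)

end Rank

section Base

variable {C : Type u} [Category.{v} C] [Preadditive C] [MonoidalCategory C]
  [MonoidalPreadditive C] [SymmetricCategory C] [RightRigidCategory C]
  {Λ : Type t} [Field Λ] [CharZero Λ] [Linear Λ C] [MonoidalLinear Λ C]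
  {K : Type w} [Field K] [Algebra Λ K] {R : SuperRealisation C K}

lemma le_dimE {V : Type v} {W : Type x} [AddCommGroup V] [Module Λ V] [AddCommGroup W]
    [Module Λ W] (f : V →ₗ[Λ] W) (S : Submodule Λ V) (h : LinearMap.ker f ≤ S)
    [Module.Finite Λ (V ⧸ S)] : ((finrank Λ (V ⧸ S) : ℕ) : ℕ∞) ≤ dimE Λ (LinearMap.range f) := by
  by_cases hfin : Module.Finite Λ (LinearMap.range f)
  · rw [dimE_eq]
    have e := f.quotKerEquivRange
    have : Module.Finite Λ (V ⧸ LinearMap.ker f) := Module.Finite.equiv e.symm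
    have h1 : finrank Λ (V ⧸ S) ≤ finrank Λ (V ⧸ LinearMap.ker f) :=
      LinearMap.finrank_le_finrank_of_surjective (f := Submodule.factor h)
        (Submodule.factor_surjective h)
    rw [← e.finrank_eq]
    exact_mod_cast h1
  · rw [dimE_top hfin]
    exact le_top

/-- The beginning of the induction. -/
lemma rk_base (hR : IsReal Λ R) (F : C ⥤ ModuleCat.{x} Λ) [F.Additive] [F.Linear Λ]
    (v₀ : F.obj (𝟙_ C)) {B : C} (w : 𝟙_ C ⟶ B)
    (hw : ∀ r, (F.map (J w (𝟙_ C) r)).hom v₀ ≠ 0) (r : ℕ) (X : C) :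
    ((numRank Λ X : ℕ) : ℕ∞) ≤ rk F v₀ w r X := by
  have := finite_num (Λ := Λ) hR (𝟙_ C) X
  apply le_dimE
  intro y hy
  rw [mem_numIdeal, numTriv_unit_iff hR]
  intro δ
  obtain ⟨c, hc⟩ := hR.unit (y ≫ δ)
  have h1 : (F.map (y ≫ J w X r)).hom v₀ = 0 := hy
  have h2 : (F.map ((y ≫ J w X r) ≫ Qm B δ r)).hom v₀ = 0 := by
    rw [F.map_comp, ModuleCat.hom_comp, LinearMap.comp_apply, h1, map_zero]
  rw [Category.assoc, ← J_nat, ← Category.assoc, hc, Linear.smul_comp, Category.id_comp,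
    F.map_smul] at h2
  have h3 : c • (F.map (J w (𝟙_ C) r)).hom v₀ = 0 := h2
  rw [hc, (smul_eq_zero.1 h3).resolve_right (hw r), zero_smul]

/-- The recursion of the binomial sums. -/
def S : (ℕ → ℕ) → ℕ → ℕ
  | g, 0 => g 0
  | g, n + 1 => S (fun j => g (j + 1)) n + S g n

lemma S_eq (n : ℕ) : ∀ g : ℕ → ℕ, S g n = ∑ i ∈ Finset.range (n + 1), n.choose i * g (n - i) := by
  induction n with
  | zero => intro g; simp [S]
  | succ n ih =>
    intro g
    change S (fun j => g (j + 1)) n + S g n = _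
    rw [ih, ih, Finset.sum_range_succ' _ (n + 1)]
    have h1 : ∀ i ∈ Finset.range (n + 1), (n + 1).choose (i + 1) * g (n + 1 - (i + 1)) =
        n.choose i * g (n - i) + n.choose (i + 1) * g (n - i) := by
      intro i _
      rw [Nat.choose_succ_succ, Nat.add_sub_add_right, add_mul]
    have h3 : ∑ i ∈ Finset.range (n + 1), n.choose (i + 1) * g (n - i) =
        ∑ i ∈ Finset.range n, n.choose (i + 1) * g (n - i) := by
      rw [Finset.sum_range_succ, Nat.choose_succ_self, zero_mul, add_zero]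
    have h2 : ∀ i ∈ Finset.range n, n.choose (i + 1) * g (n - (i + 1) + 1) =
        n.choose (i + 1) * g (n - i) := by
      intro i hi
      have : n - (i + 1) + 1 = n - i := by
        have := Finset.mem_range.1 hi
        omega
      rw [this]
    have h4 : ∑ i ∈ Finset.range (n + 1), n.choose i * g (n - i + 1) =
        ∑ i ∈ Finset.range n, n.choose (i + 1) * g (n - i) + g (n + 1) := by
      rw [Finset.sum_range_succ' (fun i => n.choose i * g (n - i + 1)) n, Nat.choose_zero_right,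
        one_mul, Nat.sub_zero, Finset.sum_congr rfl h2]
    rw [Finset.sum_congr rfl h1, Finset.sum_add_distrib, h3, h4, Nat.choose_zero_right, one_mul,
      Nat.sub_zero]
    ring

lemma S_mono {g g' : ℕ → ℕ} (n : ℕ) (h : ∀ j, g j ≤ g' j) : S g n ≤ S g' n := by
  rw [S_eq, S_eq]
  exact Finset.sum_le_sum fun i _ => Nat.mul_le_mul_left _ (h _)

/-- **The insertions.** -/
theorem main_ineq (hR : IsReal Λ R) (F : C ⥤ ModuleCat.{x} Λ) [F.Additive] [F.Linear Λ]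
    (v₀ : F.obj (𝟙_ C)) {P A B : C} (iA : A ⟶ P) (pA : P ⟶ A) (iB : B ⟶ P) (pB : P ⟶ B)
    (hA : iA ≫ pA = 𝟙 _) (hB : iB ≫ pB = 𝟙 _) (hAB : iA ≫ pB = 0) (hBA : iB ≫ pA = 0)
    (w : 𝟙_ C ⟶ B) (hw : ∀ r, (F.map (J w (𝟙_ C) r)).hom v₀ ≠ 0) (n : ℕ) :
    ∀ (r : ℕ) (X : C), ((S (fun j => numRank Λ (Q A X j)) n : ℕ) : ℕ∞) ≤
      rk F v₀ w r (Q P X n) := by
  induction n with
  | zero => exact fun r X => rk_base hR F v₀ w hw r X
  | succ n ih =>
    intro r X
    have h1 := ih r (X ⊗ A)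
    have h2 := (ih (r + 1) X).trans (rk_succ F v₀ w r (Q P X n))
    have h3 := h2.trans (rk_mono F v₀ w r (move P B X n).inv (move P B X n).hom
      (Iso.inv_hom_id _))
    have h4 := rk_split F v₀ w r (X := Q P (X ⊗ P) n) (X₁ := Q P (X ⊗ A) n)
      (X₂ := Q P (X ⊗ B) n) (Qm P (X ◁ iA) n) (Qm P (X ◁ pA) n) (Qm P (X ◁ iB) n)
      (Qm P (X ◁ pB) n) (by rw [← Qm_comp, ← whiskerLeft_comp, hA, whiskerLeft_id, Qm_id])
      (by rw [← Qm_comp, ← whiskerLeft_comp, hB, whiskerLeft_id, Qm_id])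
      (by
        rw [← Qm_comp, ← whiskerLeft_comp, hAB, MonoidalPreadditive.whiskerLeft_zero]
        exact Qm_zero P n) (by
        rw [← Qm_comp, ← whiskerLeft_comp, hBA, MonoidalPreadditive.whiskerLeft_zero]
        exact Qm_zero P n)
    change (((S (fun j => numRank Λ (Q A (X ⊗ A) j)) n + S (fun j => numRank Λ (Q A X j)) n : ℕ)) :
      ℕ∞) ≤ rk F v₀ w r (Q P (X ⊗ P) n)
    rw [Nat.cast_add]
    exact (add_le_add h1 h3).trans h4

end Base

end Pool.Agent.Run7.h848.XG
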