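import Pool.Agent.Run7.h848.XG.DeepDefs

/-!
# Deep cycles: products of homologically trivial correspondences
-/

set_option autoImplicit false
set_option linter.unusedSectionVars false

open CategoryTheory Limits MonoidalCategory Module Filter Topology
open Pool.Agent.Y112.SR Pool.Agent.Y112.KD Pool.Agent.N64.AF
open Pool.Agent.Y116.MT (tr)
open scoped ENNReal

namespace Pool.Agent.Run7.h848.XG

universe v u w t x

variable {C : Type u} [Category.{v} C] [Preadditive C] [MonoidalCategory C]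
  [MonoidalPreadditive C] [SymmetricCategory C] [RightRigidCategory C]
  {Λ : Type t} [Field Λ] [CharZero Λ] [Linear Λ C] [MonoidalLinear Λ C]
  {K : Type w} [Field K] [IsAlgClosed K] [Algebra Λ K] {R : SuperRealisation C K}

lemma HomPow.comp {k : ℕ} {Y Z V : C} {f : Y ⟶ Z} (h : HomPow R k f) (g : Z ⟶ V) :
    HomPow R k (f ≫ g) := by
  cases k with
  | zero => trivial
  | succ k =>
    obtain ⟨W, a, y, ha, hy, rfl⟩ := h
    exact ⟨W, a, y ≫ g, ha, by rw [Functor.map_comp, hy, zero_comp], by rw [Category.assoc]⟩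

lemma map_whiskerLeft_zero (X : C) {Y Z : C} {f : Y ⟶ Z} (h : R.H.map f = 0) :
    R.H.map (X ◁ f) = 0 := by
  rw [Functor.Monoidal.map_whiskerLeft, h, MonoidalPreadditive.whiskerLeft_zero, zero_comp,
    comp_zero]

lemma homPow_J {B : C} {w : 𝟙_ C ⟶ B} (hw : R.H.map w = 0) (r : ℕ) : ∀ {k : ℕ} {X Y : C}
    {y : Y ⟶ X}, HomPow R k y → HomPow R (k + r) (y ≫ J w X r) := by
  induction r with
  | zero =>
    intro k X Y y h
    exact HomPow.comp h _
  | succ r ih =>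
    intro k X Y y h
    have h1 : HomPow R (k + 1) (y ≫ ins w X) := by
      refine ⟨X, y, ins w X, h, ?_, rfl⟩
      unfold ins
      rw [Functor.map_comp, map_whiskerLeft_zero X hw, comp_zero]
    have h2 := ih h1
    rw [Category.assoc] at h2
    have h3 : k + (r + 1) = k + 1 + r := by omega
    rw [h3]
    exact h2

lemma deepDim_le {k : ℕ} {S : ∀ Z : C, Submodule Λ (𝟙_ C ⟶ Z)} (hS : IsDeep R k S) {Y Z : C}
    (i : Y ⟶ Z) (r : Z ⟶ Y) (h : i ≫ r = 𝟙 Y) : deepDim S Y ≤ deepDim S Z := by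
  have hi : ∀ x ∈ (S Y).map (smashSub Λ Y).mkQ,
      ((smF Λ).map i).hom x ∈ (S Z).map (smashSub Λ Z).mkQ := by
    rintro _ ⟨x, hx, rfl⟩
    exact ⟨x ≫ i, hS.stable i x hx, rfl⟩
  refine dimE_le_of_injective (((smF Λ).map i).hom.restrict hi) ?_
  intro a b hab
  apply Subtype.ext
  have h0 := congrArg Subtype.val hab
  have h1 : (smF (C := C) Λ).map i ≫ (smF Λ).map r = 𝟙 _ := by
    rw [← Functor.map_comp, h, CategoryTheory.Functor.map_id]
  have h2 : ∀ a, ((smF (C := C) Λ).map r).hom (((smF Λ).map i).hom a) = a := fun a =>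
    congrArg (fun g : (smF (C := C) Λ).obj Y ⟶ (smF Λ).obj Y => g.hom a) h1
  rw [← h2 a.1, ← h2 b.1]
  exact congrArg _ h0

lemma Qc_retract {B P : C} (i : B ⟶ P) (p : P ⟶ B) (h : i ≫ p = 𝟙 B) (n : ℕ) : ∀ X : C,
    Qc i X n ≫ Qc p X n = 𝟙 (Q B X n) := by
  induction n with
  | zero => intro X; exact Category.comp_id _
  | succ n ih =>
    intro X
    change (Qc i (X ⊗ B) n ≫ Qm P (X ◁ i) n) ≫ Qc p (X ⊗ P) n ≫ Qm B (X ◁ p) n = _
    rw [Category.assoc, ← Category.assoc (Qm P (X ◁ i) n), Qc_nat, Category.assoc,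
      ← Category.assoc, ih, Category.id_comp, ← Qm_comp, ← whiskerLeft_comp, h, whiskerLeft_id,
      Qm_id]
    rfl

/-- **Deep cycles.** -/
theorem expo_deep [IsIdempotentComplete C] (hR : IsReal Λ R) {k : ℕ}
    {S₀ : ∀ Z : C, Submodule Λ (𝟙_ C ⟶ Z)} (hS : IsDeep R k S₀) {Y Y' : C} [ExactPairing Y Y']
    (p : Y' ⟶ Y') (hp : p ≫ p = p) (hn : NumTriv p) (hRp : R.H.map p = 0)
    (hv0 : ¬ SmashNil (η_ Y Y' ≫ Y ◁ p)) (n : ℕ) :
    ((∑ i ∈ Finset.range (n + 1), n.choose i * numRank Λ (Q (Y ⊗ Y') (𝟙_ C) (n - i)) : ℕ) : ℕ∞) ≤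
      deepDim S₀ (Q (Y ⊗ Y') (Q (Y ⊗ Y') (𝟙_ C) n) k) := by
  let F : C ⥤ ModuleCat.{v} Λ := smF Λ
  let v₀ : F.obj (𝟙_ C) := Submodule.Quotient.mk (𝟙 (𝟙_ C))
  have hv : (F.map (η_ Y Y' ≫ Y ◁ p)).hom v₀ ≠ 0 := by
    intro h0
    have h1 : (Submodule.Quotient.mk (𝟙 (𝟙_ C) ≫ (η_ Y Y' ≫ Y ◁ p)) :
        (𝟙_ C ⟶ Y ⊗ Y') ⧸ smashSub Λ (Y ⊗ Y')) = 0 := h0
    rw [Category.id_comp] at h1
    exact hv0 ((Submodule.Quotient.mk_eq_zero _).1 h1)
  set P := Y ⊗ Y' with hP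
  obtain ⟨z, hz⟩ : ∃ z : 𝟙_ C ⟶ P, z = η_ Y Y' ≫ Y ◁ p := ⟨_, rfl⟩
  rw [← hz] at hv
  have hpp : Y ◁ p ≫ Y ◁ p = Y ◁ p := by rw [← whiskerLeft_comp, hp]
  have hzp : z ≫ Y ◁ p = z := by rw [hz, Category.assoc, hpp]
  obtain ⟨B, iB, pB, hB, hB'⟩ := IsIdempotentComplete.idempotents_split P (Y ◁ p) hpp
  obtain ⟨A, iA, pA, hA, hA'⟩ := IsIdempotentComplete.idempotents_split P (𝟙 P - Y ◁ p) (by
    rw [Preadditive.sub_comp, Preadditive.comp_sub, Preadditive.comp_sub, Category.id_comp,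
      Category.id_comp, Category.comp_id, hpp, sub_self, sub_zero])
  have hiB : iB ≫ Y ◁ p = iB := by rw [← hB', ← Category.assoc, hB, Category.id_comp]
  have hpB : Y ◁ p ≫ pB = pB := by rw [← hB', Category.assoc, hB, Category.comp_id]
  have hAB : iA ≫ pB = 0 := by
    have h1 : iA ≫ (𝟙 P - Y ◁ p) = iA := by rw [← hA', ← Category.assoc, hA, Category.id_comp]
    rw [← h1, Category.assoc, Preadditive.sub_comp, hpB, Category.id_comp, sub_self, comp_zero]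
  have hBA : iB ≫ pA = 0 := by
    have h1 : (𝟙 P - Y ◁ p) ≫ pA = pA := by rw [← hA', Category.assoc, hA, Category.comp_id]
    rw [← h1, ← Category.assoc, Preadditive.comp_sub, hiB, Category.comp_id, sub_self, zero_comp]
  have hw : ∀ r, (F.map (J (z ≫ pB) (𝟙_ C) r)).hom v₀ ≠ 0 := by
    intro r h0
    apply hv
    -- the insertions of `z`
    have h1 : (F.map (J z (𝟙_ C) r)).hom v₀ = 0 := by
      have h2 := J_change (z ≫ pB) iB r (𝟙_ C)
      rw [Category.assoc, hB', hzp] at h2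
      rw [← h2, F.map_comp, ModuleCat.hom_comp, LinearMap.comp_apply, h0, map_zero]
    cases r with
    | zero =>
      have h2 : v₀ = 0 := by
        have h3 : (F.map (𝟙 (𝟙_ C))).hom v₀ = 0 := h1
        rw [F.map_id] at h3
        exact h3
      rw [h2, map_zero]
    | succ r =>
      let a : 𝟙_ C ⊗ P ⟶ (𝟙_ C ⊗ Y) ⊗ Y' := (α_ (𝟙_ C) Y Y').inv
      let y : 𝟙_ C ⟶ (𝟙_ C ⊗ Y) ⊗ Y' := ins z (𝟙_ C) ≫ a
      have hins : ins z (𝟙_ C) ≫ 𝟙_ C ◁ Y ◁ p = ins z (𝟙_ C) := by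
        unfold ins
        rw [Category.assoc, ← whiskerLeft_comp, hzp]
      have hy : y ≫ (𝟙_ C ⊗ Y) ◁ p = y := by
        change (ins z (𝟙_ C) ≫ (α_ (𝟙_ C) Y Y').inv) ≫ (𝟙_ C ⊗ Y) ◁ p =
          ins z (𝟙_ C) ≫ (α_ (𝟙_ C) Y Y').inv
        rw [Category.assoc, ← associator_inv_naturality_right, ← Category.assoc, hins]
      have h2 := J_Cn (Y := Y) p (𝟙_ C ⊗ Y) y hy r
      rw [← hz] at h2
      have h3 : y ≫ J z ((𝟙_ C ⊗ Y) ⊗ Y') r =
          J z (𝟙_ C) (r + 1) ≫ Qm P a r := by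
        change (ins z (𝟙_ C) ≫ a) ≫ J z ((𝟙_ C ⊗ Y) ⊗ Y') r =
          (ins z (𝟙_ C) ≫ J z (𝟙_ C ⊗ P) r) ≫ Qm P a r
        rw [Category.assoc, J_nat, Category.assoc]
      rw [← Category.assoc, h3] at h2
      have h4 : (F.map y).hom v₀ = 0 := by
        rw [← h2, F.map_comp, F.map_comp, ModuleCat.hom_comp, ModuleCat.hom_comp,
          LinearMap.comp_apply, LinearMap.comp_apply, h1, map_zero, map_zero]
      have h5 : y ≫ (α_ (𝟙_ C) Y Y').hom ≫ (λ_ P).hom = z := by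
        change (ins z (𝟙_ C) ≫ (α_ (𝟙_ C) Y Y').inv) ≫ (α_ (𝟙_ C) Y Y').hom ≫ (λ_ P).hom = z
        unfold ins
        rw [Category.assoc, Iso.inv_hom_id_assoc, Category.assoc, leftUnitor_naturality,
          unitors_equal, Iso.inv_hom_id_assoc]
      rw [← h5, F.map_comp, ModuleCat.hom_comp, LinearMap.comp_apply, h4, map_zero]
  have hRw : R.H.map (z ≫ pB) = 0 := by
    rw [hz, Functor.map_comp, Functor.map_comp, map_whiskerLeft_zero Y hRp, comp_zero, zero_comp]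
  have h1 := main_ineq hR F v₀ iA pA iB pB hA hB hAB hBA (z ≫ pB) hw n k (𝟙_ C)
  have h2 : rk F v₀ (z ≫ pB) k (Q P (𝟙_ C) n) ≤ deepDim S₀ (Q B (Q P (𝟙_ C) n) k) := by
    have hle : ∀ a ∈ LinearMap.range (phi F v₀ (z ≫ pB) k (Q P (𝟙_ C) n)),
        a ∈ (S₀ (Q B (Q P (𝟙_ C) n) k)).map (smashSub Λ (Q B (Q P (𝟙_ C) n) k)).mkQ := by
      rintro _ ⟨y, rfl⟩
      refine ⟨y ≫ J (z ≫ pB) (Q P (𝟙_ C) n) k, hS.deep _ ?_, ?_⟩
      · have h3 := homPow_J (R := R) hRw k (k := 0) (y := y) trivial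
        rwa [zero_add] at h3
      · change Submodule.Quotient.mk (y ≫ J (z ≫ pB) (Q P (𝟙_ C) n) k) =
          Submodule.Quotient.mk (𝟙 (𝟙_ C) ≫ (y ≫ J (z ≫ pB) (Q P (𝟙_ C) n) k))
        rw [Category.id_comp]
    exact dimE_le_of_injective (Submodule.inclusion hle) (Submodule.inclusion_injective hle)
  have h2' := h2.trans (deepDim_le hS (Qc iB (Q P (𝟙_ C) n) k) (Qc pB (Q P (𝟙_ C) n) k)
    (Qc_retract iB pB hB k _))
  refine le_trans ?_ (h1.trans h2')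
  rw [← S_eq n (fun j => numRank Λ (Q P (𝟙_ C) j))]
  have h3 : S (fun j => numRank Λ (Q P (𝟙_ C) j)) n ≤ S (fun j => numRank Λ (Q A (𝟙_ C) j)) n := by
    apply S_mono
    intro j
    apply numRank_le hR (Qc iA (𝟙_ C) j) (Qc pA (𝟙_ C) j)
    apply Qc_num hR
    have h4 : pA ≫ iA - 𝟙 P = -(Y ◁ p) := by rw [hA']; abel
    rw [h4]
    exact numTriv_neg (hn.whiskerLeft hR Y)
  exact_mod_cast h3

/-- The realisation of the cycle of a homologically trivial endomorphism. -/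
lemma homPow_zz {Y Y' : C} [ExactPairing Y Y'] (y : End Y') (hy : R.H.map (y : Y' ⟶ Y') = 0)
    (k : ℕ) : HomPow R k (η_ Y Y' ≫ Y ◁ ((y ^ k : End Y') : Y' ⟶ Y')) := by
  induction k with
  | zero => trivial
  | succ k ih =>
    refine ⟨Y ⊗ Y', η_ Y Y' ≫ Y ◁ ((y ^ k : End Y') : Y' ⟶ Y'), Y ◁ (y : Y' ⟶ Y'), ih,
      map_whiskerLeft_zero Y hy, ?_⟩
    rw [Category.assoc, ← whiskerLeft_comp, pow_succ', End.mul_def]

/-- An endomorphism which is not algebraic gives infinitely many deep cycles. -/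
lemma deepDim_top {k : ℕ} {S₀ : ∀ Z : C, Submodule Λ (𝟙_ C ⟶ Z)} (hS : IsDeep R k S₀) {Y Y' : C}
    [ExactPairing Y Y'] (y : End Y') (hy : R.H.map (y : Y' ⟶ Y') = 0)
    (hy0 : ¬ IsIntegral Λ y) : deepDim S₀ (Y ⊗ Y') = ⊤ := by
  apply dimE_top
  intro hfin
  have hmem : ∀ f : Polynomial Λ,
      (smashSub Λ (Y ⊗ Y')).mkQ (zz Λ Y Y' (Polynomial.aeval y (Polynomial.X ^ k * f) : End Y')) ∈
        (S₀ (Y ⊗ Y')).map (smashSub Λ (Y ⊗ Y')).mkQ := by
    intro f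
    refine ⟨_, hS.deep _ ?_, rfl⟩
    have h1 : (Polynomial.aeval y (Polynomial.X ^ k * f) : End Y') =
        ((Polynomial.aeval y f : End Y') * y ^ k : End Y') := by
      rw [mul_comm, map_mul, map_pow, Polynomial.aeval_X]
    rw [h1]
    have h2 : zz Λ Y Y' (((Polynomial.aeval y f : End Y') * y ^ k : End Y') : Y' ⟶ Y') =
        (η_ Y Y' ≫ Y ◁ ((y ^ k : End Y') : Y' ⟶ Y')) ≫
          Y ◁ ((Polynomial.aeval y f : End Y') : Y' ⟶ Y') := by
      change η_ Y Y' ≫ Y ◁ _ = _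
      rw [Category.assoc, ← whiskerLeft_comp, End.mul_def]
    rw [h2]
    exact (homPow_zz y hy k).comp _
  let g : Polynomial Λ →ₗ[Λ] ((𝟙_ C ⟶ Y ⊗ Y') ⧸ smashSub Λ (Y ⊗ Y')) :=
    (smashSub Λ (Y ⊗ Y')).mkQ ∘ₗ zz Λ Y Y' ∘ₗ (Polynomial.aeval y).toLinearMap ∘ₗ
      LinearMap.mulLeft Λ (Polynomial.X ^ k)
  have hginj : Function.Injective g := by
    rw [injective_iff_map_eq_zero]
    intro f hf
    by_contra hf0
    have h1 : SmashNil (η_ Y Y' ≫ Y ◁ ((Polynomial.aeval y (Polynomial.X ^ k * f) : End Y') :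
        Y' ⟶ Y')) := (Submodule.Quotient.mk_eq_zero _).1 hf
    obtain ⟨l, hl⟩ := nil_of_smash _ h1
    rw [← map_pow] at hl
    apply hy0
    rw [← isAlgebraic_iff_isIntegral]
    exact ⟨_, pow_ne_zero l (mul_ne_zero (pow_ne_zero k Polynomial.X_ne_zero) hf0), hl⟩
  have h2 : Module.Finite Λ (Polynomial Λ) :=
    Module.Finite.of_injective (g.codRestrict _ hmem) (by
      intro a b hab
      exact hginj (congrArg Subtype.val hab))
  exact Polynomial.not_finite h2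

/-- An algebraic endomorphism which is not nilpotent has an idempotent multiple. -/
lemma exists_idem_of_integral {X : C} (y : End X) (hy : IsIntegral Λ y) (hn : ¬ IsNilpotent y) :
    ∃ u : End X, IsIdempotentElem (u * y) ∧ u * y ≠ 0 := by
  have h1 : Module.Finite Λ (Algebra.adjoin Λ {y}) :=
    Module.Finite.iff_fg.2 hy.fg_adjoin_singleton
  have h2 : Module.Finite Λ (Algebra.adjoin Λ {y} ⧸ (⊥ : Ideal (Algebra.adjoin Λ {y}))) :=
    inferInstance
  obtain ⟨u, hu1, hu2⟩ := exists_idem_of_nil (Λ := Λ) (⊥ : Ideal (Algebra.adjoin Λ {y}))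
    (fun x hx => by rw [(Submodule.mem_bot _).1 hx]; exact IsNilpotent.zero)
    ⟨y, Algebra.subset_adjoin rfl⟩ (by
      rintro ⟨k, hk⟩
      exact hn ⟨k, by simpa using congrArg Subtype.val hk⟩)
  exact ⟨u.1, congrArg Subtype.val hu1, fun h0 => hu2 (Subtype.ext h0)⟩

/-- **Many deep cycles.** -/
theorem many_deep [IsIdempotentComplete C] {T : C} [ExactPairing T T] (h : IsPow Λ R T) {m : ℕ}
    (y : End (tp T m)) (hy : R.H.map (y : tp T m ⟶ tp T m) = 0) (hyn : ¬ IsNilpotent y) {k : ℕ}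
    (hk : 0 < k) {S₀ : ∀ Z : C, Submodule Λ (𝟙_ C ⟶ Z)} (hS : IsDeep R k S₀) (n : ℕ) :
    ((∑ i ∈ Finset.range (n + 1), n.choose i * numRank Λ (tp T (2 * m * (n - i))) : ℕ) : ℕ∞) ≤
      deepDim S₀ (tp T (2 * m * (n + k))) := by
  obtain ⟨D, hD, ⟨e⟩⟩ := exists_dual_tp T m
  obtain ⟨j, -⟩ := exists_tp_iso T m m
  have eP : D ⊗ tp T m ≅ tp T (2 * m) := (whiskerRightIso e (tp T m)) ≪≫ j ≪≫
    eqToIso (congrArg (tp T) (two_mul m).symm)
  have hiso : ∀ {X X' : C} (f : X ≅ X'), deepDim S₀ X ≤ deepDim S₀ X' := fun f =>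
    deepDim_le hS f.hom f.inv f.hom_inv_id
  by_cases hint : IsIntegral Λ y
  · obtain ⟨u, hu1, hu2⟩ := exists_idem_of_integral y hint hyn
    have hp2 : NumTriv ((u * y : End (tp T m)) : tp T m ⟶ tp T m) := by
      have h2 := (numTriv_of_map h.real hy).comp h.real (𝟙 (tp T m)) (u : tp T m ⟶ tp T m)
      rw [Category.id_comp] at h2
      exact h2
    have hp3 : R.H.map ((u * y : End (tp T m)) : tp T m ⟶ tp T m) = 0 := by
      rw [End.mul_def, Functor.map_comp, hy, zero_comp]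
    have hv : ¬ SmashNil (η_ D (tp T m) ≫ D ◁ ((u * y : End (tp T m)) : tp T m ⟶ tp T m)) := by
      intro h2
      obtain ⟨l, hl⟩ := nil_of_smash (Y := D) (u * y) h2
      apply hu2
      cases l with
      | zero =>
        have h3 : (1 : End (tp T m)) = 0 := by rw [← pow_zero (u * y), hl]
        rw [← mul_one (u * y), h3, mul_zero]
      | succ l => rw [← hu1.pow_succ_eq l, hl]
    have h1 := expo_deep h.real hS ((u * y : End (tp T m)) : tp T m ⟶ tp T m) hu1 hp2 hp3 hv n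
    have hQ : ∀ k, Nonempty (Q (D ⊗ tp T m) (𝟙_ C) k ≅ tp T (2 * m * k)) := by
      intro k
      obtain ⟨f⟩ := Q_tp T eP k (X := 𝟙_ C) (l := 0) (Iso.refl _)
      exact ⟨f ≪≫ eqToIso (congrArg (tp T) (zero_add _))⟩
    obtain ⟨f1⟩ := hQ n
    obtain ⟨f2⟩ := Q_tp T eP k f1
    have h2 := hiso (f2 ≪≫ eqToIso (congrArg (tp T)
      (show 2 * m * n + 2 * m * k = 2 * m * (n + k) by ring)))
    refine le_trans (le_of_eq ?_) (h1.trans h2)
    congr 1
    refine Finset.sum_congr rfl fun i _ => ?_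
    obtain ⟨f⟩ := hQ (n - i)
    rw [numRank_iso h.real f]
  · have h1 := deepDim_top hS (Y := D) y hy hint
    have h2 : ∀ l, 2 * m ≤ l → deepDim S₀ (tp T l) = ⊤ := by
      intro l hl
      induction l, hl using Nat.le_induction with
      | base => exact top_le_iff.1 (h1.symm.le.trans (hiso eP))
      | succ l _ ih =>
        obtain ⟨i, r, hir⟩ := exists_retract_tp h l
        exact top_le_iff.1 (ih.symm.le.trans (deepDim_le hS i r hir))
    rw [h2 _ (Nat.le_mul_of_pos_right _ (by omega))]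
    exact le_top

lemma IsDeep.succ {k : ℕ} {S₀ : ∀ Z : C, Submodule Λ (𝟙_ C ⟶ Z)} (hS : IsDeep R k S₀) :
    IsDeep R (k + 1) S₀ where
  stable := hS.stable
  deep := by
    rintro Z α ⟨W, g, y, hg, -, rfl⟩
    exact hS.deep _ (hg.comp y)

/-- **Kimura finite-dimensional, or exponentially many deep cycles.** -/
theorem expo_growth_deep [IsIdempotentComplete C] {T : C} [ExactPairing T T] (h : IsPow Λ R T)
    {m : ℕ} (y : End (tp T m)) (hy : R.H.map (y : tp T m ⟶ tp T m) = 0) (hyn : ¬ IsNilpotent y) :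
    ∃ c : ℝ, (bt R T : ℝ) < c ∧ ∀ (k : ℕ) (S₀ : ∀ Z : C, Submodule Λ (𝟙_ C ⟶ Z)),
      IsDeep R k S₀ → ∀ᶠ n : ℕ in atTop,
        ENNReal.ofReal (c ^ n) ≤ ((deepDim S₀ (tp T n) : ℕ∞) : ℝ≥0∞) := by
  have hm0 : m ≠ 0 := by
    rintro rfl
    exact hyn (nil_zero h.real T y (numTriv_of_map h.real hy))
  have hb := bt_pos h
  set B := bt R T ^ (2 * m) with hB
  have h2m : 2 * m ≠ 0 := by omega
  set c₂ : ℝ := ((B : ℝ) + 1 / 2) ^ (((2 * m : ℕ) : ℝ)⁻¹) with hc₂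
  have hcm : c₂ ^ (2 * m) = (B : ℝ) + 1 / 2 := Real.rpow_inv_natCast_pow (by positivity) h2m
  have hcb : (bt R T : ℝ) < c₂ := by
    refine lt_of_pow_lt_pow_left₀ (2 * m) (by positivity) ?_
    rw [hcm, hB]
    push_cast
    linarith
  have hb1 : (1 : ℝ) ≤ bt R T := by exact_mod_cast hb
  obtain ⟨c, hc1, hc2⟩ := exists_between hcb
  refine ⟨c, hc1, fun k S₀ hS => ?_⟩
  have hc : 1 < c := lt_of_le_of_lt hb1 hc1
  have hev := event B m (bt R T ^ 2) c₂ (by linarith) (by rw [hcm]; linarith)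
  -- the factor `c ^ (2 m (k + 3))` is absorbed
  have hr0 : 0 < c / c₂ := by positivity
  have hr1 : c / c₂ < 1 := (div_lt_one (by linarith)).2 hc2
  have hev2 : ∀ᶠ l : ℕ in atTop, c ^ (2 * m * (l + (k + 1) + 1)) ≤ c₂ ^ (2 * m * (l + 1)) := by
    have h1 : Tendsto (fun l : ℕ => (c / c₂) ^ (2 * m * (l + 1))) atTop (𝓝 0) := by
      have h2 : Tendsto (fun l : ℕ => 2 * m * (l + 1)) atTop atTop :=
        tendsto_atTop_mono (fun l => (show l ≤ 2 * m * (l + 1) by nlinarith [Nat.pos_of_ne_zero hm0]))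
          tendsto_id
      exact (tendsto_pow_atTop_nhds_zero_of_lt_one hr0.le hr1).comp h2
    have h2 : Tendsto (fun l : ℕ => c ^ (2 * m * (k + 1)) * (c / c₂) ^ (2 * m * (l + 1))) atTop
        (𝓝 0) := by simpa using h1.const_mul (c ^ (2 * m * (k + 1)))
    filter_upwards [h2.eventually_le_const (show (0 : ℝ) < 1 from one_pos)] with l hl
    have h3 : (0 : ℝ) < c₂ ^ (2 * m * (l + 1)) := by positivity
    have h4 : (c / c₂) ^ (2 * m * (l + 1)) * c₂ ^ (2 * m * (l + 1)) = c ^ (2 * m * (l + 1)) := by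
      rw [← mul_pow, div_mul_cancel₀]
      linarith
    calc c ^ (2 * m * (l + (k + 1) + 1)) = c ^ (2 * m * (k + 1)) * c ^ (2 * m * (l + 1)) := by
          rw [← pow_add]; congr 1; ring
      _ = (c ^ (2 * m * (k + 1)) * (c / c₂) ^ (2 * m * (l + 1))) * c₂ ^ (2 * m * (l + 1)) := by
          rw [mul_assoc (c ^ (2 * m * (k + 1))), h4]
      _ ≤ 1 * c₂ ^ (2 * m * (l + 1)) := mul_le_mul_of_nonneg_right hl h3.le
      _ = _ := one_mul _
  have hdiv : Tendsto (fun n : ℕ => n / (2 * m) - (k + 1)) atTop atTop :=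
    (tendsto_sub_atTop_nat (k + 1)).comp (Nat.tendsto_div_const_atTop h2m)
  filter_upwards [hdiv.eventually hev, hdiv.eventually hev2,
    eventually_ge_atTop (2 * m * (k + 1))] with n hn hn2 hn3
  have hq : k + 1 ≤ n / (2 * m) := (Nat.le_div_iff_mul_le (Nat.pos_of_ne_zero h2m)).2 (by
    rw [mul_comm]; exact hn3)
  set l := n / (2 * m) - (k + 1) with hl
  have hl2 : l + (k + 1) = n / (2 * m) := by omega
  have hkn : 2 * m * (l + (k + 1)) ≤ n := by rw [hl2]; exact Nat.mul_div_le n (2 * m)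
  have hnk : n ≤ 2 * m * (l + (k + 1) + 1) := by
    rw [hl2]; exact (Nat.lt_mul_div_succ n (Nat.pos_of_ne_zero h2m)).le
  have hmono : ∀ j, deepDim S₀ (tp T (2 * m * (l + (k + 1)))) ≤
      deepDim S₀ (tp T (2 * m * (l + (k + 1)) + j)) := by
    intro j
    induction j with
    | zero => exact le_refl _
    | succ j ih =>
      obtain ⟨i, r, hir⟩ := exists_retract_tp h (2 * m * (l + (k + 1)) + j)
      exact ih.trans (deepDim_le hS i r hir)
  have h2 := (many_deep h y hy hyn (Nat.succ_pos k) hS.succ l).trans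
    (hmono (n - 2 * m * (l + (k + 1))))
  rw [Nat.add_sub_cancel' hkn] at h2
  set s := ∑ i ∈ Finset.range (l + 1), l.choose i * numRank Λ (tp T (2 * m * (l - i))) with hs
  have h3 : c ^ n ≤ (s : ℝ) := by
    have h4 := sum_ge h m l
    rw [← hs, ← hB] at h4
    have h5 : ((B : ℝ) + 1) ^ l ≤ ((m : ℝ) * l + 1) ^ (bt R T ^ 2) * s := by exact_mod_cast h4
    have h6 : (0 : ℝ) < ((m : ℝ) * l + 1) ^ (bt R T ^ 2) := by positivity
    have h7 : c ^ n ≤ c ^ (2 * m * (l + (k + 1) + 1)) := pow_le_pow_right₀ hc.le hnk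
    refine le_of_mul_le_mul_right ?_ h6
    calc c ^ n * ((m : ℝ) * l + 1) ^ (bt R T ^ 2)
        ≤ c₂ ^ (2 * m * (l + 1)) * ((m : ℝ) * l + 1) ^ (bt R T ^ 2) :=
          mul_le_mul_of_nonneg_right (h7.trans hn2) h6.le
      _ ≤ _ := hn.trans (h5.trans_eq (mul_comm _ _))
  calc ENNReal.ofReal (c ^ n) ≤ ENNReal.ofReal (s : ℝ) := ENNReal.ofReal_le_ofReal h3
    _ = ((s : ℕ∞) : ℝ≥0∞) := by simp
    _ ≤ _ := by exact_mod_cast h2

end Pool.Agent.Run7.h848.XG
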