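import Pool.Agent.Run7.h848.XG.Smash

/-!
# Deep cycles: definitions
-/

set_option autoImplicit false
set_option linter.unusedSectionVars false

open CategoryTheory Limits MonoidalCategory Module Filter Topology
open Pool.Agent.Y112.SR Pool.Agent.Y112.KD Pool.Agent.N64.AF
open Pool.Agent.Y116.MT (tr)
open scoped ENNReal

namespace Pool.Agent.Run7.h848.XG

universe v u w t x

variable {C : Type u} [Category.{v} C] [Preadditive C] [MonoidalCategory C]
  [MonoidalPreadditive C] [SymmetricCategory C] [RightRigidCategory C]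
  {Λ : Type t} [Field Λ] [CharZero Λ] [Linear Λ C] [MonoidalLinear Λ C]
  {K : Type w} [Field K] [IsAlgClosed K] [Algebra Λ K] {R : SuperRealisation C K}

/-- `x` is a composition of (at least) `k` morphisms which are homologically trivial (their
realisation is zero). -/
def HomPow (R : SuperRealisation C K) : ∀ (_ : ℕ) {Y Z : C} (_ : Y ⟶ Z), Prop
  | 0, _, _, _ => True
  | k + 1, Y, Z, f => ∃ (W : C) (g : Y ⟶ W) (y : W ⟶ Z), HomPow R k g ∧ R.H.map y = 0 ∧ f = g ≫ y

/-- A family of subspaces of the spaces of cycles, stable under all morphisms, which contains the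
compositions of `k` homologically trivial morphisms. -/
structure IsDeep (R : SuperRealisation C K) (k : ℕ) (S : ∀ Z : C, Submodule Λ (𝟙_ C ⟶ Z)) :
    Prop where
  stable : ∀ {Y Z : C} (f : Y ⟶ Z) (α : 𝟙_ C ⟶ Y), α ∈ S Y → α ≫ f ∈ S Z
  deep : ∀ {Z : C} (α : 𝟙_ C ⟶ Z), HomPow R k α → α ∈ S Z

/-- The dimension of the image of `S Z` modulo smash-nilpotence. -/
noncomputable def deepDim (S : ∀ Z : C, Submodule Λ (𝟙_ C ⟶ Z)) (Z : C) : ℕ∞ :=
  dimE Λ ((S Z).map (smashSub Λ Z).mkQ)

end Pool.Agent.Run7.h848.XG
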