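import Pool.Agent.Run7.h848.XG.Fin
import Pool.Agent.N64.AF.M5

/-!
# The version for objects which are not self-dual
-/

set_option autoImplicit false
set_option linter.unusedSectionVars false

open CategoryTheory Limits MonoidalCategory Module Filter Topology
open Pool.Agent.Y112.SR Pool.Agent.Y112.KD Pool.Agent.N64.AF Pool.Agent.N413.AFW
open Pool.Agent.Y116.MT (tr)
open scoped ENNReal

namespace Pool.Agent.Run7.h848.XG

universe v u w t x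

variable {C : Type u} [Category.{v} C] [Preadditive C] [MonoidalCategory C]
  [MonoidalPreadditive C] [SymmetricCategory C] [RightRigidCategory C]
  {Λ : Type t} [Field Λ] [CharZero Λ] [Linear Λ C] [MonoidalLinear Λ C]
  {K : Type w} [Field K] [IsAlgClosed K] [Algebra Λ K] {R : SuperRealisation C K}

/-- **Many endomorphisms of the powers.** -/
theorem many_dual [IsIdempotentComplete C] (hR : IsReal Λ R) {T : C} (hT : R.CPlus T)
    (hb : 0 < bt R T) (m : ℕ)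
    (hm : ¬ ∀ y : End (tp T m), NumTriv (y : tp T m ⟶ tp T m) → IsNilpotent y) (n : ℕ) :
    ((∑ i ∈ Finset.range (n + 1), n.choose i * numRank Λ (tp (T ⊗ Tᘁ) (m * (n - i))) : ℕ) : ℕ∞) ≤
      dimE Λ (𝟙_ C ⟶ tp (T ⊗ Tᘁ) (m * n)) := by
  push Not at hm
  obtain ⟨y, hy, hyn⟩ := hm
  obtain ⟨inst, hS⟩ := isPow_tensor_dual hR hT hb
  let _ := pairTp T Tᘁ m
  let _ : ExactPairing (dp Tᘁ m) (tp T m) := BraidedCategory.exactPairing_swap (tp T m) (dp Tᘁ m)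
  have eP : dp Tᘁ m ⊗ tp T m ≅ tp (T ⊗ Tᘁ) m := β_ (dp Tᘁ m) (tp T m) ≪≫ (isoTp T Tᘁ m).symm
  by_cases hfin : Module.Finite Λ (𝟙_ C ⟶ tp (T ⊗ Tᘁ) m)
  · obtain ⟨ψ⟩ := nonempty_equiv_tensor_dual (Λ := Λ) T m
    have hf2 : Module.Finite Λ (tp T m ⟶ tp T m) := Module.Finite.equiv ψ
    obtain ⟨p, hp1, hp2, hp3⟩ := exists_idem hR y hy hyn
    have hv : ((homF Λ (𝟙_ C)).map (η_ (dp Tᘁ m) (tp T m) ≫ dp Tᘁ m ◁ p)).hom (𝟙 (𝟙_ C)) ≠ 0 := by
      intro h0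
      have h1 : 𝟙 (𝟙_ C) ≫ (η_ (dp Tᘁ m) (tp T m) ≫ dp Tᘁ m ◁ p) = 0 := h0
      rw [Category.id_comp] at h1
      exact hp3 (zz_inj (Λ := Λ) (dp Tᘁ m) (tp T m) (by rw [map_zero]; exact h1))
    have h1 := expo hR (homF Λ (𝟙_ C)) (𝟙 (𝟙_ C)) p hp1 hp2 hv n
    have hQ : ∀ k, Nonempty (Q (dp Tᘁ m ⊗ tp T m) (𝟙_ C) k ≅ tp (T ⊗ Tᘁ) (m * k)) := by
      intro k
      obtain ⟨f⟩ := Q_tp (T ⊗ Tᘁ) eP k (X := 𝟙_ C) (l := 0) (Iso.refl _)
      exact ⟨f ≪≫ eqToIso (congrArg (tp (T ⊗ Tᘁ)) (zero_add _))⟩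
    have h2 : dimE Λ ((homF Λ (𝟙_ C)).obj (Q (dp Tᘁ m ⊗ tp T m) (𝟙_ C) n)) ≤
        dimE Λ (𝟙_ C ⟶ tp (T ⊗ Tᘁ) (m * n)) := by
      obtain ⟨f⟩ := hQ n
      apply dimE_le_of_injective (Linear.rightComp Λ (𝟙_ C) f.hom)
      intro a b hab
      exact (cancel_mono f.hom).1 hab
    refine le_trans (le_of_eq ?_) (h1.trans h2)
    congr 1
    refine Finset.sum_congr rfl fun i _ => ?_
    obtain ⟨f⟩ := hQ (n - i)
    rw [numRank_iso hR f]
  · cases n with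
    | zero => simpa using numRank_le_dimE hR (tp (T ⊗ Tᘁ) (m * 0))
    | succ n =>
      have h1 : ∀ k, m ≤ k → ¬ Module.Finite Λ (𝟙_ C ⟶ tp (T ⊗ Tᘁ) k) := by
        intro k hk
        induction k, hk using Nat.le_induction with
        | base => exact hfin
        | succ n _ ih => exact not_finite_succ hS (homF Λ (𝟙_ C)) ih
      rw [dimE_top (h1 (m * (n + 1)) (Nat.le_mul_of_pos_right _ (Nat.succ_pos n)))]
      exact le_top

/-- The lower bound for the sums. -/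
lemma sum_ge_dual (hR : IsReal Λ R) {T : C} (hT : R.CPlus T) (m n : ℕ) :
    (bt R T ^ (2 * m) + 1) ^ n ≤ (m * n + 1) ^ (bt R T ^ 2) *
      ∑ i ∈ Finset.range (n + 1), n.choose i * numRank Λ (tp (T ⊗ Tᘁ) (m * (n - i))) := by
  rw [add_comm, add_pow, Finset.mul_sum]
  apply Finset.sum_le_sum
  intro i hi
  have h1 := growth (Λ := Λ) hR hT (m * (n - i))
  rw [← numRank_tensor_dual hR, ← pow_mul] at h1
  have h2 : (m * (n - i) + 1) ^ (bt R T ^ 2) ≤ (m * n + 1) ^ (bt R T ^ 2) :=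
    Nat.pow_le_pow_left (Nat.succ_le_succ (Nat.mul_le_mul_left _ (Nat.sub_le _ _))) _
  rw [one_pow, one_mul, ← pow_mul, mul_assoc 2 m, Nat.cast_id]
  calc bt R T ^ (2 * (m * (n - i))) * n.choose i
      ≤ ((m * (n - i) + 1) ^ (bt R T ^ 2) * numRank Λ (tp (T ⊗ Tᘁ) (m * (n - i)))) * n.choose i :=
        Nat.mul_le_mul_right _ h1
    _ ≤ ((m * n + 1) ^ (bt R T ^ 2) * numRank Λ (tp (T ⊗ Tᘁ) (m * (n - i)))) * n.choose i :=
        Nat.mul_le_mul_right _ (Nat.mul_le_mul_right _ h2)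
    _ = _ := by ring

/-- Polynomials and exponentials. -/
lemma event' (B m e : ℕ) (c : ℝ) (hc : 1 ≤ c) (hcB : c ^ m < (B : ℝ) + 1) :
    ∀ᶠ k : ℕ in atTop, c ^ (m * (k + 1)) * ((m : ℝ) * k + 1) ^ e ≤ ((B : ℝ) + 1) ^ k := by
  have hc0 : 0 < c ^ m := by positivity
  set r : ℝ := c ^ m / ((B : ℝ) + 1) with hr
  have hr0 : 0 < r := by positivity
  have hr1 : r < 1 := by rw [hr, div_lt_one (by positivity)]; exact hcB
  have h1 : Tendsto (fun k : ℕ => (k : ℝ) ^ e * r ^ k) atTop (𝓝 0) :=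
    tendsto_pow_const_mul_const_pow_of_lt_one e hr0.le hr1
  have h2 : Tendsto (fun k : ℕ => c ^ m * ((m : ℝ) + 1) ^ e * ((k : ℝ) ^ e * r ^ k)) atTop
      (𝓝 0) := by simpa using h1.const_mul (c ^ m * ((m : ℝ) + 1) ^ e)
  filter_upwards [h2.eventually_le_const (show (0 : ℝ) < 1 from one_pos), eventually_ge_atTop 1]
    with k hk hk1
  have hk2 : (1 : ℝ) ≤ k := by exact_mod_cast hk1
  have h3 : ((m : ℝ) * k + 1) ^ e ≤ ((m : ℝ) + 1) ^ e * (k : ℝ) ^ e := by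
    rw [← mul_pow]
    apply pow_le_pow_left₀ (by positivity)
    nlinarith
  have h4 : r ^ k * ((B : ℝ) + 1) ^ k = (c ^ m) ^ k := by
    rw [← mul_pow, hr, div_mul_cancel₀]
    positivity
  have h5 : c ^ (m * (k + 1)) = c ^ m * (r ^ k * ((B : ℝ) + 1) ^ k) := by
    rw [h4, pow_mul, pow_succ, mul_comm]
  calc c ^ (m * (k + 1)) * ((m : ℝ) * k + 1) ^ e
      ≤ c ^ (m * (k + 1)) * (((m : ℝ) + 1) ^ e * (k : ℝ) ^ e) :=
        mul_le_mul_of_nonneg_left h3 (by positivity)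
    _ = (c ^ m * ((m : ℝ) + 1) ^ e * ((k : ℝ) ^ e * r ^ k)) * ((B : ℝ) + 1) ^ k := by
        rw [h5]; ring
    _ ≤ 1 * ((B : ℝ) + 1) ^ k := mul_le_mul_of_nonneg_right hk (by positivity)
    _ = _ := one_mul _

/-- The asymptotic form. -/
theorem expo_growth_dual [IsIdempotentComplete C] (hR : IsReal Λ R) {T : C} (hT : R.CPlus T)
    (hb : 0 < bt R T) {m : ℕ}
    (hm : ¬ ∀ y : End (tp T m), NumTriv (y : tp T m ⟶ tp T m) → IsNilpotent y) :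
    ∃ c : ℝ, (bt R T : ℝ) ^ 2 < c ∧ ∀ᶠ n : ℕ in atTop,
      ENNReal.ofReal (c ^ n) ≤ ((dimE Λ (𝟙_ C ⟶ tp (T ⊗ Tᘁ) n) : ℕ∞) : ℝ≥0∞) := by
  have hm0 : m ≠ 0 := by
    rintro rfl
    exact hm (nil_zero hR T)
  obtain ⟨inst, hS⟩ := isPow_tensor_dual hR hT hb
  set B := bt R T ^ (2 * m) with hB
  set c : ℝ := ((B : ℝ) + 1 / 2) ^ ((m : ℝ)⁻¹) with hc
  have hcm : c ^ m = (B : ℝ) + 1 / 2 := Real.rpow_inv_natCast_pow (by positivity) hm0
  have hcb : (bt R T : ℝ) ^ 2 < c := by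
    refine lt_of_pow_lt_pow_left₀ m (by positivity) ?_
    rw [hcm, hB, ← pow_mul]
    push_cast
    linarith
  have hc1 : 1 ≤ c := by
    have h1 : (1 : ℝ) ≤ bt R T := by exact_mod_cast hb
    nlinarith
  refine ⟨c, hcb, ?_⟩
  have h1 := event' B m (bt R T ^ 2) c hc1 (by rw [hcm]; linarith)
  have hdiv : Tendsto (fun n : ℕ => n / m) atTop atTop :=
    Nat.tendsto_div_const_atTop hm0
  filter_upwards [hdiv.eventually h1] with n hn
  set k := n / m with hk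
  have hkn : m * k ≤ n := Nat.mul_div_le n m
  have hnk : n ≤ m * (k + 1) := (Nat.lt_mul_div_succ n (Nat.pos_of_ne_zero hm0)).le
  have hmono : ∀ j, dimE Λ (𝟙_ C ⟶ tp (T ⊗ Tᘁ) (m * k)) ≤
      dimE Λ (𝟙_ C ⟶ tp (T ⊗ Tᘁ) (m * k + j)) := by
    intro j
    induction j with
    | zero => exact le_refl _
    | succ j ih => exact ih.trans (dimE_mono_tp hS _)
  have h2 := (many_dual hR hT hb m hm k).trans (hmono (n - m * k))
  rw [Nat.add_sub_cancel' hkn] at h2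
  set s := ∑ i ∈ Finset.range (k + 1), k.choose i * numRank Λ (tp (T ⊗ Tᘁ) (m * (k - i))) with hs
  have h3 : c ^ n ≤ (s : ℝ) := by
    have h4 := sum_ge_dual (Λ := Λ) hR hT m k
    rw [← hs, ← hB] at h4
    have h5 : ((B : ℝ) + 1) ^ k ≤ ((m : ℝ) * k + 1) ^ (bt R T ^ 2) * s := by exact_mod_cast h4
    have h6 : (0 : ℝ) < ((m : ℝ) * k + 1) ^ (bt R T ^ 2) := by positivity
    have h7 : c ^ n ≤ c ^ (m * (k + 1)) := pow_le_pow_right₀ hc1 hnk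
    refine le_of_mul_le_mul_right ?_ h6
    calc c ^ n * ((m : ℝ) * k + 1) ^ (bt R T ^ 2)
        ≤ c ^ (m * (k + 1)) * ((m : ℝ) * k + 1) ^ (bt R T ^ 2) :=
          mul_le_mul_of_nonneg_right h7 h6.le
      _ ≤ _ := hn.trans (h5.trans_eq (mul_comm _ _))
  calc ENNReal.ofReal (c ^ n) ≤ ENNReal.ofReal (s : ℝ) := ENNReal.ofReal_le_ofReal h3
    _ = ((s : ℕ∞) : ℝ≥0∞) := by simp
    _ ≤ _ := by exact_mod_cast h2

/-- Kimura finite-dimensional, or exponentially many endomorphisms of the powers. -/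
theorem kimura_or_dual {C : Type u} [Category.{v} C] [Preadditive C] [MonoidalCategory C]
    [MonoidalPreadditive C] [SymmetricCategory C] [RightRigidCategory C]
    [Linear ℚ C] [MonoidalLinear ℚ C] [IsIdempotentComplete C]
    {K : Type w} [Field K] [IsAlgClosed K] [Algebra ℚ K] {R : SuperRealisation C K}
    (hR : IsReal ℚ R) {T : C} (hT : R.CPlus T) (hb : 0 < bt R T) :
    (∀ m : ℕ, (∃ y : End (tp T m), NumTriv (y : tp T m ⟶ tp T m) ∧ ¬ IsNilpotent y) → ∀ n : ℕ,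
      ((∑ i ∈ Finset.range (n + 1), n.choose i * numRank ℚ (tp (T ⊗ Tᘁ) (m * (n - i))) : ℕ) : ℕ∞) ≤
        dimE ℚ (𝟙_ C ⟶ tp (T ⊗ Tᘁ) (m * n))) ∧
    (∀ m n : ℕ, (bt R T ^ (2 * m) + 1) ^ n ≤ (m * n + 1) ^ (bt R T ^ 2) *
      ∑ i ∈ Finset.range (n + 1), n.choose i * numRank ℚ (tp (T ⊗ Tᘁ) (m * (n - i)))) ∧
    (Pool.Agent.R905.IsKimuraFinite T ∨
      ∃ c : ℝ, (bt R T : ℝ) ^ 2 < c ∧ ∀ᶠ n : ℕ in atTop,
        ENNReal.ofReal (c ^ n) ≤ ((dimE ℚ (𝟙_ C ⟶ tp (T ⊗ Tᘁ) n) : ℕ∞) : ℝ≥0∞)) := by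
  refine ⟨fun m hm n => ?_, sum_ge_dual hR hT, ?_⟩
  · obtain ⟨y, hy, hn⟩ := hm
    exact many_dual hR hT hb m (fun h1 => hn (h1 y hy)) n
  · by_cases hall : ∀ (m : ℕ) (y : End (tp T m)), NumTriv (y : tp T m ⟶ tp T m) → IsNilpotent y
    · exact Or.inl (kimura_of_nil hR hT fun n y hy => hall n y (numTriv_of_map hR hy))
    · rw [not_forall] at hall
      obtain ⟨m, hm⟩ := hall
      exact Or.inr (expo_growth_dual hR hT hb hm)

end Pool.Agent.Run7.h848.XG
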