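import Pool.Agent.Run7.h848.XG.Core

/-!
# Numerically trivial idempotents give many classes on the powers
-/

set_option autoImplicit false
set_option linter.unusedSectionVars false

open CategoryTheory Limits MonoidalCategory Module
open Pool.Agent.Y112.SR Pool.Agent.Y112.KD Pool.Agent.N64.AF
open Pool.Agent.Y116.MT (tr)

namespace Pool.Agent.Run7.h848.XG

universe v u w t x

section Contract

variable {C : Type u} [Category.{v} C] [MonoidalCategory C]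

/-- Contraction of the last factor of `Z ⊗ Y'` with the first one of `Y ⊗ Y'`. -/
def kap {Y Y' : C} [ExactPairing Y Y'] (Z : C) : (Z ⊗ Y') ⊗ (Y ⊗ Y') ⟶ Z ⊗ Y' :=
  (α_ Z Y' (Y ⊗ Y')).hom ≫ Z ◁ ((α_ Y' Y Y').inv ≫ (ε_ Y Y') ▷ Y' ≫ (λ_ Y').hom)

lemma ins_kap {Y Y' : C} [ExactPairing Y Y'] (p : Y' ⟶ Y') (Z : C) :
    ins (η_ Y Y' ≫ Y ◁ p) (Z ⊗ Y') ≫ kap (Y := Y) Z = Z ◁ p := by
  have h1 : (ρ_ Y').inv ≫ Y' ◁ (η_ Y Y' ≫ Y ◁ p) ≫ (α_ Y' Y Y').inv ≫ (ε_ Y Y') ▷ Y' ≫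
      (λ_ Y').hom = p := by
    rw [whiskerLeft_comp, Category.assoc, ← Category.assoc (Y' ◁ Y ◁ p),
      associator_inv_naturality_right, Category.assoc, ← Category.assoc ((Y' ⊗ Y) ◁ p),
      whisker_exchange, Category.assoc, leftUnitor_naturality, ← Category.assoc (Y' ◁ η_ Y Y'),
      ← Category.assoc (Y' ◁ η_ Y Y' ≫ _), Category.assoc (Y' ◁ η_ Y Y'),
      ExactPairing.coevaluation_evaluation]
    simp
  have h2 : ins (η_ Y Y' ≫ Y ◁ p) (Z ⊗ Y') ≫ kap (Y := Y) Z =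
      Z ◁ ((ρ_ Y').inv ≫ Y' ◁ (η_ Y Y' ≫ Y ◁ p) ≫ (α_ Y' Y Y').inv ≫ (ε_ Y Y') ▷ Y' ≫
      (λ_ Y').hom) := by
    unfold ins kap
    rw [whiskerLeft_comp Z (ρ_ Y').inv, whiskerLeft_comp Z (Y' ◁ (η_ Y Y' ≫ Y ◁ p)),
      Category.assoc, ← Category.assoc ((Z ⊗ Y') ◁ _), associator_naturality_right,
      Category.assoc, ← Category.assoc ((ρ_ (Z ⊗ Y')).inv), rightUnitor_tensor_inv]
    simp
  rw [h2, h1]

/-- Repeated contraction. -/
def Cn {Y Y' : C} [ExactPairing Y Y'] (Z : C) : ∀ r : ℕ, (Q (Y ⊗ Y') (Z ⊗ Y') r ⟶ Z ⊗ Y')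
  | 0 => 𝟙 _
  | r + 1 => Qm (Y ⊗ Y') (kap (Y := Y) Z) r ≫ Cn Z r

lemma J_Cn {Y Y' : C} [ExactPairing Y Y'] (p : Y' ⟶ Y') (Z : C) {W : C} (y : W ⟶ Z ⊗ Y')
    (hy : y ≫ Z ◁ p = y) (r : ℕ) :
    y ≫ J (η_ Y Y' ≫ Y ◁ p) (Z ⊗ Y') r ≫ Cn (Y := Y) Z r = y := by
  induction r with
  | zero => exact (congrArg (y ≫ ·) (Category.comp_id _)).trans (Category.comp_id _)
  | succ r ih =>
    change y ≫ (ins (η_ Y Y' ≫ Y ◁ p) (Z ⊗ Y') ≫
      J (η_ Y Y' ≫ Y ◁ p) ((Z ⊗ Y') ⊗ (Y ⊗ Y')) r) ≫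
        Qm (Y ⊗ Y') (kap (Y := Y) Z) r ≫ Cn (Y := Y) Z r = y
    rw [Category.assoc, ← Category.assoc (J _ ((Z ⊗ Y') ⊗ (Y ⊗ Y')) r), ← J_nat, Category.assoc,
      ← Category.assoc (ins _ _), ins_kap, ← Category.assoc, hy]
    exact ih

end Contract

section Num

variable {C : Type u} [Category.{v} C] [Preadditive C] [MonoidalCategory C]
  [MonoidalPreadditive C] [SymmetricCategory C] [RightRigidCategory C]
  {Λ : Type t} [Field Λ] [CharZero Λ] [Linear Λ C] [MonoidalLinear Λ C]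
  {K : Type w} [Field K] [Algebra Λ K] {R : SuperRealisation C K}

lemma Qm_sub (P : C) (n : ℕ) : ∀ {X X' : C} (g h : X ⟶ X'),
    Qm P (g - h) n = Qm P g n - Qm P h n := by
  induction n with
  | zero => intro _ _ _ _; rfl
  | succ n ih =>
    intro X X' g h
    change Qm P ((g - h) ▷ P) n = Qm P (g ▷ P) n - Qm P (h ▷ P) n
    rw [← ih]
    congr 1
    have h1 : ((g - h) + h) ▷ P = (g - h) ▷ P + h ▷ P := MonoidalPreadditive.add_whiskerRight _ _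
    rw [sub_add_cancel] at h1
    rw [h1, add_sub_cancel_right]

lemma Qm_num (hR : IsReal Λ R) (P : C) (n : ℕ) : ∀ {X X' : C} {g : X ⟶ X'}, NumTriv g →
    NumTriv (Qm P g n) := by
  induction n with
  | zero => intro _ _ _ h; exact h
  | succ n ih => intro _ _ _ h; exact ih (h.whiskerRight hR P)

lemma numTriv_add {X Y : C} {f g : X ⟶ Y} (hf : NumTriv f) (hg : NumTriv g) : NumTriv (f + g) :=
  fun k => by rw [Preadditive.add_comp, tr_add', hf k, hg k, add_zero]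

lemma numTriv_neg {X Y : C} {f : X ⟶ Y} (hf : NumTriv f) : NumTriv (-f) := fun k => by
  have h1 : tr ((-f) ≫ k) + tr (f ≫ k) = 0 := by
    rw [← tr_add', ← Preadditive.add_comp, neg_add_cancel, zero_comp, tr_zero']
  rw [hf k, add_zero] at h1
  exact h1

/-- The retraction onto the powers of the numerically full summand. -/
lemma Qc_num (hR : IsReal Λ R) {P A : C} (i : A ⟶ P) (p : P ⟶ A) (h : NumTriv (p ≫ i - 𝟙 P))
    (n : ℕ) : ∀ X : C, NumTriv (Qc p X n ≫ Qc i X n - 𝟙 (Q P X n)) := by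
  induction n with
  | zero =>
    intro X
    have h1 : Qc p X 0 ≫ Qc i X 0 - 𝟙 (Q P X 0) = 0 := by
      change 𝟙 X ≫ 𝟙 X - 𝟙 X = 0
      rw [Category.comp_id, sub_self]
    rw [h1]
    exact fun g => by rw [zero_comp, tr_zero']
  | succ n ih =>
    intro X
    have e1 : Qc p X (n + 1) ≫ Qc i X (n + 1) - 𝟙 (Q P X (n + 1)) =
        (Qc p (X ⊗ P) n ≫ Qc i (X ⊗ P) n - 𝟙 _) ≫ Qm P (X ◁ (p ≫ i)) n +
          Qm P (X ◁ (p ≫ i) - 𝟙 _) n := by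
      change (Qc p (X ⊗ P) n ≫ Qm A (X ◁ p) n) ≫ Qc i (X ⊗ A) n ≫ Qm P (X ◁ i) n -
        𝟙 (Q P (X ⊗ P) n) = _
      rw [Category.assoc, ← Category.assoc (Qm A (X ◁ p) n), Qc_nat, Category.assoc, ← Qm_comp,
        ← whiskerLeft_comp, Qm_sub, Qm_id, Preadditive.sub_comp, Category.id_comp, Category.assoc]
      abel
    rw [e1]
    apply numTriv_add
    · have h1 := (ih (X ⊗ P)).comp hR (𝟙 _) (Qm P (X ◁ (p ≫ i)) n)
      rw [Category.id_comp] at h1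
      exact h1
    · apply Qm_num hR
      have h1 : X ◁ (p ≫ i) - 𝟙 (X ⊗ P) = X ◁ (p ≫ i - 𝟙 P) := by
        have h2 : X ◁ ((p ≫ i - 𝟙 P) + 𝟙 P) = X ◁ (p ≫ i - 𝟙 P) + X ◁ 𝟙 P :=
          MonoidalPreadditive.whiskerLeft_add _ _
        rw [sub_add_cancel, whiskerLeft_id] at h2
        rw [h2, add_sub_cancel_right]
      rw [h1]
      exact h.whiskerLeft hR X

/-- Comparison of the numerical ranks. -/
lemma numRank_le (hR : IsReal Λ R) {X X' : C} (i : X' ⟶ X) (p : X ⟶ X')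
    (h : NumTriv (p ≫ i - 𝟙 X)) : numRank Λ X ≤ numRank Λ X' := by
  have h1 := finite_num (Λ := Λ) hR (𝟙_ C) X'
  have h2 : numIdeal Λ (𝟙_ C) X' ≤ (numIdeal Λ (𝟙_ C) X).comap (Linear.rightComp Λ (𝟙_ C) i) := by
    intro y hy
    have h3 := NumTriv.comp hR (mem_numIdeal.1 hy) (𝟙 _) i
    rw [Category.id_comp] at h3
    exact h3
  refine LinearMap.finrank_le_finrank_of_surjective
    (f := (numIdeal Λ (𝟙_ C) X').mapQ (numIdeal Λ (𝟙_ C) X) (Linear.rightComp Λ (𝟙_ C) i) h2) ?_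
  intro y
  obtain ⟨y, rfl⟩ := Submodule.mkQ_surjective _ y
  refine ⟨(numIdeal Λ (𝟙_ C) X').mkQ (y ≫ p), ?_⟩
  change (numIdeal Λ (𝟙_ C) X).mkQ ((y ≫ p) ≫ i) = (numIdeal Λ (𝟙_ C) X).mkQ y
  rw [← sub_eq_zero, ← map_sub]
  refine (Submodule.Quotient.mk_eq_zero _).2 ?_
  have h3 := NumTriv.comp hR h y (𝟙 _)
  rw [Category.comp_id, Preadditive.comp_sub, Category.comp_id, ← Category.assoc] at h3
  exact h3

lemma numRank_iso (hR : IsReal Λ R) {X X' : C} (e : X ≅ X') : numRank Λ X = numRank Λ X' := by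
  have h0 : ∀ {Z : C}, NumTriv (𝟙 Z - 𝟙 Z) := fun {Z} g => by rw [sub_self, zero_comp, tr_zero']
  apply le_antisymm
  · exact numRank_le hR e.inv e.hom (by rw [e.hom_inv_id]; exact h0)
  · exact numRank_le hR e.hom e.inv (by rw [e.inv_hom_id]; exact h0)

/-- **Numerically trivial idempotents give many elements on the powers.** -/
theorem expo [IsIdempotentComplete C] (hR : IsReal Λ R) (F : C ⥤ ModuleCat.{x} Λ) [F.Additive]
    [F.Linear Λ] (v₀ : F.obj (𝟙_ C)) {Y Y' : C} [ExactPairing Y Y'] (p : Y' ⟶ Y')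
    (hp : p ≫ p = p) (hn : NumTriv p) (hv : (F.map (η_ Y Y' ≫ Y ◁ p)).hom v₀ ≠ 0) (n : ℕ) :
    ((∑ i ∈ Finset.range (n + 1), n.choose i * numRank Λ (Q (Y ⊗ Y') (𝟙_ C) (n - i)) : ℕ) : ℕ∞) ≤
      dimE Λ (F.obj (Q (Y ⊗ Y') (𝟙_ C) n)) := by
  set P := Y ⊗ Y' with hP
  obtain ⟨z, hz⟩ : ∃ z : 𝟙_ C ⟶ P, z = η_ Y Y' ≫ Y ◁ p := ⟨_, rfl⟩
  rw [← hz] at hv
  have hpp : Y ◁ p ≫ Y ◁ p = Y ◁ p := by rw [← whiskerLeft_comp, hp]
  have hzp : z ≫ Y ◁ p = z := by rw [hz, Category.assoc, hpp]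
  obtain ⟨B, iB, pB, hB, hB'⟩ := IsIdempotentComplete.idempotents_split P (Y ◁ p) hpp
  obtain ⟨A, iA, pA, hA, hA'⟩ := IsIdempotentComplete.idempotents_split P (𝟙 P - Y ◁ p) (by
    rw [Preadditive.sub_comp, Preadditive.comp_sub, Preadditive.comp_sub, Category.id_comp,
      Category.id_comp, Category.comp_id, hpp, sub_self, sub_zero])
  have hiB : iB ≫ Y ◁ p = iB := by rw [← hB', ← Category.assoc, hB, Category.id_comp]
  have hpB : Y ◁ p ≫ pB = pB := by rw [← hB', Category.assoc, hB, Category.comp_id]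
  have hAB : iA ≫ pB = 0 := by
    have h1 : iA ≫ (𝟙 P - Y ◁ p) = iA := by rw [← hA', ← Category.assoc, hA, Category.id_comp]
    rw [← h1, Category.assoc, Preadditive.sub_comp, hpB, Category.id_comp, sub_self, comp_zero]
  have hBA : iB ≫ pA = 0 := by
    have h1 : (𝟙 P - Y ◁ p) ≫ pA = pA := by rw [← hA', Category.assoc, hA, Category.comp_id]
    rw [← h1, ← Category.assoc, Preadditive.comp_sub, hiB, Category.comp_id, sub_self, zero_comp]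
  have hw : ∀ r, (F.map (J (z ≫ pB) (𝟙_ C) r)).hom v₀ ≠ 0 := by
    intro r h0
    apply hv
    -- the insertions of `z`
    have h1 : (F.map (J z (𝟙_ C) r)).hom v₀ = 0 := by
      have h2 := J_change (z ≫ pB) iB r (𝟙_ C)
      rw [Category.assoc, hB', hzp] at h2
      rw [← h2, F.map_comp, ModuleCat.hom_comp, LinearMap.comp_apply, h0, map_zero]
    cases r with
    | zero =>
      have h2 : v₀ = 0 := by
        have h3 : (F.map (𝟙 (𝟙_ C))).hom v₀ = 0 := h1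
        rw [F.map_id] at h3
        exact h3
      rw [h2, map_zero]
    | succ r =>
      let a : 𝟙_ C ⊗ P ⟶ (𝟙_ C ⊗ Y) ⊗ Y' := (α_ (𝟙_ C) Y Y').inv
      let y : 𝟙_ C ⟶ (𝟙_ C ⊗ Y) ⊗ Y' := ins z (𝟙_ C) ≫ a
      have hins : ins z (𝟙_ C) ≫ 𝟙_ C ◁ Y ◁ p = ins z (𝟙_ C) := by
        unfold ins
        rw [Category.assoc, ← whiskerLeft_comp, hzp]
      have hy : y ≫ (𝟙_ C ⊗ Y) ◁ p = y := by
        change (ins z (𝟙_ C) ≫ (α_ (𝟙_ C) Y Y').inv) ≫ (𝟙_ C ⊗ Y) ◁ p =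
          ins z (𝟙_ C) ≫ (α_ (𝟙_ C) Y Y').inv
        rw [Category.assoc, ← associator_inv_naturality_right, ← Category.assoc, hins]
      have h2 := J_Cn (Y := Y) p (𝟙_ C ⊗ Y) y hy r
      rw [← hz] at h2
      have h3 : y ≫ J z ((𝟙_ C ⊗ Y) ⊗ Y') r =
          J z (𝟙_ C) (r + 1) ≫ Qm P a r := by
        change (ins z (𝟙_ C) ≫ a) ≫ J z ((𝟙_ C ⊗ Y) ⊗ Y') r =
          (ins z (𝟙_ C) ≫ J z (𝟙_ C ⊗ P) r) ≫ Qm P a r
        rw [Category.assoc, J_nat, Category.assoc]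
      rw [← Category.assoc, h3] at h2
      have h4 : (F.map y).hom v₀ = 0 := by
        rw [← h2, F.map_comp, F.map_comp, ModuleCat.hom_comp, ModuleCat.hom_comp,
          LinearMap.comp_apply, LinearMap.comp_apply, h1, map_zero, map_zero]
      have h5 : y ≫ (α_ (𝟙_ C) Y Y').hom ≫ (λ_ P).hom = z := by
        change (ins z (𝟙_ C) ≫ (α_ (𝟙_ C) Y Y').inv) ≫ (α_ (𝟙_ C) Y Y').hom ≫ (λ_ P).hom = z
        unfold ins
        rw [Category.assoc, Iso.inv_hom_id_assoc, Category.assoc, leftUnitor_naturality,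
          unitors_equal, Iso.inv_hom_id_assoc]
      rw [← h5, F.map_comp, ModuleCat.hom_comp, LinearMap.comp_apply, h4, map_zero]
  have h1 := main_ineq hR F v₀ iA pA iB pB hA hB hAB hBA (z ≫ pB) hw n 0 (𝟙_ C)
  have h2 : rk F v₀ (z ≫ pB) 0 (Q P (𝟙_ C) n) ≤ dimE Λ (F.obj (Q P (𝟙_ C) n)) :=
    dimE_le_of_injective (Submodule.subtype _) (Submodule.subtype_injective _)
  refine le_trans ?_ (h1.trans h2)
  rw [← S_eq n (fun j => numRank Λ (Q P (𝟙_ C) j))]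
  have h3 : S (fun j => numRank Λ (Q P (𝟙_ C) j)) n ≤ S (fun j => numRank Λ (Q A (𝟙_ C) j)) n := by
    apply S_mono
    intro j
    apply numRank_le hR (Qc iA (𝟙_ C) j) (Qc pA (𝟙_ C) j)
    apply Qc_num hR
    have h4 : pA ≫ iA - 𝟙 P = -(Y ◁ p) := by rw [hA']; abel
    rw [h4]
    exact numTriv_neg (hn.whiskerLeft hR Y)
  exact_mod_cast h3

end Num

end Pool.Agent.Run7.h848.XG
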