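import Pool.Agent.Run7.h848.XG.Pow

/-!
# Exponential growth
-/

set_option autoImplicit false
set_option linter.unusedSectionVars false

open CategoryTheory Limits MonoidalCategory Module Filter Topology
open Pool.Agent.Y112.SR Pool.Agent.Y112.KD Pool.Agent.N64.AF
open Pool.Agent.Y116.MT (tr)
open scoped ENNReal

namespace Pool.Agent.Run7.h848.XG

universe v u w t x

variable {C : Type u} [Category.{v} C] [Preadditive C] [MonoidalCategory C]
  [MonoidalPreadditive C] [SymmetricCategory C] [RightRigidCategory C]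
  {Λ : Type t} [Field Λ] [CharZero Λ] [Linear Λ C] [MonoidalLinear Λ C]
  {K : Type w} [Field K] [IsAlgClosed K] [Algebra Λ K] {R : SuperRealisation C K}

/-- The lower bound for the numerical ranks. -/
lemma rho_ge {T : C} [ExactPairing T T] (h : IsPow Λ R T) (k : ℕ) :
    bt R T ^ (2 * k) ≤ (k + 1) ^ (bt R T ^ 2) * numRank Λ (tp T (2 * k)) := by
  have h1 := growth h.real h.cplus k
  rw [nr_tp h.real T k k] at h1
  rw [pow_mul, two_mul]
  exact h1

/-- The lower bound for the sums. -/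
lemma sum_ge {T : C} [ExactPairing T T] (h : IsPow Λ R T) (m n : ℕ) :
    (bt R T ^ (2 * m) + 1) ^ n ≤ (m * n + 1) ^ (bt R T ^ 2) *
      ∑ i ∈ Finset.range (n + 1), n.choose i * numRank Λ (tp T (2 * m * (n - i))) := by
  rw [add_comm, add_pow, Finset.mul_sum]
  apply Finset.sum_le_sum
  intro i hi
  have h1 := rho_ge h (m * (n - i))
  have h2 : (m * (n - i) + 1) ^ (bt R T ^ 2) ≤ (m * n + 1) ^ (bt R T ^ 2) :=
    Nat.pow_le_pow_left (Nat.succ_le_succ (Nat.mul_le_mul_left _ (Nat.sub_le _ _))) _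
  rw [one_pow, one_mul, ← pow_mul, mul_assoc 2 m, Nat.cast_id]
  calc bt R T ^ (2 * (m * (n - i))) * n.choose i
      ≤ ((m * (n - i) + 1) ^ (bt R T ^ 2) * numRank Λ (tp T (2 * (m * (n - i))))) * n.choose i :=
        Nat.mul_le_mul_right _ h1
    _ ≤ ((m * n + 1) ^ (bt R T ^ 2) * numRank Λ (tp T (2 * (m * (n - i))))) * n.choose i :=
        Nat.mul_le_mul_right _ (Nat.mul_le_mul_right _ h2)
    _ = _ := by ring

lemma nil_zero (hR : IsReal Λ R) (T : C) (y : End (tp T 0))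
    (hy : NumTriv (y : tp T 0 ⟶ tp T 0)) : IsNilpotent y := by
  have h1 := hy (𝟙 _)
  rw [Category.comp_id] at h1
  have h2 : tr (y : 𝟙_ C ⟶ 𝟙_ C) = y := tr_unit hR y
  have h3 : y = 0 := h2.symm.trans h1
  rw [h3]
  exact IsNilpotent.zero

/-- Polynomials and exponentials. -/
lemma event (B m e : ℕ) (c : ℝ) (hc : 1 ≤ c) (hcB : c ^ (2 * m) < (B : ℝ) + 1) :
    ∀ᶠ k : ℕ in atTop, c ^ (2 * m * (k + 1)) * ((m : ℝ) * k + 1) ^ e ≤ ((B : ℝ) + 1) ^ k := by
  have hc0 : 0 < c ^ (2 * m) := by positivity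
  set r : ℝ := c ^ (2 * m) / ((B : ℝ) + 1) with hr
  have hr0 : 0 < r := by positivity
  have hr1 : r < 1 := by rw [hr, div_lt_one (by positivity)]; exact hcB
  have h1 : Tendsto (fun k : ℕ => (k : ℝ) ^ e * r ^ k) atTop (𝓝 0) :=
    tendsto_pow_const_mul_const_pow_of_lt_one e hr0.le hr1
  have h2 : Tendsto (fun k : ℕ => c ^ (2 * m) * ((m : ℝ) + 1) ^ e * ((k : ℝ) ^ e * r ^ k)) atTop
      (𝓝 0) := by simpa using h1.const_mul (c ^ (2 * m) * ((m : ℝ) + 1) ^ e)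
  filter_upwards [h2.eventually_le_const (show (0 : ℝ) < 1 from one_pos), eventually_ge_atTop 1]
    with k hk hk1
  have hk2 : (1 : ℝ) ≤ k := by exact_mod_cast hk1
  have h3 : ((m : ℝ) * k + 1) ^ e ≤ ((m : ℝ) + 1) ^ e * (k : ℝ) ^ e := by
    rw [← mul_pow]
    apply pow_le_pow_left₀ (by positivity)
    nlinarith
  have h4 : r ^ k * ((B : ℝ) + 1) ^ k = (c ^ (2 * m)) ^ k := by
    rw [← mul_pow, hr, div_mul_cancel₀]
    positivity
  have h5 : c ^ (2 * m * (k + 1)) = c ^ (2 * m) * (r ^ k * ((B : ℝ) + 1) ^ k) := by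
    rw [h4, pow_mul, pow_succ, mul_comm]
  calc c ^ (2 * m * (k + 1)) * ((m : ℝ) * k + 1) ^ e
      ≤ c ^ (2 * m * (k + 1)) * (((m : ℝ) + 1) ^ e * (k : ℝ) ^ e) :=
        mul_le_mul_of_nonneg_left h3 (by positivity)
    _ = (c ^ (2 * m) * ((m : ℝ) + 1) ^ e * ((k : ℝ) ^ e * r ^ k)) * ((B : ℝ) + 1) ^ k := by
        rw [h5]; ring
    _ ≤ 1 * ((B : ℝ) + 1) ^ k := mul_le_mul_of_nonneg_right hk (by positivity)
    _ = _ := one_mul _

/-- The asymptotic form. -/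
theorem expo_growth [IsIdempotentComplete C] {T : C} [ExactPairing T T] (h : IsPow Λ R T) {m : ℕ}
    (hm : ¬ ∀ y : End (tp T m), NumTriv (y : tp T m ⟶ tp T m) → IsNilpotent y) :
    ∃ c : ℝ, (bt R T : ℝ) < c ∧ ∀ᶠ n : ℕ in atTop,
      ENNReal.ofReal (c ^ n) ≤ ((dimE Λ (𝟙_ C ⟶ tp T n) : ℕ∞) : ℝ≥0∞) := by
  have hm0 : m ≠ 0 := by
    rintro rfl
    exact hm (nil_zero h.real T)
  have hb := bt_pos h
  set B := bt R T ^ (2 * m) with hB
  set c : ℝ := ((B : ℝ) + 1 / 2) ^ (((2 * m : ℕ) : ℝ)⁻¹) with hc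
  have h2m : 2 * m ≠ 0 := by omega
  have hcm : c ^ (2 * m) = (B : ℝ) + 1 / 2 := Real.rpow_inv_natCast_pow (by positivity) h2m
  have hcb : (bt R T : ℝ) < c := by
    refine lt_of_pow_lt_pow_left₀ (2 * m) (by positivity) ?_
    rw [hcm, hB]
    push_cast
    linarith
  have hc1 : 1 ≤ c := by
    have : (1 : ℝ) ≤ bt R T := by exact_mod_cast hb
    linarith
  refine ⟨c, hcb, ?_⟩
  have h1 := event B m (bt R T ^ 2) c hc1 (by rw [hcm]; linarith)
  have hdiv : Tendsto (fun n : ℕ => n / (2 * m)) atTop atTop :=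
    Nat.tendsto_div_const_atTop h2m
  filter_upwards [hdiv.eventually h1] with n hn
  set k := n / (2 * m) with hk
  have hkn : 2 * m * k ≤ n := Nat.mul_div_le n (2 * m)
  have hnk : n ≤ 2 * m * (k + 1) := (Nat.lt_mul_div_succ n (Nat.pos_of_ne_zero h2m)).le
  have hmono : ∀ j, dimE Λ (𝟙_ C ⟶ tp T (2 * m * k)) ≤ dimE Λ (𝟙_ C ⟶ tp T (2 * m * k + j)) := by
    intro j
    induction j with
    | zero => exact le_refl _
    | succ j ih => exact ih.trans (dimE_mono_tp h _)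
  have h2 := (many h m hm k).trans (hmono (n - 2 * m * k))
  rw [Nat.add_sub_cancel' hkn] at h2
  set s := ∑ i ∈ Finset.range (k + 1), k.choose i * numRank Λ (tp T (2 * m * (k - i))) with hs
  have h3 : c ^ n ≤ (s : ℝ) := by
    have h4 := sum_ge h m k
    rw [← hs, ← hB] at h4
    have h5 : ((B : ℝ) + 1) ^ k ≤ ((m : ℝ) * k + 1) ^ (bt R T ^ 2) * s := by exact_mod_cast h4
    have h6 : (0 : ℝ) < ((m : ℝ) * k + 1) ^ (bt R T ^ 2) := by positivity
    have h7 : c ^ n ≤ c ^ (2 * m * (k + 1)) := pow_le_pow_right₀ hc1 hnk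
    refine le_of_mul_le_mul_right ?_ h6
    calc c ^ n * ((m : ℝ) * k + 1) ^ (bt R T ^ 2)
        ≤ c ^ (2 * m * (k + 1)) * ((m : ℝ) * k + 1) ^ (bt R T ^ 2) :=
          mul_le_mul_of_nonneg_right h7 h6.le
      _ ≤ _ := hn.trans (h5.trans_eq (mul_comm _ _))
  calc ENNReal.ofReal (c ^ n) ≤ ENNReal.ofReal (s : ℝ) := ENNReal.ofReal_le_ofReal h3
    _ = ((s : ℕ∞) : ℝ≥0∞) := by simp
    _ ≤ _ := by exact_mod_cast h2

/-- Kimura finite-dimensional, or exponentially many cycles. -/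
theorem kimura_or {C : Type u} [Category.{v} C] [Preadditive C] [MonoidalCategory C]
    [MonoidalPreadditive C] [SymmetricCategory C] [RightRigidCategory C]
    [Linear ℚ C] [MonoidalLinear ℚ C] [IsIdempotentComplete C]
    {K : Type w} [Field K] [IsAlgClosed K] [Algebra ℚ K] {R : SuperRealisation C K}
    {T : C} [ExactPairing T T] (h : IsPow ℚ R T) (hT : ¬ Pool.Agent.R905.IsKimuraFinite T) :
    ∃ m : ℕ, 0 < m ∧ (∀ n : ℕ,
      ((∑ i ∈ Finset.range (n + 1), n.choose i * numRank ℚ (tp T (2 * m * (n - i))) : ℕ) : ℕ∞) ≤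
        dimE ℚ (𝟙_ C ⟶ tp T (2 * m * n)) ∧
      (bt R T ^ (2 * m) + 1) ^ n ≤ (m * n + 1) ^ (bt R T ^ 2) *
        ∑ i ∈ Finset.range (n + 1), n.choose i * numRank ℚ (tp T (2 * m * (n - i)))) ∧
    ∃ c : ℝ, (bt R T : ℝ) < c ∧ ∀ᶠ n : ℕ in atTop,
      ENNReal.ofReal (c ^ n) ≤ ((dimE ℚ (𝟙_ C ⟶ tp T n) : ℕ∞) : ℝ≥0∞) := by
  by_cases hall : ∀ (m : ℕ) (y : End (tp T m)), NumTriv (y : tp T m ⟶ tp T m) → IsNilpotent y
  · exact absurd (kimura_of_nil h.real h.cplus fun n y hy => hall n y (numTriv_of_map h.real hy)) hT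
  · rw [not_forall] at hall
    obtain ⟨m, hm⟩ := hall
    refine ⟨m, Nat.pos_of_ne_zero ?_, fun n => ⟨many h m hm n, sum_ge h m n⟩, expo_growth h hm⟩
    rintro rfl
    exact hm (nil_zero h.real T)

end Pool.Agent.Run7.h848.XG
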