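import Pool.Agent.Run7.h848.XG.AJ

/-!
# Homologically trivial cycles on the powers of a variety without odd cohomology
-/

set_option autoImplicit false
set_option linter.unusedSectionVars false

open CategoryTheory Limits MonoidalCategory Module Filter Topology
open Pool.Agent.Y112.SR Pool.Agent.Y112.KD Pool.Agent.N64.AF
open Pool.Agent.Y116.MT (tr)
open scoped ENNReal

namespace Pool.Agent.Run7.h848.XG

universe v u w t x

variable {C : Type u} [Category.{v} C] [Preadditive C] [MonoidalCategory C]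
  [MonoidalPreadditive C] [SymmetricCategory C] [RightRigidCategory C]
  {Λ : Type t} [Field Λ] [CharZero Λ] [Linear Λ C] [MonoidalLinear Λ C]
  {K : Type w} [Field K] [IsAlgClosed K] [Algebra Λ K] {R : SuperRealisation C K}

/-- The space spanned by the cycles on `Z` which are compositions of `k` homologically trivial
correspondences; for `k = 1` these are the homologically trivial cycles. -/
def prodCyc (Λ : Type t) [Field Λ] [Linear Λ C] (R : SuperRealisation C K) (k : ℕ) (Z : C) :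
    Submodule Λ (𝟙_ C ⟶ Z) :=
  Submodule.span Λ {α | HomPow R k α}

lemma isDeep_prodCyc (k : ℕ) : IsDeep R k (fun Z => prodCyc Λ R k Z) where
  stable := by
    intro Y Z f α hα
    induction hα using Submodule.span_induction with
    | mem x hx => exact Submodule.subset_span (HomPow.comp hx f)
    | zero => rw [zero_comp]; exact Submodule.zero_mem _
    | add x y _ _ hx hy => rw [Preadditive.add_comp]; exact Submodule.add_mem _ hx hy
    | smul a x _ hx => rw [Linear.smul_comp]; exact Submodule.smul_mem _ a hx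
  deep := fun α h => Submodule.subset_span h

lemma mem_prodCyc_one (hR : IsReal Λ R) {Z : C} (α : 𝟙_ C ⟶ Z) :
    α ∈ prodCyc Λ R 1 Z ↔ R.H.map α = 0 := by
  constructor
  · intro h
    have h1 : prodCyc Λ R 1 Z ≤ homSub hR (𝟙_ C) Z := by
      rw [prodCyc, Submodule.span_le]
      rintro α ⟨W, g, y, -, hy, rfl⟩
      change R.H.map (g ≫ y) = 0
      rw [Functor.map_comp, hy, comp_zero]
    exact h1 h
  · intro h
    exact Submodule.subset_span ⟨𝟙_ C, 𝟙 _, α, trivial, h, (Category.id_comp _).symm⟩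

/-- A variety without odd cohomology satisfies the sign conjecture. -/
lemma isPow_of_even (hR : IsReal Λ R) {T : C} (hT : R.par T = 𝟙 _)
    (hr : ∃ (i : 𝟙_ C ⟶ T) (r : T ⟶ 𝟙_ C), i ≫ r = 𝟙 (𝟙_ C)) : IsPow Λ R T where
  real := hR
  cplus := ⟨𝟙 T, by rw [CategoryTheory.Functor.map_id, hT, two_smul]⟩
  retract := hr

/-- **Homologically trivial cycles on all powers.** -/
theorem hom_main {C : Type u} [Category.{v} C] [Preadditive C] [MonoidalCategory C]
    [MonoidalPreadditive C] [SymmetricCategory C] [RightRigidCategory C]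
    [Linear ℚ C] [MonoidalLinear ℚ C] [IsIdempotentComplete C]
    {K : Type w} [Field K] [IsAlgClosed K] [Algebra ℚ K] {R : SuperRealisation C K}
    {T : C} [ExactPairing T T] (h : IsPow ℚ R T) :
    (∃ N : ℕ∞, RatioTo ℚ T (fun n => dimE ℚ (prodCyc ℚ R 1 (tp T n))) N ∧
      (N = 0 ↔ ∀ (n : ℕ) (α : 𝟙_ C ⟶ tp T n), R.H.map α = 0 → α = 0) ∧
      (N ≠ ⊤ → Pool.Agent.R905.IsKimuraFinite T)) ∧
    (∀ m n : ℕ, (∃ α : 𝟙_ C ⟶ tp T m, R.H.map α = 0 ∧ α ≠ 0) →
      128 * (m + 1) ^ 2 * bt R T ^ (2 * m + 6) ≤ 2 * n →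
      Pool.Agent.Run7.h184.AJ.Large ℚ R T n (dimE ℚ (prodCyc ℚ R 1 (tp T (2 * n))))) ∧
    (Pool.Agent.R905.IsKimuraFinite T ∨
      ∃ c : ℝ, (bt R T : ℝ) < c ∧ ∀ k : ℕ, ∀ᶠ n : ℕ in atTop, ENNReal.ofReal (c ^ n) ≤
        ((deepDim (fun Z => prodCyc ℚ R k Z) (tp T n) : ℕ∞) : ℝ≥0∞)) ∧
    (∀ (m : ℕ) (y : End (tp T m)), R.H.map (y : tp T m ⟶ tp T m) = 0 → ¬ IsNilpotent y →
      ∀ k n : ℕ, 0 < k → ((∑ i ∈ Finset.range (n + 1),
        n.choose i * numRank ℚ (tp T (2 * m * (n - i))) : ℕ) : ℕ∞) ≤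
          deepDim (fun Z => prodCyc ℚ R k Z) (tp T (2 * m * (n + k)))) ∧
    (∀ m n : ℕ, (bt R T ^ (2 * m) + 1) ^ n ≤ (m * n + 1) ^ (bt R T ^ 2) *
      ∑ i ∈ Finset.range (n + 1), n.choose i * numRank ℚ (tp T (2 * m * (n - i)))) := by
  have hK : Pool.Agent.R905.IsKimuraFinite T ∨
      ∃ c : ℝ, (bt R T : ℝ) < c ∧ ∀ k : ℕ, ∀ᶠ n : ℕ in atTop, ENNReal.ofReal (c ^ n) ≤
        ((deepDim (fun Z => prodCyc ℚ R k Z) (tp T n) : ℕ∞) : ℝ≥0∞) := by
    by_cases hall : ∀ (m : ℕ) (y : End (tp T m)), R.H.map (y : tp T m ⟶ tp T m) = 0 →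
        IsNilpotent y
    · exact Or.inl (kimura_of_nil h.real h.cplus hall)
    · push Not at hall
      obtain ⟨m, y, hy, hn⟩ := hall
      obtain ⟨c, hc, h1⟩ := expo_growth_deep h y hy hn
      exact Or.inr ⟨c, hc, fun k => h1 k _ (isDeep_prodCyc k)⟩
  have hsub : ∀ Z : C, Subsingleton (prodCyc ℚ R 1 Z) ↔
      ∀ α : 𝟙_ C ⟶ Z, R.H.map α = 0 → α = 0 := by
    intro Z
    rw [Submodule.subsingleton_iff_eq_bot, eq_bot_iff]
    constructor
    · intro h1 α hα
      exact (Submodule.mem_bot _).1 (h1 ((mem_prodCyc_one h.real α).2 hα))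
    · intro h1 α hα
      exact (Submodule.mem_bot _).2 (h1 α ((mem_prodCyc_one h.real α).1 hα))
  refine ⟨?_, ?_, hK, fun m y hy hn k n hk => many_deep h y hy hn hk (isDeep_prodCyc k) n,
    sum_ge h⟩
  · obtain ⟨N, h1, h2, -⟩ := law h (famF (fun Z => prodCyc ℚ R 1 Z)
      (fun f α => (isDeep_prodCyc 1).stable f α))
    refine ⟨N, h1, h2.trans (forall_congr' fun n => hsub _), fun hN => ?_⟩
    rcases hK with h3 | ⟨c, hc, h3⟩
    · exact h3
    · refine absurd (top_of_expo h h1 hc ?_) hN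
      filter_upwards [h3 1] with n hn
      exact hn.trans (by exact_mod_cast deepDim_le_dimE (fun Z => prodCyc ℚ R 1 Z) (tp T n))
  · rintro m n ⟨α, hα, hα0⟩ hn
    exact Pool.Agent.Run7.h184.AJ.gap h (famF (fun Z => prodCyc ℚ R 1 Z)
      (fun f α => (isDeep_prodCyc 1).stable f α)) hn fun hs => hα0 ((hsub _).1 hs α hα)

end Pool.Agent.Run7.h848.XG
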