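import Pool.Agent.Run7.h848.XG.DeepDefs
import Pool.Agent.Run7.h184.AJ.Defs
import Pool.Agent.N64.AF.M6

/-!
# Abel–Jacobi maps of the products `V × Y` for a fixed open variety `V`: definitions
-/

set_option autoImplicit false
set_option linter.unusedSectionVars false

open CategoryTheory Limits MonoidalCategory Module Filter Topology
open Pool.Agent.Y112.SR Pool.Agent.Y112.KD Pool.Agent.N64.AF
open Pool.Agent.Y116.MT (tr)
open Pool.Agent.Run7.h184.AJ (TrivialIdeal)
open scoped ENNReal

namespace Pool.Agent.Run7.h848.XG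

universe v u w t x

variable {C : Type u} [Category.{v} C] [Preadditive C] [MonoidalCategory C]
  [MonoidalPreadditive C] [SymmetricCategory C] [RightRigidCategory C]
  {Λ : Type t} [Field Λ] [CharZero Λ] [Linear Λ C] [MonoidalLinear Λ C]
  {K : Type w} [Field K] [IsAlgClosed K] [Algebra Λ K] {R : SuperRealisation C K}

/-- A family of subspaces of the spaces of cycles, stable under all morphisms, which contains all
compositions of sufficiently many homologically trivial morphisms; this number may depend on the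
target. For a filtration `F` of the Chow groups as expected by Bloch and Beilinson, stable under
correspondences and with `F ^ i · F ^ j ⊆ F ^ (i + j)` and `F ^ (j + 1) CH ^ j = F ^ (j + 2) CH ^ j = …`, the
intersection `⋂ F ^ i` is such a family. -/
structure IsInf (R : SuperRealisation C K) (S : ∀ Z : C, Submodule Λ (𝟙_ C ⟶ Z)) : Prop where
  stable : ∀ {Y Z : C} (f : Y ⟶ Z) (α : 𝟙_ C ⟶ Y), α ∈ S Y → α ≫ f ∈ S Z
  deep : ∀ Z : C, ∃ k : ℕ, ∀ α : 𝟙_ C ⟶ Z, HomPow R k α → α ∈ S Z

/-- The ideal of the morphisms with trivial realisation (the homologically trivial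
correspondences). -/
def homIdeal (hR : IsReal Λ R) : TrivialIdeal Λ R where
  J := fun Y Z => homSub hR Y Z
  left := by
    intro X Y Z f g hg
    change R.H.map (f ≫ g) = 0
    rw [Functor.map_comp, show R.H.map g = 0 from hg, comp_zero]
  right := by
    intro X Y Z f g hf
    change R.H.map (f ≫ g) = 0
    rw [Functor.map_comp, show R.H.map f = 0 from hf, zero_comp]
  tensor := by
    intro Y Z W f hf
    change R.H.map (f ▷ W) = 0
    rw [Functor.Monoidal.map_whiskerRight, show R.H.map f = 0 from hf,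
      MonoidalPreadditive.zero_whiskerRight, zero_comp, comp_zero]
  homTrivial := fun h => h

/-- The data of the Abel–Jacobi maps of the products `V × Y`, for a fixed smooth quasi-projective
variety `V` and all smooth projective varieties `Y`. In the intended use `B Y` is the sum of the groups
`CH^k(V × Y; ℚ)` over all `k` (of cycles defined over `ℚ̄`), `hom Y` the subspace of the homologically
trivial classes, `D Y` the sum of the groups `J^k(V × Y) ⊗ ℚ` (extensions of mixed Hodge structures)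
and `aj Y` the sum of the Abel–Jacobi maps. Correspondences act on all of them, the Abel–Jacobi maps
are compatible with the action, and homologically trivial correspondences map all of `B Y` into `hom`
and act as zero on `D`. The element `one` is the fundamental class of `V`; it is the class of `V` in
`CH^*(V)`, and `α ↦ α_* one` is the exterior product with `V`, which is injective if `V` has a rational
point. -/
structure OpenAJ (hR : IsReal Λ R) where
  /-- the Chow groups of `V × Y` -/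
  B : C ⥤ ModuleCat.{v} Λ
  [additiveB : B.Additive]
  [linearB : B.Linear Λ]
  /-- the homologically trivial classes -/
  hom : ∀ Y : C, Submodule Λ (B.obj Y)
  hom_map : ∀ {Y Z : C} (f : Y ⟶ Z) (b : B.obj Y), b ∈ hom Y → (B.map f).hom b ∈ hom Z
  hom_triv : ∀ {Y Z : C} (f : Y ⟶ Z), R.H.map f = 0 → ∀ b : B.obj Y, (B.map f).hom b ∈ hom Z
  /-- the targets -/
  D : C ⥤ ModuleCat.{x} Λ
  /-- the Abel–Jacobi maps -/
  aj : ∀ Y : C, hom Y →ₗ[Λ] D.obj Y
  natural : ∀ {Y Z : C} (f : Y ⟶ Z) (b : hom Y) (b' : hom Z), b'.1 = (B.map f).hom b.1 →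
    aj Z b' = (D.map f).hom (aj Y b)
  kill : ∀ {Y Z : C} (f : Y ⟶ Z), R.H.map f = 0 → ∀ a : D.obj Y, (D.map f).hom a = 0
  /-- the class of `V` -/
  one : B.obj (𝟙_ C)
  one_inj : ∀ {Y : C} (α : 𝟙_ C ⟶ Y), (B.map α).hom one = 0 → α = 0

attribute [instance] OpenAJ.additiveB OpenAJ.linearB

namespace OpenAJ

variable {hR : IsReal Λ R} (A : OpenAJ.{v, u, w, t, x} hR)

/-- The Abel–Jacobi maps of `V × Y` are injective. -/
def Inj (Y : C) : Prop := Function.Injective (A.aj Y)

/-- The kernel of the Abel–Jacobi map of `V × Y`, as a subspace of the Chow group. -/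
def ker (Y : C) : Submodule Λ (A.B.obj Y) :=
  (LinearMap.ker (A.aj Y)).map (A.hom Y).subtype

end OpenAJ

section Named

/-- The number `∑ i ≤ n, (n choose i) ρ (T ^ (2 m (n - i)))`. -/
noncomputable def bsum (Λ : Type t) [Field Λ] [Linear Λ C] [MonoidalLinear Λ C] (T : C)
    (m n : ℕ) : ℕ :=
  ∑ i ∈ Finset.range (n + 1), n.choose i * numRank Λ (tp T (2 * m * (n - i)))

/-- The numbers `d n` are at least `c ^ n` for all large `n`. -/
def Fast (c : ℝ) (d : ℕ → ℕ∞) : Prop :=
  ∀ᶠ n : ℕ in atTop, ENNReal.ofReal (c ^ n) ≤ ((d n : ℕ∞) : ℝ≥0∞)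

/-- If `bad m` holds for one `m` then `d (2 n)` is large for all `n` with
`2 n ≥ 128 (m + 1) ^ 2 b ^ (2 m + 6)`. -/
def Gap (Λ : Type t) [Field Λ] [Linear Λ C] [MonoidalLinear Λ C] (R : SuperRealisation C K) (T : C)
    (bad : ℕ → Prop) (d : ℕ → ℕ∞) : Prop :=
  ∀ m n : ℕ, bad m → 128 * (m + 1) ^ 2 * bt R T ^ (2 * m + 6) ≤ 2 * n →
    Pool.Agent.Run7.h184.AJ.Large Λ R T n (d (2 * n))

/-- The growth, the law and the gap for a family of subspaces of the spaces of cycles. -/
def InfLarge [Linear ℚ C] [MonoidalLinear ℚ C] (R : SuperRealisation C K) (T : C)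
    (S : ∀ Z : C, Submodule ℚ (𝟙_ C ⟶ Z)) : Prop :=
  (∀ (m : ℕ) (y : End (tp T m)), R.H.map (y : tp T m ⟶ tp T m) = 0 → ¬ IsNilpotent y →
    ∀ n : ℕ, (bsum ℚ T m n : ℕ∞) ≤ deepDim S (tp T (2 * m * (n + 1)))) ∧
  (∃ N : ℕ∞, RatioTo ℚ T (fun n => dimE ℚ (S (tp T n))) N ∧
    (N = 0 ↔ ∀ n, S (tp T n) = ⊥) ∧ (N ≠ ⊤ → Pool.Agent.R905.IsKimuraFinite T)) ∧
  Gap ℚ R T (fun m => S (tp T m) ≠ ⊥) (fun n => dimE ℚ (S (tp T n)))

/-- The growth, the law and the gap for the kernels of the Abel–Jacobi maps of `V × T ^ n`. -/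
def OpenAJ.Large [Linear ℚ C] [MonoidalLinear ℚ C] [Algebra ℚ K] {R : SuperRealisation C K}
    {hR : IsReal ℚ R} (A : OpenAJ.{v, u, w, 0, x} hR) (T : C) : Prop :=
  (∃ N : ℕ∞, RatioTo ℚ T (fun n => dimE ℚ (A.ker (tp T n))) N ∧
    (N = 0 ↔ ∀ n, A.Inj (tp T n)) ∧ (N ≠ ⊤ → Pool.Agent.R905.IsKimuraFinite T) ∧
    ∀ k : ℕ, N = k → (homIdeal hR).Nilpotent T (k + 2)) ∧
  (Pool.Agent.R905.IsKimuraFinite T ∨
    ∃ c : ℝ, (bt R T : ℝ) < c ∧ Fast c (fun n => dimE ℚ (A.ker (tp T n)))) ∧
  Gap ℚ R T (fun m => ¬ A.Inj (tp T m)) (fun n => dimE ℚ (A.ker (tp T n)))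

end Named

end Pool.Agent.Run7.h848.XG
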