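import Pool.Agent.Run7.h848.XG.Inf
import Pool.Agent.Run7.h184.AJ.Main

/-!
# Abel–Jacobi maps of the products `V × Y` for a fixed open variety `V`
-/

set_option autoImplicit false
set_option linter.unusedSectionVars false

open CategoryTheory Limits MonoidalCategory Module Filter Topology
open Pool.Agent.Y112.SR Pool.Agent.Y112.KD Pool.Agent.N64.AF
open Pool.Agent.Y116.MT (tr)
open Pool.Agent.Run7.h184.AJ (TrivialIdeal)
open scoped ENNReal

namespace Pool.Agent.Run7.h848.XG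

universe v u w t x

variable {C : Type u} [Category.{v} C] [Preadditive C] [MonoidalCategory C]
  [MonoidalPreadditive C] [SymmetricCategory C] [RightRigidCategory C]
  {Λ : Type t} [Field Λ] [CharZero Λ] [Linear Λ C] [MonoidalLinear Λ C]
  {K : Type w} [Field K] [IsAlgClosed K] [Algebra Λ K] {R : SuperRealisation C K}

namespace OpenAJ

variable {hR : IsReal Λ R} (A : OpenAJ.{v, u, w, t, x} hR)

lemma mem_ker {Y : C} {b : A.B.obj Y} :
    b ∈ A.ker Y ↔ ∃ h : b ∈ A.hom Y, A.aj Y ⟨b, h⟩ = 0 := by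
  constructor
  · rintro ⟨β, hβ, rfl⟩
    exact ⟨β.2, hβ⟩
  · rintro ⟨h, h0⟩
    exact ⟨⟨b, h⟩, h0, rfl⟩

lemma stab : IsStab A.B A.ker := by
  intro Y Z f b hb
  obtain ⟨h1, h2⟩ := A.mem_ker.1 hb
  refine A.mem_ker.2 ⟨A.hom_map f b h1, ?_⟩
  rw [A.natural f ⟨b, h1⟩ ⟨(A.B.map f).hom b, A.hom_map f b h1⟩ rfl, h2, map_zero]

/-- The functor of the kernels. -/
def kerFun : C ⥤ ModuleCat.{v} Λ := sub A.B A.ker A.stab

instance : A.kerFun.Additive := by unfold kerFun; infer_instance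

instance : A.kerFun.Linear Λ := by unfold kerFun; infer_instance

lemma inj_iff (Y : C) : A.Inj Y ↔ Subsingleton (A.ker Y) := by
  rw [Inj, ← LinearMap.ker_eq_bot, Submodule.subsingleton_iff_eq_bot, ker]
  constructor
  · intro h
    rw [h, Submodule.map_bot]
  · intro h
    rw [eq_bot_iff]
    intro a ha
    have h1 : a.1 ∈ (LinearMap.ker (A.aj Y)).map (A.hom Y).subtype := ⟨a, ha, rfl⟩
    rw [h] at h1
    exact Subtype.ext ((Submodule.mem_bot _).1 h1)

/-- Two homologically trivial correspondences map everything into the kernel. -/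
lemma two {Y Z W : C} (f : Y ⟶ Z) (g : Z ⟶ W) (hf : R.H.map f = 0) (hg : R.H.map g = 0)
    (b : A.B.obj Y) : (A.B.map g).hom ((A.B.map f).hom b) ∈ A.ker W := by
  have h1 := A.hom_triv f hf b
  refine A.mem_ker.2 ⟨A.hom_map g _ h1, ?_⟩
  rw [A.natural g ⟨_, h1⟩ ⟨_, A.hom_map g _ h1⟩ rfl]
  exact A.kill g hg _

/-- The cycles `α` on `Y` with `V × α` in the kernel of the Abel–Jacobi map. -/
def pull (Y : C) : Submodule Λ (𝟙_ C ⟶ Y) where
  carrier := {α | (A.B.map α).hom A.one ∈ A.ker Y}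
  zero_mem' := by
    change (A.B.map 0).hom A.one ∈ A.ker Y
    rw [Functor.map_zero]
    exact (A.ker Y).zero_mem
  add_mem' := by
    intro α β hα hβ
    change (A.B.map (α + β)).hom A.one ∈ A.ker Y
    rw [A.B.map_add]
    exact (A.ker Y).add_mem hα hβ
  smul_mem' := by
    intro c α hα
    change (A.B.map (c • α)).hom A.one ∈ A.ker Y
    rw [Functor.map_smul]
    exact (A.ker Y).smul_mem c hα

lemma isInf_pull : IsInf R A.pull where
  stable := by
    intro Y Z f α hα
    change (A.B.map (α ≫ f)).hom A.one ∈ A.ker Z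
    rw [A.B.map_comp]
    exact A.stab f hα
  deep := by
    intro Z
    refine ⟨2, ?_⟩
    rintro α ⟨W, g, y, ⟨W', g', y', -, hy', rfl⟩, hy, rfl⟩
    change (A.B.map ((g' ≫ y') ≫ y)).hom A.one ∈ A.ker Z
    rw [A.B.map_comp, ModuleCat.hom_comp, LinearMap.comp_apply]
    have h1 : R.H.map (g' ≫ y') = 0 := by rw [Functor.map_comp, hy', comp_zero]
    exact A.two (g' ≫ y') y h1 hy A.one

lemma deepDim_pull_le (Y : C) : deepDim A.pull Y ≤ dimE Λ (A.ker Y) := by
  refine (deepDim_le_dimE A.pull Y).trans ?_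
  let φ : A.pull Y →ₗ[Λ] A.ker Y :=
    { toFun := fun α => ⟨(A.B.map α.1).hom A.one, α.2⟩
      map_add' := by
        intro α β
        apply Subtype.ext
        change (A.B.map (α.1 + β.1)).hom A.one = _
        rw [A.B.map_add]
        rfl
      map_smul' := by
        intro c α
        apply Subtype.ext
        change (A.B.map (c • α.1)).hom A.one = _
        rw [Functor.map_smul]
        rfl }
  refine dimE_le_of_injective φ ?_
  rw [injective_iff_map_eq_zero]
  intro α hα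
  apply Subtype.ext
  exact A.one_inj α.1 (congrArg Subtype.val hα)

/-- The vanishing of compositions. -/
theorem vanish {T : C} [ExactPairing T T] (h : IsPow Λ R T) {A : OpenAJ.{v, u, w, t, x} h.real}
    {k : ℕ} (hk : RatioTo Λ T (fun n => dimE Λ (A.ker (tp T n))) k) :
    (homIdeal h.real).Nilpotent T (k + 2) := by
  obtain ⟨-, hst⟩ := structure_thm h A.kerFun hk
  have h0 : ∀ (b : ℕ) (f : tp T 0 ⟶ tp T b), (homIdeal h.real).JPow T (k + 2) f → f = 0 := by
    intro b f hf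
    obtain ⟨c, α, f₁, hα, hf₁, rfl⟩ :=
      Pool.Agent.Run7.h184.AJ.TrivialIdeal.JPow.head (homIdeal h.real) (k + 1) hf
    obtain ⟨d, g, f₂, hg, hf₂, rfl⟩ :=
      Pool.Agent.Run7.h184.AJ.TrivialIdeal.JPow.head (homIdeal h.real) k hf₁
    have h1 := hst d b f₂ (Pool.Agent.Run7.h184.AJ.TrivialIdeal.JPow.num (homIdeal h.real) h.real k hf₂)
    have h2 : (A.B.map g).hom ((A.B.map α).hom A.one) ∈ A.ker (tp T d) := A.two α g hα hg A.one
    apply A.one_inj
    rw [A.B.map_comp, A.B.map_comp]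
    have h3 := congrArg (fun q : A.kerFun.obj (tp T d) ⟶ A.kerFun.obj (tp T b) =>
      q.hom (show A.kerFun.obj (tp T d) from
        (⟨(A.B.map g).hom ((A.B.map α).hom A.one), h2⟩ : A.ker (tp T d)))) h1
    exact congrArg (fun z : A.kerFun.obj (tp T b) => (show A.ker (tp T b) from z).1) h3
  intro a
  induction a with
  | zero => exact h0
  | succ a ih =>
    intro b f hf
    have h1 : Pool.Agent.N645.AFK1.cur Λ T (tp T a) (tp T b) f = 0 := by
      apply ih (b + 1)
      rw [Pool.Agent.N645.AFK1.cur_eq]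
      exact Pool.Agent.Run7.h184.AJ.TrivialIdeal.JPow.comp (homIdeal h.real) _ _
        (Pool.Agent.Run7.h184.AJ.TrivialIdeal.JPow.whisker (homIdeal h.real) _ hf)
    exact (LinearEquiv.map_eq_zero_iff _).1 h1

end OpenAJ


/-- **Infinitely divisible cycles on the powers of a variety.** -/
theorem inf_main {C : Type u} [Category.{v} C] [Preadditive C] [MonoidalCategory C]
    [MonoidalPreadditive C] [SymmetricCategory C] [RightRigidCategory C]
    [Linear ℚ C] [MonoidalLinear ℚ C] [IsIdempotentComplete C]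
    {K : Type w} [Field K] [IsAlgClosed K] [Algebra ℚ K] {R : SuperRealisation C K}
    {T : C} [ExactPairing T T] (h : IsPow ℚ R T) :
    (Pool.Agent.R905.IsKimuraFinite T ∨
      ∃ c : ℝ, (bt R T : ℝ) < c ∧ ∀ S : ∀ Z : C, Submodule ℚ (𝟙_ C ⟶ Z), IsInf R S →
        Fast c (fun n => deepDim S (tp T n))) ∧
    ∀ S : ∀ Z : C, Submodule ℚ (𝟙_ C ⟶ Z), IsInf R S →
      (∀ (m : ℕ) (y : End (tp T m)), R.H.map (y : tp T m ⟶ tp T m) = 0 → ¬ IsNilpotent y →
        ∀ n : ℕ, (bsum ℚ T m n : ℕ∞) ≤ deepDim S (tp T (2 * m * (n + 1)))) ∧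
      (∃ N : ℕ∞, RatioTo ℚ T (fun n => dimE ℚ (S (tp T n))) N ∧
        (N = 0 ↔ ∀ n, S (tp T n) = ⊥) ∧ (N ≠ ⊤ → Pool.Agent.R905.IsKimuraFinite T)) ∧
      Gap ℚ R T (fun m => S (tp T m) ≠ ⊥) (fun n => dimE ℚ (S (tp T n))) := by
  have hK : Pool.Agent.R905.IsKimuraFinite T ∨
      ∃ c : ℝ, (bt R T : ℝ) < c ∧ ∀ S : ∀ Z : C, Submodule ℚ (𝟙_ C ⟶ Z), IsInf R S →
        Fast c (fun n => deepDim S (tp T n)) := by
    by_cases hall : ∀ (m : ℕ) (y : End (tp T m)), R.H.map (y : tp T m ⟶ tp T m) = 0 →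
        IsNilpotent y
    · exact Or.inl (kimura_of_nil h.real h.cplus hall)
    · push Not at hall
      obtain ⟨m, y, hy, hn⟩ := hall
      exact Or.inr (expo_growth_inf h y hy hn)
  refine ⟨hK, fun S hS => ⟨fun m y hy hn n => many_inf h y hy hn hS n, ?_, ?_⟩⟩
  · obtain ⟨N, h1, h2, -⟩ := law h (famF S (fun f α => hS.stable f α))
    refine ⟨N, h1, h2.trans (forall_congr' fun n => (show Subsingleton (S (tp T n)) ↔ S (tp T n) = ⊥
      from Submodule.subsingleton_iff_eq_bot)),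
      fun hN => ?_⟩
    rcases hK with h3 | ⟨c, hc, h3⟩
    · exact h3
    · refine absurd (top_of_expo h h1 hc ?_) hN
      filter_upwards [h3 S hS] with n hn
      exact hn.trans (by exact_mod_cast deepDim_le_dimE S (tp T n))
  · intro m n hm hn
    exact Pool.Agent.Run7.h184.AJ.gap h (famF S (fun f α => hS.stable f α)) hn
      fun hs => hm ((show Subsingleton (S (tp T m)) ↔ S (tp T m) = ⊥
        from Submodule.subsingleton_iff_eq_bot).1 hs)

/-- **The Abel–Jacobi maps of the products with the powers of a variety.** -/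
theorem open_main {C : Type u} [Category.{v} C] [Preadditive C] [MonoidalCategory C]
    [MonoidalPreadditive C] [SymmetricCategory C] [RightRigidCategory C]
    [Linear ℚ C] [MonoidalLinear ℚ C] [IsIdempotentComplete C]
    {K : Type w} [Field K] [IsAlgClosed K] [Algebra ℚ K] {R : SuperRealisation C K}
    {T : C} [ExactPairing T T] (h : IsPow ℚ R T) (A : OpenAJ.{v, u, w, 0, x} h.real) :
    (∃ N : ℕ∞, RatioTo ℚ T (fun n => dimE ℚ (A.ker (tp T n))) N ∧
      (N = 0 ↔ ∀ n, A.Inj (tp T n)) ∧ (N ≠ ⊤ → Pool.Agent.R905.IsKimuraFinite T) ∧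
      ∀ k : ℕ, N = k → (homIdeal h.real).Nilpotent T (k + 2)) ∧
    (Pool.Agent.R905.IsKimuraFinite T ∨
      ∃ c : ℝ, (bt R T : ℝ) < c ∧ Fast c (fun n => dimE ℚ (A.ker (tp T n)))) ∧
    Gap ℚ R T (fun m => ¬ A.Inj (tp T m)) (fun n => dimE ℚ (A.ker (tp T n))) := by
  have hK : Pool.Agent.R905.IsKimuraFinite T ∨
      ∃ c : ℝ, (bt R T : ℝ) < c ∧ Fast c (fun n => dimE ℚ (A.ker (tp T n))) := by
    rcases (inf_main h).1 with h1 | ⟨c, hc, h1⟩
    · exact Or.inl h1
    · refine Or.inr ⟨c, hc, ?_⟩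
      filter_upwards [h1 A.pull A.isInf_pull] with n hn
      exact hn.trans (by exact_mod_cast A.deepDim_pull_le (tp T n))
  refine ⟨?_, hK, ?_⟩
  · obtain ⟨N, h1, h2, -⟩ := law h A.kerFun
    refine ⟨N, h1, h2.trans (forall_congr' fun n => (A.inj_iff _).symm), fun hN => ?_, ?_⟩
    · rcases hK with h3 | ⟨c, hc, h3⟩
      · exact h3
      · exact absurd (top_of_expo h h1 hc h3) hN
    · rintro k rfl
      exact OpenAJ.vanish h h1
  · intro m n hm hn
    exact Pool.Agent.Run7.h184.AJ.gap h A.kerFun hn fun hs => hm ((A.inj_iff _).2 hs)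

end Pool.Agent.Run7.h848.XG
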