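import Pool.Agent.Run7.h848.XG.MurreDefs
import Pool.Agent.Run7.h848.XG.Hom
import Pool.Agent.Run7.h848.XG.Open
import Pool.Agent.Run7.h848.PF.Main

/-!
# The conjectures of Murre on the powers of a variety
-/

set_option autoImplicit false
set_option linter.unusedSectionVars false

open CategoryTheory Limits MonoidalCategory Module Filter Topology
open Pool.Agent.Y112.SR Pool.Agent.Y112.KD Pool.Agent.N64.AF
open Pool.Agent.Y116.MT (tr)
open scoped ENNReal

namespace Pool.Agent.Run7.h848.XG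

universe v u w t x

variable {C : Type u} [Category.{v} C] [Preadditive C] [MonoidalCategory C]
  [MonoidalPreadditive C] [SymmetricCategory C] [RightRigidCategory C]
  {Λ : Type t} [Field Λ] [CharZero Λ] [Linear Λ C] [MonoidalLinear Λ C]
  {K : Type w} [Field K] [IsAlgClosed K] [Algebra Λ K] {R : SuperRealisation C K}

lemma dimE_le_lift {V : Type v} {W : Type w} [AddCommGroup V] [Module Λ V] [AddCommGroup W]
    [Module Λ W] (f : V →ₗ[Λ] W) (hf : Function.Injective f) : dimE Λ V ≤ dimE Λ W := by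
  have h1 := LinearMap.lift_rank_le_of_injective f hf
  have h2 := OrderHomClass.mono Cardinal.toENat h1
  rw [Cardinal.toENat_lift, Cardinal.toENat_lift] at h2
  exact h2

namespace MurreSystem

variable (M : MurreSystem.{v, u, t, x} C Λ)

lemma mem_homZero (hR : IsReal Λ R) {Y : C} {a : M.CH.obj Y} :
    a ∈ M.homZero hR Y ↔ ∃ α : 𝟙_ C ⟶ Y, R.H.map α = 0 ∧ M.zero Y α = a :=
  Iff.rfl

lemma homZero_stable (hR : IsReal Λ R) {Y Z : C} (f : Y ⟶ Z) (a : M.CH.obj Y)
    (ha : a ∈ M.homZero hR Y) : (M.CH.map f).hom a ∈ M.homZero hR Z := by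
  obtain ⟨α, hα, rfl⟩ := (M.mem_homZero hR).1 ha
  refine (M.mem_homZero hR).2 ⟨α ≫ f, ?_, M.natural f α⟩
  rw [Functor.map_comp, hα, zero_comp]

lemma bad_stable (hR : IsReal Λ R) : IsStab M.CH (fun Y => M.bad hR Y) := by
  intro Y Z f a ha
  have h1 : M.bad hR Y ≤ (M.bad hR Z).comap (M.CH.map f).hom := by
    refine sup_le (iSup₂_le fun ν hν a ha => ?_) fun a ha => ?_
    · exact Submodule.mem_sup_left
        ((le_iSup₂ (f := fun (ν : ℤ) (_ : ν < 0) => M.gr ν Z) ν hν) (M.stable ν f a ha))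
    · exact Submodule.mem_sup_right (M.homZero_stable hR f a ha)
  exact h1 ha

/-- The functor of the failures. -/
def badF (hR : IsReal Λ R) : C ⥤ ModuleCat.{x} Λ := sub M.CH (fun Y => M.bad hR Y) (M.bad_stable hR)

instance (hR : IsReal Λ R) : (M.badF hR).Additive := by unfold badF; infer_instance

instance (hR : IsReal Λ R) : (M.badF hR).Linear Λ := by unfold badF; infer_instance

lemma homZero_eq_bot (hR : IsReal Λ R) (Y : C) : M.homZero hR Y = ⊥ ↔ M.D R Y := by
  constructor
  · intro h α hα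
    have h1 : M.zero Y α ∈ M.homZero hR Y := (M.mem_homZero hR).2 ⟨α, hα, rfl⟩
    rw [h] at h1
    exact (Submodule.mem_bot _).1 h1
  · intro h
    rw [eq_bot_iff]
    intro a ha
    obtain ⟨α, hα, rfl⟩ := (M.mem_homZero hR).1 ha
    rw [h α hα]
    exact Submodule.zero_mem _

lemma zero_eq_zero {Y : C} {α : 𝟙_ C ⟶ Y} (h : M.zero Y α = 0) : α = 0 :=
  M.zero_inj Y (h.trans (map_zero _).symm)

/-- There are no bad cycles if and only if (B) and (D) hold. -/
lemma bad_eq_bot (hR : IsReal Λ R) (Y : C) : M.bad hR Y = ⊥ ↔ M.B Y ∧ M.D R Y := by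
  rw [bad, sup_eq_bot_iff, homZero_eq_bot, iSup_eq_bot]
  refine and_congr_left fun _ => forall_congr' fun ν => ?_
  rw [iSup_eq_bot]

lemma subsingleton_badF (hR : IsReal Λ R) (Y : C) :
    Subsingleton ((M.badF hR).obj Y) ↔ M.BD R Y :=
  (show Subsingleton (M.bad hR Y) ↔ M.bad hR Y = ⊥
    from Submodule.subsingleton_iff_eq_bot).trans (M.bad_eq_bot hR Y)

/-- There are no bad cycles if and only if (B) and (D) hold. -/
lemma mu_eq_zero (hR : IsReal Λ R) (Y : C) : M.mu hR Y = 0 ↔ M.BD R Y := by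
  rw [mu, dimE, Cardinal.toENat_eq_zero, rank_zero_iff]
  exact (show Subsingleton (M.bad hR Y) ↔ M.bad hR Y = ⊥
    from Submodule.subsingleton_iff_eq_bot).trans (M.bad_eq_bot hR Y)

/-- The homologically trivial morphisms from the unit object are bad cycles. -/
lemma dim_le (hR : IsReal Λ R) (Y : C) :
    dimE Λ (prodCyc Λ R 1 Y) ≤ dimE Λ (M.bad hR Y) := by
  let φ : prodCyc Λ R 1 Y →ₗ[Λ] M.bad hR Y :=
    { toFun := fun α => ⟨M.zero Y α.1, Submodule.mem_sup_right
        ((M.mem_homZero hR).2 ⟨α.1, (mem_prodCyc_one hR α.1).1 α.2, rfl⟩)⟩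
      map_add' := by
        intro α β
        exact Subtype.ext (map_add (M.zero Y) α.1 β.1)
      map_smul' := by
        intro c α
        exact Subtype.ext (map_smul (M.zero Y) c α.1) }
  refine dimE_le_lift φ ?_
  rw [injective_iff_map_eq_zero]
  intro α hα
  apply Subtype.ext
  exact M.zero_eq_zero (congrArg Subtype.val hα)

/-- The action of compositions of homologically trivial morphisms on the bad cycles. -/
theorem act_zero {T : C} [ExactPairing T T] (h : IsPow Λ R T) {k : ℕ}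
    (hk : RatioTo Λ T (fun n => dimE Λ (M.bad h.real (tp T n))) k) (a b : ℕ)
    (f : tp T a ⟶ tp T b) (hf : (homIdeal h.real).JPow T k f) (z : M.CH.obj (tp T a))
    (hz : z ∈ M.bad h.real (tp T a)) : (M.CH.map f).hom z = 0 := by
  obtain ⟨-, hst⟩ := structure_thm h (M.badF h.real) hk
  have h1 := hst a b f (Pool.Agent.Run7.h184.AJ.TrivialIdeal.JPow.num (homIdeal h.real) h.real k hf)
  have h3 := congrArg (fun q : (M.badF h.real).obj (tp T a) ⟶ (M.badF h.real).obj (tp T b) =>
      q.hom (show (M.badF h.real).obj (tp T a) from (⟨z, hz⟩ : M.bad h.real (tp T a)))) h1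
  exact congrArg (fun z : (M.badF h.real).obj (tp T b) =>
    (show M.bad h.real (tp T b) from z).1) h3

/-- The vanishing of compositions. -/
theorem vanish {T : C} [ExactPairing T T] (h : IsPow Λ R T) {k : ℕ}
    (hk : RatioTo Λ T (fun n => dimE Λ (M.bad h.real (tp T n))) k) :
    (homIdeal h.real).Nilpotent T (k + 1) := by
  have h0 : ∀ (b : ℕ) (f : tp T 0 ⟶ tp T b), (homIdeal h.real).JPow T (k + 1) f → f = 0 := by
    intro b f hf
    obtain ⟨c, α, f₁, hα, hf₁, rfl⟩ :=
      Pool.Agent.Run7.h184.AJ.TrivialIdeal.JPow.head (homIdeal h.real) k hf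
    have h2 : M.zero _ α ∈ M.bad h.real (tp T c) :=
      Submodule.mem_sup_right ((M.mem_homZero h.real).2 ⟨α, hα, rfl⟩)
    have h3 := M.act_zero h hk c b f₁ hf₁ _ h2
    rw [← M.natural] at h3
    exact M.zero_eq_zero h3
  intro a
  induction a with
  | zero => exact h0
  | succ a ih =>
    intro b f hf
    have h1 : Pool.Agent.N645.AFK1.cur Λ T (tp T a) (tp T b) f = 0 := by
      apply ih (b + 1)
      rw [Pool.Agent.N645.AFK1.cur_eq]
      exact Pool.Agent.Run7.h184.AJ.TrivialIdeal.JPow.comp (homIdeal h.real) _ _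
        (Pool.Agent.Run7.h184.AJ.TrivialIdeal.JPow.whisker (homIdeal h.real) _ hf)
    exact (LinearEquiv.map_eq_zero_iff _).1 h1

/-- There are no bad cycles on the point. -/
lemma bad_unit (hR : IsReal Λ R) : Subsingleton ((M.badF hR).obj (𝟙_ C)) := by
  rw [M.subsingleton_badF hR]
  refine ⟨fun ν hν => M.unit ν hν.ne, fun a ha => ?_⟩
  have h1 := (numTriv_unit_iff hR _).1 (numTriv_of_map hR ha) (𝟙 _)
  rw [Category.comp_id] at h1
  rw [h1, map_zero]

lemma exists_vec (hR : IsReal Λ R) {Y : C} {φ : Y ⟶ Y} {a : Λ} (h : M.BadEig hR φ a) :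
    ∃ v : (M.badF hR).obj Y, v ≠ 0 ∧ ((M.badF hR).map φ).hom v = a • v := by
  obtain ⟨v, hv, hv0, hφ⟩ := h
  let v' : (M.badF hR).obj Y := (⟨v, hv⟩ : M.bad hR Y)
  exact ⟨v', fun h0 => hv0 (congrArg Subtype.val h0), Subtype.ext hφ⟩

/-- Failures in algebraic indices. -/
theorem grows (hR : IsReal Λ R) (Y : C) (φ : Y ⟶ Y) (a : Λ) (h : M.BadEig hR φ a)
    (ht : AlgEig Λ R φ a) (n : ℕ) :
    (((n + 1) * numRank Λ (tp Y n) : ℕ) : ℕ∞) ≤ M.mu hR (tp Y (n + 1)) := by
  obtain ⟨v, hv0, hv⟩ := M.exists_vec hR h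
  obtain ⟨e, he, he'⟩ := Pool.Agent.Run7.h848.PF.exists_kill hR (M.badF hR) (M.bad_unit hR) φ a ht
    v hv
  change _ ≤ dimE Λ ((M.badF hR).obj (tp Y (n + 1)))
  by_cases hfin : Module.Finite Λ ((M.badF hR).obj (tp Y (n + 1)))
  · rw [dimE_eq]
    exact_mod_cast phantom hR (M.badF hR) hv0 he he' n
  · rw [dimE_top hfin]
    exact le_top

end MurreSystem

/-- **The failures of the conjectures of Murre on the powers of a variety.** -/
theorem murre_main {C : Type u} [Category.{v} C] [Preadditive C] [MonoidalCategory C]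
    [MonoidalPreadditive C] [SymmetricCategory C] [RightRigidCategory C]
    [Linear ℚ C] [MonoidalLinear ℚ C] [IsIdempotentComplete C]
    {K : Type w} [Field K] [IsAlgClosed K] [Algebra ℚ K] {R : SuperRealisation C K}
    {T : C} [ExactPairing T T] (h : IsPow ℚ R T) (M : MurreSystem.{v, u, 0, x} C ℚ) :
    M.Law h.real T ∧
    Gap ℚ R T (fun m => ¬ M.BD R (tp T m)) (fun n => M.mu h.real (tp T n)) ∧
    KimuraOrFast R T ∧ M.AlgebraicIndices h.real := by
  obtain ⟨-, -, hK, -, -⟩ := hom_main h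
  refine ⟨?_, ?_, hK, fun Y φ a hb ht n => M.grows h.real Y φ a hb ht n⟩
  · obtain ⟨N, h1, h2, h4⟩ := law h (M.badF h.real)
    refine ⟨N, h1, h2.trans (forall_congr' fun n => M.subsingleton_badF h.real _),
      fun hN => ?_, ?_, fun m φ a hb ht => ?_⟩
    · rcases hK with h3 | ⟨c, hc, h3⟩
      · exact h3
      · refine absurd (top_of_expo h h1 hc ?_) hN
        filter_upwards [h3 1] with n hn
        refine hn.trans ?_
        exact_mod_cast (deepDim_le_dimE (fun Z => prodCyc ℚ R 1 Z) (tp T n)).trans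
          (M.dim_le h.real (tp T n))
    · rintro k rfl
      exact ⟨M.vanish h h1, fun a b f hf z hz => M.act_zero h h1 a b f hf z hz⟩
    · by_contra hN
      obtain ⟨v, hv0, hv⟩ := M.exists_vec h.real hb
      exact hv0 (Pool.Agent.Run7.h848.PF.eig_zero h.real (M.badF h.real) (M.bad_unit h.real)
        ((h4 hN).1 m).2.2 φ a ht v hv)
  · intro m n hm hn
    exact Pool.Agent.Run7.h184.AJ.gap h (M.badF h.real) hn
      fun hs => hm ((M.subsingleton_badF h.real _).1 hs)

end Pool.Agent.Run7.h848.XG
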