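import Pool.Agent.Run7.h848.XG.OpenDefs

/-!
# The conjectures of Murre on the powers of a variety: definitions
-/

set_option autoImplicit false
set_option linter.unusedSectionVars false

open CategoryTheory Limits MonoidalCategory Module Filter Topology
open Pool.Agent.Y112.SR Pool.Agent.Y112.KD Pool.Agent.N64.AF
open Pool.Agent.Y116.MT (tr)
open scoped ENNReal

namespace Pool.Agent.Run7.h848.XG

universe v u w t x

variable {C : Type u} [Category.{v} C] [Preadditive C] [MonoidalCategory C]
  [MonoidalPreadditive C] [SymmetricCategory C] [RightRigidCategory C]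
  {Λ : Type t} [Field Λ] [CharZero Λ] [Linear Λ C] [MonoidalLinear Λ C]
  {K : Type w} [Field K] [IsAlgClosed K] [Algebra Λ K] {R : SuperRealisation C K}

/-- The space of the morphisms `c : 𝟙 ⟶ Y` with `c ≫ φ = a • c`. -/
def eigSub {Y : C} (φ : Y ⟶ Y) (a : Λ) : Submodule Λ (𝟙_ C ⟶ Y) :=
  LinearMap.ker (Linear.rightComp Λ (𝟙_ C) φ - a • LinearMap.id)

/-- The generalized eigenspace of `φ` for the number `a` on the realisation of `Y` is spanned by
algebraic classes: its dimension is (at most) the rank, modulo numerical equivalence, of the group of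
the cycles with this eigenvalue. -/
def AlgEig (Λ : Type t) [Field Λ] [Linear Λ C] [MonoidalLinear Λ C] {K : Type w} [Field K]
    [Algebra Λ K] (R : SuperRealisation C K) {Y : C} (φ : Y ⟶ Y) (a : Λ) : Prop :=
  finrank K (Module.End.maxGenEigenspace (R.H.map φ).hom (algebraMap Λ K a)) ≤
    finrank Λ ((eigSub φ a).map (numIdeal Λ (𝟙_ C) Y).mkQ)

/-- The Chow groups of motives with a Chow–Künneth decomposition. In the intended use the objects of
`C` are the Chow motives `Y` with a fixed Chow–Künneth decomposition `Y = ⊕ Y_i`, and the morphisms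
from `Y` to `Z` are the correspondences of all degrees `r` which map `Y_i` to `Z_{i + 2r}`, for all `i`
(the decomposition of a tensor product is the tensor product of the decompositions). `CH Y` is the
sum of the Chow groups of `Y` and `gr ν Y` is the sum of the groups `CH_l(Y_{2l+ν})` over all `l`. The
group of the morphisms from the unit object to `Y` is `gr 0 Y` (this is `zero`), and the Chow groups
of the unit object are concentrated in index `0`. -/
structure MurreSystem (C : Type u) [Category.{v} C] [Preadditive C] [MonoidalCategory C]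
    (Λ : Type t) [Field Λ] [Linear Λ C] where
  /-- the Chow groups -/
  CH : C ⥤ ModuleCat.{x} Λ
  [additive : CH.Additive]
  [linear : CH.Linear Λ]
  /-- the part of index `ν` -/
  gr : ℤ → ∀ Y : C, Submodule Λ (CH.obj Y)
  stable : ∀ (ν : ℤ) {Y Z : C} (f : Y ⟶ Z) (a : CH.obj Y), a ∈ gr ν Y → (CH.map f).hom a ∈ gr ν Z
  unit : ∀ ν : ℤ, ν ≠ 0 → gr ν (𝟙_ C) = ⊥
  /-- the part of index `0` -/
  zero : ∀ Y : C, (𝟙_ C ⟶ Y) →ₗ[Λ] CH.obj Y
  zero_inj : ∀ Y : C, Function.Injective (zero Y)
  zero_range : ∀ Y : C, LinearMap.range (zero Y) = gr 0 Y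
  natural : ∀ {Y Z : C} (f : Y ⟶ Z) (α : 𝟙_ C ⟶ Y), zero Z (α ≫ f) = (CH.map f).hom (zero Y α)

attribute [instance] MurreSystem.additive MurreSystem.linear

namespace MurreSystem

variable (M : MurreSystem.{v, u, t, x} C Λ)

/-- (B): the groups `CH_l(Y_i)` with `i < 2l` are zero. -/
def B (Y : C) : Prop := ∀ ν : ℤ, ν < 0 → M.gr ν Y = ⊥

/-- (D): the homologically trivial part of the groups `CH_l(Y_{2l})` is zero. -/
def D (R : SuperRealisation C K) (Y : C) : Prop :=
  ∀ α : 𝟙_ C ⟶ Y, R.H.map α = 0 → M.zero Y α = 0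

/-- The homologically trivial part of the sum of the groups `CH_l(Y_{2l})`. -/
def homZero (hR : IsReal Λ R) (Y : C) : Submodule Λ (M.CH.obj Y) :=
  (homSub hR (𝟙_ C) Y).map (M.zero Y)

/-- The cycles which should not exist by (B) and (D): the sum of all `CH_l(Y_i)` with `i < 2l` and
of the homologically trivial parts of the groups `CH_l(Y_{2l})`. -/
def bad (hR : IsReal Λ R) (Y : C) : Submodule Λ (M.CH.obj Y) :=
  (⨆ (ν : ℤ) (_ : ν < 0), M.gr ν Y) ⊔ M.homZero hR Y

/-- (B) and (D). -/
def BD (R : SuperRealisation C K) (Y : C) : Prop := M.B Y ∧ M.D R Y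

/-- The dimension, maybe infinite, of the space of the bad cycles. -/
noncomputable def mu (hR : IsReal Λ R) (Y : C) : ℕ∞ := dimE Λ (M.bad hR Y)

/-- There is a bad cycle `v ≠ 0` on `Y` with `φ_* v = a v`. -/
def BadEig (hR : IsReal Λ R) {Y : C} (φ : Y ⟶ Y) (a : Λ) : Prop :=
  ∃ v ∈ M.bad hR Y, v ≠ 0 ∧ (M.CH.map φ).hom v = a • v

/-- Compositions of `k` homologically trivial morphisms between powers of `T` act as zero on the bad
cycles, and those of `k + 1` are zero. -/
def ActZero (hR : IsReal Λ R) (T : C) (k : ℕ) : Prop :=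
  (homIdeal hR).Nilpotent T (k + 1) ∧
    ∀ (a b : ℕ) (f : tp T a ⟶ tp T b), (homIdeal hR).JPow T k f →
      ∀ z ∈ M.bad hR (tp T a), (M.CH.map f).hom z = 0

/-- The law for the failures of (B) and (D) on the powers of `T`: the numbers `dim bad (T ^ n)` divided
by the ranks modulo numerical equivalence converge to `N` in `{0, 1, 2, …, ∞}`, with `N = 0` if and
only if (B) and (D) hold for all powers; if `N` is finite then `T` is finite-dimensional in the sense
of Kimura; if `N = k` then `ActZero`; and `N = ∞` if for one power `T ^ m` there is a bad cycle in an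
eigenspace of an endomorphism for which the eigenspace on the cohomology is spanned by algebraic
classes. -/
def Law [Linear ℚ C] [MonoidalLinear ℚ C] [Algebra ℚ K] {R : SuperRealisation C K}
    (M : MurreSystem.{v, u, 0, x} C ℚ) (hR : IsReal ℚ R) (T : C) : Prop :=
  ∃ N : ℕ∞, RatioTo ℚ T (fun n => M.mu hR (tp T n)) N ∧
    (N = 0 ↔ ∀ n, M.BD R (tp T n)) ∧
    (N ≠ ⊤ → Pool.Agent.R905.IsKimuraFinite T) ∧
    (∀ k : ℕ, N = k → M.ActZero hR T k) ∧
    ∀ (m : ℕ) (φ : tp T m ⟶ tp T m) (a : ℚ), M.BadEig hR φ a → AlgEig ℚ R φ a → N = ⊤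

/-- If there is a bad cycle `v ≠ 0` on `Y` in the eigenspace of an endomorphism `φ` for a number `a`
such that the eigenspace on the cohomology is spanned by algebraic classes (for instance: `φ` the
projector onto `Y_i`, `a = 1`, and `H_i(Y)` is zero or spanned by algebraic classes) then
`dim bad (Y ^ (n + 1)) ≥ (n + 1) ρ(Y ^ n)` for all `n`. -/
def AlgebraicIndices (hR : IsReal Λ R) : Prop :=
  ∀ (Y : C) (φ : Y ⟶ Y) (a : Λ), M.BadEig hR φ a → AlgEig Λ R φ a → ∀ n : ℕ,
    (((n + 1) * numRank Λ (tp Y n) : ℕ) : ℕ∞) ≤ M.mu hR (tp Y (n + 1))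

end MurreSystem

/-- `T` is finite-dimensional in the sense of Kimura or (D) fails exponentially often: there is a
real number `c > b` such that for each `k` the compositions of `k` homologically trivial morphisms
generate, modulo smash-nilpotence, a space of morphisms from the unit object to `T ^ n` of dimension
at least `c ^ n`, for all large `n`. -/
def KimuraOrFast [Linear ℚ C] [MonoidalLinear ℚ C] (R : SuperRealisation C K) (T : C) : Prop :=
  Pool.Agent.R905.IsKimuraFinite T ∨ ∃ c : ℝ, (bt R T : ℝ) < c ∧ ∀ k : ℕ,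
    Fast c (fun n => deepDim (fun Z => Submodule.span ℚ {α : 𝟙_ C ⟶ Z | HomPow R k α}) (tp T n))

end Pool.Agent.Run7.h848.XG
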