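import Pool.Agent.Run7.h848.XG.UniformDual
import Pool.Agent.Run7.h848.XG.Hom

/-!
# Homologically trivial endomorphisms of all powers
-/

set_option autoImplicit false
set_option linter.unusedSectionVars false

open CategoryTheory Limits MonoidalCategory Module Filter Topology
open Pool.Agent.Y112.SR Pool.Agent.Y112.KD Pool.Agent.N64.AF Pool.Agent.N413.AFW
open Pool.Agent.Y116.MT (tr)
open scoped ENNReal

namespace Pool.Agent.Run7.h848.XG

universe v u w t x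

section Gen

variable {C : Type u} [Category.{v} C] [Preadditive C] [MonoidalCategory C]
  [MonoidalPreadditive C] [SymmetricCategory C] [RightRigidCategory C]
  {Λ : Type t} [Field Λ] [CharZero Λ] [Linear Λ C] [MonoidalLinear Λ C]
  {K : Type w} [Field K] [IsAlgClosed K] [Algebra Λ K] {R : SuperRealisation C K}

lemma map_whiskerRight_zero (X : C) {Y Z : C} {f : Y ⟶ Z} (h : R.H.map f = 0) :
    R.H.map (f ▷ X) = 0 := by
  have h1 : f ▷ X = (β_ Y X).hom ≫ X ◁ f ≫ (β_ X Z).hom := by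
    rw [← BraidedCategory.braiding_naturality_left_assoc, SymmetricCategory.symmetry,
      Category.comp_id]
  rw [h1, Functor.map_comp, Functor.map_comp, map_whiskerLeft_zero X h, zero_comp, comp_zero]

/-- The endomorphism `y` on the first half of `(T ⊗ Tᘁ) ^ n = T ^ n ⊗ (T ^ n)ᘁ`. -/
noncomputable def hat (T : C) (n : ℕ) (y : tp T n ⟶ tp T n) :
    tp (T ⊗ Tᘁ) n ⟶ tp (T ⊗ Tᘁ) n :=
  (isoTp T Tᘁ n).hom ≫ y ▷ dp Tᘁ n ≫ (isoTp T Tᘁ n).inv

lemma hat_comp (T : C) (n : ℕ) (y z : tp T n ⟶ tp T n) :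
    hat T n (y ≫ z) = hat T n y ≫ hat T n z := by
  unfold hat
  simp

lemma hat_zero_of (T : C) (n : ℕ) {y : tp T n ⟶ tp T n} (hy : R.H.map y = 0) :
    R.H.map (hat T n y) = 0 := by
  unfold hat
  rw [Functor.map_comp, Functor.map_comp, map_whiskerRight_zero _ hy, zero_comp, comp_zero]

/-- The endomorphisms of `T ^ n` as cycles. -/
theorem exists_equiv_hom (T : C) (n : ℕ) :
    ∃ ψ : (tp T n ⟶ tp T n) ≃ₗ[Λ] (𝟙_ C ⟶ tp (T ⊗ Tᘁ) n),
      (∀ y, R.H.map y = 0 ↔ R.H.map (ψ y) = 0) ∧ ∀ y z, ψ (y ≫ z) = ψ y ≫ hat T n z := by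
  let _ := pairTp T Tᘁ n
  let Φ : (𝟙_ C ⊗ tp T n ⟶ tp T n) ≃ₗ[Λ] (𝟙_ C ⟶ tp T n ⊗ dp Tᘁ n) :=
    { tensorRightHomEquiv (𝟙_ C) (tp T n) (dp Tᘁ n) (tp T n) with
      map_add' := fun a b => by
        simp only [tensorRightHomEquiv, Equiv.toFun_as_coe, Equiv.coe_fn_mk,
          MonoidalPreadditive.add_whiskerRight, Preadditive.comp_add]
      map_smul' := fun a b => by
        simp only [tensorRightHomEquiv, Equiv.toFun_as_coe, Equiv.coe_fn_mk,
          MonoidalLinear.smul_whiskerRight, Linear.comp_smul, RingHom.id_apply] }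
  have hΦ : ∀ f, Φ f = ((ρ_ _).inv ≫ (𝟙_ C ◁ η_ (tp T n) (dp Tᘁ n)) ≫ (α_ _ _ _).inv) ≫
      f ▷ dp Tᘁ n := by
    intro f
    change (tensorRightHomEquiv (𝟙_ C) (tp T n) (dp Tᘁ n) (tp T n)) f = _
    simp only [tensorRightHomEquiv, Equiv.coe_fn_mk, Category.assoc]
  have hΦ' : ∀ g, Φ.symm g = (g ▷ tp T n) ≫ ((α_ _ _ _).hom ≫ (tp T n ◁ ε_ (tp T n) (dp Tᘁ n)) ≫
      (ρ_ _).hom) := by
    intro g
    change (tensorRightHomEquiv (𝟙_ C) (tp T n) (dp Tᘁ n) (tp T n)).symm g = _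
    simp only [tensorRightHomEquiv, Equiv.coe_fn_symm_mk]
  have h1 : ∀ f, R.H.map f = 0 ↔ R.H.map (Φ f) = 0 := by
    intro f
    constructor
    · intro hf
      rw [hΦ, Functor.map_comp, map_whiskerRight_zero _ hf, comp_zero]
    · intro hf
      have h2 : f = Φ.symm (Φ f) := (Φ.symm_apply_apply f).symm
      rw [h2, hΦ', Functor.map_comp, map_whiskerRight_zero _ hf, zero_comp]
  let ψ : (tp T n ⟶ tp T n) ≃ₗ[Λ] (𝟙_ C ⟶ tp (T ⊗ Tᘁ) n) :=
    (Linear.homCongr Λ (λ_ (tp T n)).symm (Iso.refl (tp T n))).trans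
      (Φ.trans (Linear.homCongr Λ (Iso.refl (𝟙_ C)) (isoTp T Tᘁ n).symm))
  have hψ : ∀ y, ψ y = Φ ((λ_ (tp T n)).hom ≫ y) ≫ (isoTp T Tᘁ n).inv := by
    intro y
    change (Linear.homCongr Λ (Iso.refl (𝟙_ C)) (isoTp T Tᘁ n).symm)
      (Φ ((Linear.homCongr Λ (λ_ (tp T n)).symm (Iso.refl (tp T n))) y)) = _
    simp [Linear.homCongr_apply]
  refine ⟨ψ, fun y => ?_, fun y z => ?_⟩
  · rw [hψ]
    constructor
    · intro hy
      rw [Functor.map_comp, (h1 _).1 (by rw [Functor.map_comp, hy, comp_zero]), zero_comp]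
    · intro hy
      have h3 : R.H.map (Φ ((λ_ (tp T n)).hom ≫ y)) = 0 := by
        have h4 : Φ ((λ_ (tp T n)).hom ≫ y) =
            (Φ ((λ_ (tp T n)).hom ≫ y) ≫ (isoTp T Tᘁ n).inv) ≫ (isoTp T Tᘁ n).hom := by
          rw [Category.assoc, Iso.inv_hom_id, Category.comp_id]
        rw [h4, Functor.map_comp, hy, zero_comp]
      have h5 : y = (λ_ (tp T n)).inv ≫ ((λ_ (tp T n)).hom ≫ y) := by
        rw [Iso.inv_hom_id_assoc]
      rw [h5, Functor.map_comp, (h1 _).2 h3, comp_zero]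
  · rw [hψ, hψ, hΦ, hΦ]
    unfold hat
    simp

variable (Λ) in
/-- The space of the null endomorphisms of `T ^ n` (trivial realisation), its dimension. -/
noncomputable def nullDim (hR : IsReal Λ R) (T : C) (n : ℕ) : ℕ∞ :=
  dimE Λ (homSub hR (tp T n) (tp T n))

lemma homSub_stable (hR : IsReal Λ R) {Y Z : C} (f : Y ⟶ Z) (α : 𝟙_ C ⟶ Y)
    (hα : α ∈ homSub hR (𝟙_ C) Y) : α ≫ f ∈ homSub hR (𝟙_ C) Z := by
  change R.H.map (α ≫ f) = 0
  rw [Functor.map_comp, show R.H.map α = 0 from hα, zero_comp]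

lemma nullDim_eq (hR : IsReal Λ R) (T : C) (n : ℕ) :
    nullDim Λ hR T n = dimE Λ (homSub hR (𝟙_ C) (tp (T ⊗ Tᘁ) n)) := by
  obtain ⟨ψ, h1, -⟩ := exists_equiv_hom (Λ := Λ) (R := R) T n
  have h2 : (homSub hR (tp T n) (tp T n)).map (ψ : (tp T n ⟶ tp T n) →ₗ[Λ] _) =
      homSub hR (𝟙_ C) (tp (T ⊗ Tᘁ) n) := by
    ext α
    constructor
    · rintro ⟨y, hy, rfl⟩
      exact (h1 y).1 hy
    · intro hα
      refine ⟨ψ.symm α, (h1 _).2 ?_, ψ.apply_symm_apply α⟩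
      rw [ψ.apply_symm_apply]
      exact hα
  have e := LinearEquiv.ofSubmodules ψ _ _ h2
  exact le_antisymm (dimE_le_of_injective e.toLinearMap e.injective)
    (dimE_le_of_injective e.symm.toLinearMap e.symm.injective)

lemma sub_null_iff (hR : IsReal Λ R) (T : C) (n : ℕ) :
    Subsingleton (homSub hR (𝟙_ C) (tp (T ⊗ Tᘁ) n)) ↔
      ∀ y : tp T n ⟶ tp T n, R.H.map y = 0 → y = 0 := by
  obtain ⟨ψ, h1, -⟩ := exists_equiv_hom (Λ := Λ) (R := R) T n
  constructor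
  · intro hs y hy
    have h2 : (⟨ψ y, (h1 y).1 hy⟩ : homSub hR (𝟙_ C) (tp (T ⊗ Tᘁ) n)) = 0 :=
      Subsingleton.elim _ _
    have h3 : ψ y = 0 := congrArg Subtype.val h2
    exact ψ.map_eq_zero_iff.1 h3
  · intro hy
    refine ⟨fun a b => ?_⟩
    have h2 : ∀ a : homSub hR (𝟙_ C) (tp (T ⊗ Tᘁ) n), a.1 = 0 := by
      intro a
      have h3 := hy (ψ.symm a.1) ((h1 _).2 (by rw [ψ.apply_symm_apply]; exact a.2))
      exact ψ.symm.map_eq_zero_iff.1 h3
    exact Subtype.ext ((h2 a).trans (h2 b).symm)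

lemma numPow_hat (hR : IsReal Λ R) (T : C) (n : ℕ) : ∀ l : List (End (tp T n)),
    (∀ y ∈ l, R.H.map (y : tp T n ⟶ tp T n) = 0) →
      NumPow (T ⊗ Tᘁ) l.length (hat T n (l.prod : End (tp T n))) := by
  intro l
  induction l with
  | nil => intro _; trivial
  | cons y l ih =>
    intro hl
    refine ⟨n, hat T n (l.prod : End (tp T n)), hat T n y,
      ih fun z hz => hl z (List.mem_cons_of_mem _ hz), ?_, ?_⟩
    · exact numTriv_of_map hR (hat_zero_of T n (hl y List.mem_cons_self))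
    · rw [← hat_comp]
      rw [List.prod_cons, End.mul_def]

/-- **The law and the gap for the null endomorphisms of the powers.** -/
theorem null_law (hR : IsReal Λ R) {T : C} (hT : R.CPlus T) (hb : 0 < bt R T) :
    (∃ N : ℕ∞, Tendsto (fun n => ((nullDim Λ hR T n : ℕ∞) : ℝ≥0∞) /
        homRank Λ (tp T n) (tp T n)) atTop (𝓝 (N : ℝ≥0∞)) ∧
      (N = 0 ↔ ∀ (n : ℕ) (y : tp T n ⟶ tp T n), R.H.map y = 0 → y = 0) ∧
      ∀ (n : ℕ) (l : List (End (tp T n))), (∀ y ∈ l, R.H.map (y : tp T n ⟶ tp T n) = 0) →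
        (l.length : ℕ∞) = N + 1 → l.prod = 0) ∧
    ∀ m n : ℕ, (∃ y : tp T m ⟶ tp T m, R.H.map y = 0 ∧ y ≠ 0) →
      128 * (m + 1) ^ 2 * (bt R T) ^ (2 * (2 * m + 6)) ≤ 2 * n →
      (homRank Λ (tp T (2 * n)) (tp T (2 * n)) : ℕ∞) ≤ 2 * nullDim Λ hR T (2 * n) ∧
      ((bt R T ^ (4 * n) : ℕ) : ℕ∞) ≤ (2 * (n + 1) ^ (bt R T ^ 4) : ℕ) * nullDim Λ hR T (2 * n) := by
  obtain ⟨inst, hS⟩ := isPow_tensor_dual hR hT hb
  have hnr : ∀ k, numRank Λ (tp (T ⊗ Tᘁ) k) = homRank Λ (tp T k) (tp T k) := by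
    intro k
    rw [numRank_tensor_dual hR, homRank_eq]
  have hbt : bt R (T ⊗ Tᘁ) = bt R T ^ 2 := by
    have h1 := bt_dual R T
    rw [bt_tensor, h1, sq]
  refine ⟨?_, ?_⟩
  · obtain ⟨N, h1, h2, h3⟩ := law hS (famF (fun Z => homSub hR (𝟙_ C) Z)
      (fun f α hα => homSub_stable hR f α hα))
    refine ⟨N, ?_, ?_, ?_⟩
    · simp only [nullDim_eq, ← hnr]
      exact h1
    · exact h2.trans (forall_congr' fun n => sub_null_iff hR T n)
    · intro n l hl hlen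
      have hN : N ≠ ⊤ := by
        rintro rfl
        rw [top_add] at hlen
        exact (ENat.natCast_ne_top _) hlen
      obtain ⟨N', rfl⟩ := ENat.ne_top_iff_exists.1 hN
      have hlen' : l.length = N' + 1 := by exact_mod_cast hlen
      obtain ⟨ψ, hψ1, hψ2⟩ := exists_equiv_hom (Λ := Λ) (R := R) T n
      obtain ⟨l', y, rfl⟩ : ∃ l' y, l = l' ++ [y] := by
        have hne : l ≠ [] := by
          rintro rfl
          simp at hlen'
        exact ⟨l.dropLast, l.getLast hne, (List.dropLast_append_getLast hne).symm⟩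
      have hlen2 : l'.length = N' := by simpa using hlen'
      have h4 := (structure_thm hS (famF (fun Z => homSub hR (𝟙_ C) Z)
        (fun f α hα => homSub_stable hR f α hα)) h1).2 n n (hat T n (l'.prod : End (tp T n)))
        (hlen2 ▸ numPow_hat hR T n l' fun z hz => hl z (List.mem_append_left _ hz))
      have hy : R.H.map (y : tp T n ⟶ tp T n) = 0 := hl y (by simp)
      have h5 : ψ y ≫ hat T n (l'.prod : End (tp T n)) = 0 := by
        have h6 : (((famF (fun Z => homSub hR (𝟙_ C) Z)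
            (fun f α hα => homSub_stable hR f α hα)).map
              (hat T n (l'.prod : End (tp T n)))).hom
              (⟨ψ y, (hψ1 y).1 hy⟩ : homSub hR (𝟙_ C) (tp (T ⊗ Tᘁ) n)) :
              homSub hR (𝟙_ C) (tp (T ⊗ Tᘁ) n)) = 0 := by
          rw [h4]
          rfl
        exact congrArg Subtype.val h6
      rw [← hψ2] at h5
      have h6 : (y : tp T n ⟶ tp T n) ≫ (l'.prod : End (tp T n)) = 0 :=
        ψ.map_eq_zero_iff.1 h5
      rw [List.prod_append, List.prod_singleton, End.mul_def]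
      exact h6
  · rintro m n ⟨y, hy, hy0⟩ hn
    have h1 := Pool.Agent.Run7.h184.AJ.gap hS (m := m) (n := n)
      (famF (fun Z => homSub hR (𝟙_ C) Z) (fun f α hα => homSub_stable hR f α hα))
      (by rw [hbt, ← pow_mul]; exact hn)
      (fun hs => hy0 ((sub_null_iff hR T m).1 hs y hy))
    obtain ⟨h2, h3⟩ := h1
    rw [nullDim_eq, ← hnr]
    refine ⟨h2, ?_⟩
    rw [hbt] at h3
    have e1 : (bt R T ^ 2) ^ (2 * n) = bt R T ^ (4 * n) := by
      rw [← pow_mul]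
      congr 1
      ring
    have e2 : (bt R T ^ 2) ^ 2 = bt R T ^ 4 := by
      rw [← pow_mul]
    rw [e1, e2] at h3
    exact h3

end Gen

end Pool.Agent.Run7.h848.XG
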