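import Pool.Agent.Run7.h848.XG.Null

/-!
# Null endomorphisms of one object
-/

set_option autoImplicit false
set_option linter.unusedSectionVars false

open CategoryTheory Limits MonoidalCategory Module Filter Topology
open Pool.Agent.Y112.SR Pool.Agent.Y112.KD Pool.Agent.N64.AF Pool.Agent.N413.AFW
open scoped ENNReal

namespace Pool.Agent.Run7.h848.XG

universe v u w t x

lemma num_bound_one (b : ℕ) (hb : 1 ≤ b) :
    (4 * b ^ 6 + 1) ^ (b ^ 2) * (b ^ 2) ^ (4 * b ^ 6) < (b ^ 2 + 1) ^ (4 * b ^ 6) := by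
  obtain ⟨B, hB⟩ : ∃ B, B = b ^ 2 := ⟨_, rfl⟩
  have h6 : b ^ 6 = B ^ 3 := by rw [hB, ← pow_mul]
  rw [h6, ← hB]
  have hB1 : 1 ≤ B := by
    rw [hB]
    exact Nat.one_le_pow _ _ hb
  have h0 : 4 * B ^ 3 + 1 < 2 ^ (4 * B) := by
    have h1 : B + 1 ≤ 2 ^ B := Nat.lt_two_pow_self
    have h2 : (B + 1) ^ 4 ≤ (2 ^ B) ^ 4 := Nat.pow_le_pow_left h1 4
    have h3 : 4 * B ^ 3 + 1 < (B + 1) ^ 4 := by
      have h4 : (B + 1) ^ 4 = B ^ 4 + 4 * B ^ 3 + 6 * B ^ 2 + 4 * B + 1 := by ring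
      rw [h4]
      have h5 : 0 < B ^ 4 := by positivity
      omega
    have h5 : (2 ^ B) ^ 4 = 2 ^ (4 * B) := by rw [← pow_mul, mul_comm]
    omega
  have h1 : 2 ^ (4 * B ^ 2) * B ^ (4 * B ^ 3) ≤ (B + 1) ^ (4 * B ^ 3) := by
    have h2 := Nat.pow_le_pow_left (two_mul_pow_le B hB1) (4 * B ^ 2)
    rw [mul_pow, ← pow_mul, ← pow_mul] at h2
    have h3 : B * (4 * B ^ 2) = 4 * B ^ 3 := by ring
    rwa [h3] at h2
  have h2 : (4 * B ^ 3 + 1) ^ B < 2 ^ (4 * B ^ 2) := by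
    have h3 := Nat.pow_lt_pow_left h0 (show B ≠ 0 by omega)
    have h4 : (2 ^ (4 * B)) ^ B = 2 ^ (4 * B ^ 2) := by
      rw [← pow_mul]
      congr 1
      ring
    rwa [h4] at h3
  exact lt_of_lt_of_le (Nat.mul_lt_mul_of_pos_right h2 (by positivity)) h1

section Gen

variable {C : Type u} [Category.{v} C] [Preadditive C] [MonoidalCategory C]
  [MonoidalPreadditive C] [SymmetricCategory C] [RightRigidCategory C]
  {Λ : Type t} [Field Λ] [CharZero Λ] [Linear Λ C] [MonoidalLinear Λ C]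
  {K : Type w} [Field K] [IsAlgClosed K] [Algebra Λ K] {R : SuperRealisation C K}

lemma map_lift_zero {M : C} {y : M ⟶ M} (hy : R.H.map y = 0) :
    R.H.map (𝟙_ C ◁ y : tp M 1 ⟶ tp M 1) = 0 :=
  map_whiskerLeft_zero (𝟙_ C) hy

lemma lift_eq {M : C} (y : M ⟶ M) : y = (λ_ M).inv ≫ 𝟙_ C ◁ y ≫ (λ_ M).hom := by
  simp

lemma lift_ne {M : C} {y : M ⟶ M} (hy : y ≠ 0) : (𝟙_ C ◁ y : tp M 1 ⟶ tp M 1) ≠ 0 := by
  intro h
  apply hy
  rw [lift_eq y]
  have h1 : (𝟙_ C ◁ y : 𝟙_ C ⊗ M ⟶ 𝟙_ C ⊗ M) = 0 := h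
  rw [h1, zero_comp, comp_zero]

/-- The endomorphism `1 ⊗ y` of `tp M 1 = 1 ⊗ M`. -/
def lift1 {M : C} (y : End M) : End (tp M 1) :=
  (𝟙_ C ◁ (show M ⟶ M from y) : 𝟙_ C ⊗ M ⟶ 𝟙_ C ⊗ M)

lemma lift1_pow {M : C} (y : End M) (k : ℕ) : lift1 y ^ k = lift1 (y ^ k) := by
  induction k with
  | zero =>
    rw [pow_zero, pow_zero]
    exact (MonoidalCategory.whiskerLeft_id (𝟙_ C) M).symm
  | succ k ih =>
    rw [pow_succ, pow_succ, ih]
    exact (MonoidalCategory.whiskerLeft_comp (𝟙_ C) (show M ⟶ M from y)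
      (show M ⟶ M from y ^ k)).symm

lemma lift1_not_nilpotent {M : C} {y : End M} (hy : ¬ IsNilpotent y) :
    ¬ IsNilpotent (lift1 y) := by
  rintro ⟨k, hk⟩
  refine hy ⟨k, ?_⟩
  rw [lift1_pow] at hk
  by_contra h0
  exact lift_ne (y := (show M ⟶ M from y ^ k)) h0 hk

/-- One null endomorphism which is not nilpotent. -/
theorem null_growth [IsIdempotentComplete C] (hR : IsReal Λ R) {M : C} (hM : R.CPlus M)
    (hb : 0 < bt R M) (hy : ∃ y : End M, R.H.map (y : M ⟶ M) = 0 ∧ ¬ IsNilpotent y) (n : ℕ) :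
    ((∑ i ∈ Finset.range (n + 1), n.choose i *
      homRank Λ (tp M (n - i)) (tp M (n - i)) : ℕ) : ℕ∞) ≤ dimE Λ (tp M n ⟶ tp M n) := by
  obtain ⟨y, hy0, hyn⟩ := hy
  have h1 := many_dual (Λ := Λ) hR hM hb 1
    (fun h1 => lift1_not_nilpotent hyn (h1 _ (numTriv_of_map hR (map_lift_zero hy0)))) n
  obtain ⟨ψ⟩ := nonempty_equiv_tensor_dual (Λ := Λ) M (1 * n)
  have h2 := h1.trans (dimE_le_of_injective ψ.toLinearMap ψ.injective)
  rw [one_mul] at h2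
  refine le_trans (le_of_eq ?_) h2
  congr 1
  refine Finset.sum_congr rfl fun i _ => ?_
  rw [numRank_tensor_dual hR, homRank_eq, one_mul]

lemma null_sum_ge (hR : IsReal Λ R) {M : C} (hM : R.CPlus M) (n : ℕ) :
    (bt R M ^ 2 + 1) ^ n ≤ (n + 1) ^ (bt R M ^ 2) *
      ∑ i ∈ Finset.range (n + 1), n.choose i * homRank Λ (tp M (n - i)) (tp M (n - i)) := by
  have h1 := sum_ge_dual (Λ := Λ) hR hM 1 n
  simp only [numRank_tensor_dual hR, ← homRank_eq, one_mul, mul_one] at h1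
  exact h1

/-- **One power decides for the null endomorphisms of `M`.** -/
theorem null_one_power [IsIdempotentComplete C] (hR : IsReal Λ R) {M : C} (hM : R.CPlus M)
    (hb : 0 < bt R M)
    (hd : dimE Λ (tp M (4 * bt R M ^ 6) ⟶ tp M (4 * bt R M ^ 6)) ≤
      (bt R M ^ (8 * bt R M ^ 6) : ℕ)) (y : End M) (hy : R.H.map (y : M ⟶ M) = 0) :
    IsNilpotent y := by
  by_contra hn
  have h1 := null_growth (Λ := Λ) hR hM hb ⟨y, hy, hn⟩ (4 * bt R M ^ 6)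
  have h2 := null_sum_ge (Λ := Λ) hR hM (4 * bt R M ^ 6)
  have h3 := num_bound_one (bt R M) hb
  have h4 := h1.trans hd
  have h5 : (∑ i ∈ Finset.range (4 * bt R M ^ 6 + 1), (4 * bt R M ^ 6).choose i *
      homRank Λ (tp M (4 * bt R M ^ 6 - i)) (tp M (4 * bt R M ^ 6 - i))) ≤
      bt R M ^ (8 * bt R M ^ 6) := by exact_mod_cast h4
  have h6 : bt R M ^ (8 * bt R M ^ 6) = (bt R M ^ 2) ^ (4 * bt R M ^ 6) := by
    rw [← pow_mul]
    congr 1
    ring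
  rw [h6] at h5
  exact absurd (h2.trans (Nat.mul_le_mul_left _ h5)) (not_le.2 h3)

/-- **One inequality decides.** -/
theorem null_one_inequality (hR : IsReal Λ R) {M : C} (hM : R.CPlus M)
    (hb : 0 < bt R M) {n : ℕ} (hn : 256 * bt R M ^ 16 ≤ n)
    (h : 2 * nullDim Λ hR M (2 * n) < homRank Λ (tp M (2 * n)) (tp M (2 * n))) (y : M ⟶ M)
    (hy : R.H.map y = 0) : y = 0 := by
  by_contra h0
  have h1 := ((null_law (Λ := Λ) hR hM hb).2 1 n ⟨𝟙_ C ◁ y, map_lift_zero hy, lift_ne h0⟩ (by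
    have e : 128 * (1 + 1) ^ 2 * bt R M ^ (2 * (2 * 1 + 6)) = 2 * (256 * bt R M ^ 16) := by
      norm_num
      ring
    rw [e]
    omega)).1
  exact absurd h1 (not_le.2 h)

end Gen

end Pool.Agent.Run7.h848.XG
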