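import Pool.Agent.N64.AF.Defs

/-!
# Motives which are simple modulo numerical equivalence
-/

set_option autoImplicit false

open CategoryTheory Limits MonoidalCategory
open Pool.Agent.Y112.SR Pool.Agent.Y112.KD Pool.Agent.N64.AF

namespace Pool.Agent.Run7.h848.XG

universe v u

variable {C : Type u} [Category.{v} C] [Preadditive C] [MonoidalCategory C]
  [MonoidalPreadditive C] [SymmetricCategory C] [RightRigidCategory C]

/-- The endomorphisms of `M` modulo numerical equivalence are a division ring. -/
structure NumSimple (M : C) : Prop where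
  ne : ¬ NumTriv (𝟙 M)
  inv : ∀ e : M ⟶ M, ¬ NumTriv e → ∃ d : M ⟶ M, NumTriv (e ≫ d - 𝟙 M)

/-- `M` is a direct summand of `Y`. -/
def Summand (M Y : C) : Prop := ∃ (i : M ⟶ Y) (p : Y ⟶ M), i ≫ p = 𝟙 M

end Pool.Agent.Run7.h848.XG
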