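import Pool.Agent.Run7.h848.XG.Uniform
import Pool.Agent.Run7.h848.XG.Dual
import Pool.Agent.Run7.h848.XG.Trans

/-!
# One power decides: objects which are not self-dual
-/

set_option autoImplicit false
set_option linter.unusedSectionVars false

open CategoryTheory Limits MonoidalCategory Module Filter Topology
open Pool.Agent.Y112.SR Pool.Agent.Y112.KD Pool.Agent.N64.AF Pool.Agent.R905
open Pool.Agent.Y116.MT (tr)
open scoped ENNReal

namespace Pool.Agent.Run7.h848.XG

universe v u w t x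

variable {C : Type u} [Category.{v} C] [Preadditive C] [MonoidalCategory C]
  [MonoidalPreadditive C] [SymmetricCategory C] [RightRigidCategory C]
  [Linear ℚ C] [MonoidalLinear ℚ C] [IsIdempotentComplete C]
  {K : Type w} [Field K] [IsAlgClosed K] [Algebra ℚ K] {R : SuperRealisation C K}

lemma unitQ_of (hR : IsReal ℚ R) : UnitQ C := by
  refine ⟨hR.unit, fun h => ?_⟩
  have h1 := bt_unit R
  have h2 : 𝟙 (R.H.obj (𝟙_ C)) = 0 := by
    rw [← CategoryTheory.Functor.map_id, h, Functor.map_zero]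
  have h3 : IsZero (R.H.obj (𝟙_ C)) := (IsZero.iff_id_eq_zero _).2 h2
  have h4 : Subsingleton (R.H.obj (𝟙_ C)) := ModuleCat.subsingleton_of_isZero h3
  unfold bt at h1
  rw [finrank_zero_of_subsingleton] at h1
  exact zero_ne_one h1

lemma homNil_down (hR : IsReal ℚ R) {T : C} (hT : R.CPlus T) (hb : 0 < bt R T) {m n : ℕ}
    (hmn : m ≤ n) (h : HomNil R (tp T n)) : HomNil R (tp T m) := by
  have hz : ¬ IsZero (R.H.obj T) := by
    intro h0
    have h4 : Subsingleton (R.H.obj T) := ModuleCat.subsingleton_of_isZero h0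
    unfold bt at hb
    rw [finrank_zero_of_subsingleton] at hb
    exact lt_irrefl _ hb
  induction n, hmn using Nat.le_induction with
  | base => exact h
  | succ n _ ih => exact ih (homNil_of_tensor R (unitQ_of hR) hz hT h)

/-- Nilpotence on the one power `b + 1` is sufficient. -/
theorem kimura_of_nil_one' (hR : IsReal ℚ R) {T : C} (hT : R.CPlus T) (hb : 0 < bt R T)
    (hn : HomNil R (tp T (bt R T + 1))) : IsKimuraFinite T :=
  kimura_of_nil_le hR hT fun _ hn1 => homNil_down hR hT hb hn1 hn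

/-- **The uniform dichotomy for the endomorphisms.** -/
theorem uniform_dual (hR : IsReal ℚ R) {T : C} (hT : R.CPlus T) (hb : 0 < bt R T) :
    IsKimuraFinite T ∨ ∀ n : ℕ, ((∑ i ∈ Finset.range (n + 1), n.choose i *
        homRank ℚ (tp T ((bt R T + 1) * (n - i))) (tp T ((bt R T + 1) * (n - i))) : ℕ) : ℕ∞) ≤
      dimE ℚ (tp T ((bt R T + 1) * n) ⟶ tp T ((bt R T + 1) * n)) := by
  by_cases hn : HomNil R (tp T (bt R T + 1))
  · exact Or.inl (kimura_of_nil_one' hR hT hb hn)
  · refine Or.inr fun n => ?_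
    have h1 := many_dual hR hT hb (bt R T + 1) (fun h1 => hn fun y hy =>
      h1 y (numTriv_of_map hR hy)) n
    obtain ⟨ψ⟩ := nonempty_equiv_tensor_dual (Λ := ℚ) T ((bt R T + 1) * n)
    refine le_trans (le_of_eq ?_) (h1.trans (dimE_le_of_injective ψ.toLinearMap ψ.injective))
    congr 1
    refine Finset.sum_congr rfl fun i _ => ?_
    rw [numRank_tensor_dual hR, homRank_eq]

lemma sum_ge_end (hR : IsReal ℚ R) {T : C} (hT : R.CPlus T) (m n : ℕ) :
    (bt R T ^ (2 * m) + 1) ^ n ≤ (m * n + 1) ^ (bt R T ^ 2) *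
      ∑ i ∈ Finset.range (n + 1), n.choose i *
        homRank ℚ (tp T (m * (n - i))) (tp T (m * (n - i))) := by
  have h1 := sum_ge_dual (Λ := ℚ) hR hT m n
  have h2 : ∀ k, numRank ℚ (tp (T ⊗ Tᘁ) k) = homRank ℚ (tp T k) (tp T k) := by
    intro k
    rw [numRank_tensor_dual hR, homRank_eq]
  simp only [h2] at h1
  exact h1

/-- The number of the power which decides. -/
def decisiveEnd (b : ℕ) : ℕ := 4 * (b + 1) * b ^ (4 * (b + 1))

/-- **One power decides.** -/
theorem one_power_end (hR : IsReal ℚ R) {T : C} (hT : R.CPlus T) (hb : 0 < bt R T)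
    (hσ : dimE ℚ (tp T (decisiveEnd (bt R T)) ⟶ tp T (decisiveEnd (bt R T))) ≤
      (bt R T ^ (2 * decisiveEnd (bt R T)) : ℕ)) : IsKimuraFinite T := by
  rcases uniform_dual hR hT hb with h1 | h1
  · exact h1
  · exfalso
    obtain ⟨b, hb'⟩ : ∃ b, b = bt R T := ⟨_, rfl⟩
    have hb1 : 1 ≤ b := by
      rw [hb']
      exact hb
    have h2 := h1 (4 * (b ^ (2 * (b + 1))) ^ 2)
    have h3 := sum_ge_end hR hT (bt R T + 1) (4 * (b ^ (2 * (b + 1))) ^ 2)
    have h4 := num_bound b hb1
    rw [← hb'] at h2 h3 hσ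
    have h5 : (b + 1) * (4 * (b ^ (2 * (b + 1))) ^ 2) = decisiveEnd b := by
      unfold decisiveEnd
      rw [← pow_mul]
      have h6 : 2 * (b + 1) * 2 = 4 * (b + 1) := by ring
      rw [h6]
      ring
    rw [h5] at h2
    have h6 := h2.trans hσ
    have h7 : (∑ i ∈ Finset.range (4 * (b ^ (2 * (b + 1))) ^ 2 + 1),
        (4 * (b ^ (2 * (b + 1))) ^ 2).choose i *
          homRank ℚ (tp T ((b + 1) * (4 * (b ^ (2 * (b + 1))) ^ 2 - i)))
            (tp T ((b + 1) * (4 * (b ^ (2 * (b + 1))) ^ 2 - i)))) ≤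
        b ^ (2 * decisiveEnd b) := by exact_mod_cast h6
    have h8 : b ^ (2 * decisiveEnd b) =
        (b ^ (2 * (b + 1))) ^ (4 * (b ^ (2 * (b + 1))) ^ 2) := by
      rw [← pow_mul, ← h5, mul_assoc 2]
    rw [h8] at h7
    exact absurd (h3.trans (Nat.mul_le_mul_left _ h7)) (not_le.2 h4)

end Pool.Agent.Run7.h848.XG
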