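import Pool.Agent.Run7.h848.XG.Expo
import Pool.Agent.N64.AF.L1

/-!
# Powers of an object with a numerically trivial, not nilpotent endomorphism
-/

set_option autoImplicit false
set_option linter.unusedSectionVars false

open CategoryTheory Limits MonoidalCategory Module Filter
open Pool.Agent.Y112.SR Pool.Agent.Y112.KD Pool.Agent.N64.AF
open Pool.Agent.Y116.MT (tr)

namespace Pool.Agent.Run7.h848.XG

universe v u w t x

section Iso

variable {C : Type u} [Category.{v} C] [Preadditive C] [MonoidalCategory C]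
  [MonoidalPreadditive C] [SymmetricCategory C] [RightRigidCategory C]

/-- The powers of a self-dual object have duals which are isomorphic to them. -/
lemma exists_dual_tp (T : C) [ExactPairing T T] (m : ℕ) :
    ∃ (D : C) (_ : ExactPairing D (tp T m)), Nonempty (D ≅ tp T m) := by
  induction m with
  | zero => exact ⟨𝟙_ C, inferInstance, ⟨Iso.refl _⟩⟩
  | succ m ih =>
    obtain ⟨D, hD, ⟨e⟩⟩ := ih
    exact ⟨T ⊗ D, inferInstance, ⟨β_ T D ≪≫ whiskerRightIso e T⟩⟩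

/-- The powers of a power. -/
lemma Q_tp (T : C) {P : C} {k : ℕ} (e : P ≅ tp T k) (n : ℕ) : ∀ {X : C} {l : ℕ}
    (_ : X ≅ tp T l), Nonempty (Q P X n ≅ tp T (l + k * n)) := by
  induction n with
  | zero => intro X l i; exact ⟨i⟩
  | succ n ih =>
    intro X l i
    obtain ⟨j, -⟩ := exists_tp_iso T l k
    obtain ⟨f⟩ := ih (X := X ⊗ P) ((i ⊗ᵢ e) ≪≫ j)
    exact ⟨f ≪≫ eqToIso (congrArg (tp T) (by ring))⟩

end Iso

section Fit

variable {C : Type u} [Category.{v} C] [Preadditive C] [MonoidalCategory C]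
  [MonoidalPreadditive C] [SymmetricCategory C] [RightRigidCategory C]
  {Λ : Type t} [Field Λ] [CharZero Λ] [Linear Λ C] [MonoidalLinear Λ C]
  {K : Type w} [Field K] [IsAlgClosed K] [Algebra Λ K] {R : SuperRealisation C K}

/-- Fitting's lemma. -/
lemma exists_idem (hR : IsReal Λ R) {X : C} [Module.Finite Λ (X ⟶ X)] (y : End X)
    (hy : NumTriv (y : X ⟶ X)) (hn : ¬ IsNilpotent y) :
    ∃ p : X ⟶ X, p ≫ p = p ∧ NumTriv p ∧ p ≠ 0 := by
  have : Module.Finite Λ (End X) := ‹Module.Finite Λ (X ⟶ X)›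
  have hinj : Function.Injective (Algebra.lmul Λ (End X)) := by
    intro a b hab
    have h1 := congrArg (fun f : Module.End Λ (End X) => f 1) hab
    simpa using h1
  obtain ⟨q, hq1, hq2⟩ := Pool.Agent.Y133.Half.exists_fit (Algebra.lmul Λ (End X) y)
  have hq3 : Polynomial.aeval (Algebra.lmul Λ (End X) y) q * Algebra.lmul Λ (End X) y =
      Algebra.lmul Λ (End X) (Polynomial.aeval y q * y) := by
    rw [map_mul, Polynomial.aeval_algHom_apply]
  rw [hq3] at hq1 hq2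
  rw [← map_mul] at hq1
  have h1 : (Polynomial.aeval y q * y) * (Polynomial.aeval y q * y) = Polynomial.aeval y q * y := hinj hq1
  refine ⟨(Polynomial.aeval y q * y : End X), h1, ?_, ?_⟩
  · have h2 := hy.comp hR (𝟙 X) (Polynomial.aeval y q : End X)
    rw [Category.id_comp] at h2
    exact h2
  · intro h2
    apply hn
    have h3 : Algebra.lmul Λ (End X) (Polynomial.aeval y q * y) = 0 := by
      have h4 : (Polynomial.aeval y q * y : End X) = 0 := h2
      rw [h4, map_zero]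
    obtain ⟨k, hk⟩ := hq2 h3
    refine ⟨k, hinj ?_⟩
    rw [map_pow, hk, map_zero]

/-- The transposed morphism of an endomorphism. -/
noncomputable def zz (Λ : Type t) [Field Λ] [Linear Λ C] [MonoidalLinear Λ C] (Y Y' : C)
    [ExactPairing Y Y'] : (Y' ⟶ Y') →ₗ[Λ] (𝟙_ C ⟶ Y ⊗ Y') where
  toFun p := η_ Y Y' ≫ Y ◁ p
  map_add' p q := by rw [MonoidalPreadditive.whiskerLeft_add, Preadditive.comp_add]
  map_smul' c p := by
    rw [MonoidalLinear.whiskerLeft_smul, Linear.comp_smul]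
    rfl

lemma zz_inj (Y Y' : C) [ExactPairing Y Y'] : Function.Injective (zz Λ Y Y') := by
  rw [injective_iff_map_eq_zero]
  intro p hp
  have h1 := ins_kap (Y := Y) p (𝟙_ C)
  have h2 : η_ Y Y' ≫ Y ◁ p = 0 := hp
  rw [h2] at h1
  have h3 : 𝟙_ C ◁ p = 0 := by
    rw [← h1]
    unfold ins
    rw [MonoidalPreadditive.whiskerLeft_zero, comp_zero, zero_comp]
  rw [id_whiskerLeft] at h3
  have h4 : p = (λ_ Y').inv ≫ ((λ_ Y').hom ≫ p ≫ (λ_ Y').inv) ≫ (λ_ Y').hom := by simp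
  rw [h4, h3, zero_comp, comp_zero]

lemma numRank_le_dimE (hR : IsReal Λ R) (X : C) :
    ((numRank Λ X : ℕ) : ℕ∞) ≤ dimE Λ (𝟙_ C ⟶ X) := by
  have := finite_num (Λ := Λ) hR (𝟙_ C) X
  refine (le_dimE (LinearMap.id : (𝟙_ C ⟶ X) →ₗ[Λ] (𝟙_ C ⟶ X)) (numIdeal Λ (𝟙_ C) X) ?_).trans
    (dimE_le_of_injective (Submodule.subtype _) (Submodule.subtype_injective _))
  intro x hx
  have h1 : x = 0 := hx
  rw [h1]
  exact Submodule.zero_mem _

lemma dimE_mono_tp {T : C} (h : IsPow Λ R T) (n : ℕ) :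
    dimE Λ (𝟙_ C ⟶ tp T n) ≤ dimE Λ (𝟙_ C ⟶ tp T (n + 1)) := by
  obtain ⟨i, r, hir⟩ := exists_retract_tp h n
  apply dimE_le_of_injective (Linear.rightComp Λ (𝟙_ C) i)
  intro a b hab
  have h1 : a ≫ i = b ≫ i := hab
  have h2 := congrArg (· ≫ r) h1
  simpa [Category.assoc, hir] using h2

/-- **Many cycles on the powers.** -/
theorem many [IsIdempotentComplete C] {T : C} [ExactPairing T T] (h : IsPow Λ R T) (m : ℕ)
    (hm : ¬ ∀ y : End (tp T m), NumTriv (y : tp T m ⟶ tp T m) → IsNilpotent y) (n : ℕ) :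
    ((∑ i ∈ Finset.range (n + 1), n.choose i * numRank Λ (tp T (2 * m * (n - i))) : ℕ) : ℕ∞) ≤
      dimE Λ (𝟙_ C ⟶ tp T (2 * m * n)) := by
  push Not at hm
  obtain ⟨y, hy, hyn⟩ := hm
  obtain ⟨D, hD, ⟨e⟩⟩ := exists_dual_tp T m
  obtain ⟨j, -⟩ := exists_tp_iso T m m
  have eP : D ⊗ tp T m ≅ tp T (2 * m) := (whiskerRightIso e (tp T m)) ≪≫ j ≪≫
    eqToIso (congrArg (tp T) (two_mul m).symm)
  by_cases hfin : Module.Finite Λ (𝟙_ C ⟶ tp T (2 * m))
  · have hf1 : Module.Finite Λ (𝟙_ C ⟶ D ⊗ tp T m) :=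
      Module.Finite.of_injective (Linear.rightComp Λ (𝟙_ C) eP.hom) (by
        intro a b hab
        exact (cancel_mono eP.hom).1 hab)
    have hf2 : Module.Finite Λ (tp T m ⟶ tp T m) :=
      Module.Finite.of_injective (zz Λ D (tp T m)) (zz_inj D (tp T m))
    obtain ⟨p, hp1, hp2, hp3⟩ := exists_idem h.real y hy hyn
    have hv : ((homF Λ (𝟙_ C)).map (η_ D (tp T m) ≫ D ◁ p)).hom (𝟙 (𝟙_ C)) ≠ 0 := by
      intro h0
      have h1 : 𝟙 (𝟙_ C) ≫ (η_ D (tp T m) ≫ D ◁ p) = 0 := h0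
      rw [Category.id_comp] at h1
      exact hp3 (zz_inj (Λ := Λ) D (tp T m) (by rw [map_zero]; exact h1))
    have h1 := expo h.real (homF Λ (𝟙_ C)) (𝟙 (𝟙_ C)) p hp1 hp2 hv n
    have hQ : ∀ k, Nonempty (Q (D ⊗ tp T m) (𝟙_ C) k ≅ tp T (2 * m * k)) := by
      intro k
      obtain ⟨f⟩ := Q_tp T eP k (X := 𝟙_ C) (l := 0) (Iso.refl _)
      exact ⟨f ≪≫ eqToIso (congrArg (tp T) (zero_add _))⟩
    have h2 : dimE Λ ((homF Λ (𝟙_ C)).obj (Q (D ⊗ tp T m) (𝟙_ C) n)) ≤
        dimE Λ (𝟙_ C ⟶ tp T (2 * m * n)) := by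
      obtain ⟨f⟩ := hQ n
      apply dimE_le_of_injective (Linear.rightComp Λ (𝟙_ C) f.hom)
      intro a b hab
      exact (cancel_mono f.hom).1 hab
    refine le_trans (le_of_eq ?_) (h1.trans h2)
    congr 1
    refine Finset.sum_congr rfl fun i _ => ?_
    obtain ⟨f⟩ := hQ (n - i)
    rw [numRank_iso h.real f]
  · cases n with
    | zero => simpa using numRank_le_dimE h.real (tp T (2 * m * 0))
    | succ n =>
      have h1 : ∀ k, 2 * m ≤ k → ¬ Module.Finite Λ (𝟙_ C ⟶ tp T k) := by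
        intro k hk
        induction k, hk using Nat.le_induction with
        | base => exact hfin
        | succ n _ ih => exact not_finite_succ h (homF Λ (𝟙_ C)) ih
      rw [dimE_top (h1 (2 * m * (n + 1)) (Nat.le_mul_of_pos_right _ (Nat.succ_pos n)))]
      exact le_top

end Fit

end Pool.Agent.Run7.h848.XG
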