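import Pool.Agent.Run7.h848.XG.SimpleDefs
import Pool.Agent.N64.AF.M6

/-!
# Homologically trivial cycles and simple motives: dimensions
-/

set_option autoImplicit false

open CategoryTheory Limits MonoidalCategory Module
open Pool.Agent.Y112.SR Pool.Agent.Y112.KD Pool.Agent.N64.AF

namespace Pool.Agent.Run7.h848.XG

universe v u w t

variable {C : Type u} [Category.{v} C] [Preadditive C] [MonoidalCategory C]
  [MonoidalPreadditive C] [SymmetricCategory C] [RightRigidCategory C]
  {Λ : Type t} [Field Λ] [Linear Λ C] [MonoidalLinear Λ C]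
  {K : Type w} [Field K] [Algebra Λ K] {R : SuperRealisation C K}

/-- The dimension, maybe infinite, of the space of the homologically trivial cycles on `Z`. -/
noncomputable def eta [CharZero Λ] [IsAlgClosed K] (hR : IsReal Λ R) (Z : C) : ℕ∞ :=
  dimE Λ (homSub hR (𝟙_ C) Z)

/-- The dimension of the space of the morphisms from `Y` to `Z` modulo numerical equivalence. -/
noncomputable def homRank (Λ : Type t) [Field Λ] [Linear Λ C] [MonoidalLinear Λ C] (Y Z : C) : ℕ :=
  finrank Λ ((Y ⟶ Z) ⧸ numIdeal Λ Y Z)

end Pool.Agent.Run7.h848.XG
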