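import Pool.Agent.Run7.h848.XG.SimpleDefs
import Pool.Agent.Run7.h848.XG.TransDefs
import Pool.Agent.Run7.h184.AJ.Defs

/-!
# The law for a dimension function and simple motives: the statement
-/

set_option autoImplicit false

open CategoryTheory Limits MonoidalCategory Module
open Pool.Agent.Y112.SR Pool.Agent.Y112.KD Pool.Agent.N64.AF

namespace Pool.Agent.Run7.h848.XG

universe v u w t

variable {C : Type u} [Category.{v} C] [Preadditive C] [MonoidalCategory C]
  [MonoidalPreadditive C] [SymmetricCategory C] [RightRigidCategory C]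
  {K : Type w} [Field K]

/-- The law for a function `d` (a dimension) on the objects, and the contributions of the simple
motives.
* `law`: `d (T ^ n) / ρ(n)` has a limit `N`, and `N = 0` if and only if `d` is zero on all powers of `T`;
  for a simple summand `M` of a power of `T`, of rank `r`, with `f = homRank M M`: `r d(M) ≤ N f`, and
  `N ≥ r` if `d M ≠ 0`; if `N` is finite, then `d M = l f` with `l r ≤ N` and `l homRank M Z ≤ d Z` for all `Z`.
* `compare`: `d(M) homRank M Z ≤ f d(Z)` for all `Z`, or `d` grows at least linearly relative to the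
  numerical ranks on the powers of `T ^ m`.
* `gap`: if `d` is not zero on a summand of `T ^ m`, then `d (T ^ (2 n))` is large for all `n` above an
  explicit bound. -/
structure SimpleLaw (Λ : Type t) [Field Λ] [Linear Λ C] [MonoidalLinear Λ C] [Algebra Λ K]
    (R : SuperRealisation C K) (T : C) (d : C → ℕ∞) : Prop where
  law : ∃ N : ℕ∞, RatioTo Λ T (fun n => d (tp T n)) N ∧ (N = 0 ↔ ∀ n, d (tp T n) = 0) ∧
    ∀ (m : ℕ) (M : C), NumSimple M → Summand M (tp T m) →
      (bt R M : ℕ∞) * d M ≤ N * homRank Λ M M ∧ (d M ≠ 0 → (bt R M : ℕ∞) ≤ N) ∧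
      (N ≠ ⊤ → ∃ l : ℕ, d M = (l * homRank Λ M M : ℕ) ∧ (l * bt R M : ℕ) ≤ N ∧
        ∀ Z : C, l * homRank Λ M Z ≤ d Z)
  compare : ∀ (m : ℕ) (M : C), NumSimple M → Summand M (tp T m) →
    (∀ Z : C, d M * homRank Λ M Z ≤ homRank Λ M M * d Z) ∨
      ∀ a : ℕ, (a + 1) * (numRank Λ (tp M a) : ℕ∞) ≤ d (tp M (a + 1)) ∧
        (a + 1) * (numRank Λ (tp (tp T m) a) : ℕ∞) ≤ d (tp (tp T m) (a + 1))
  gap : ∀ (m n : ℕ) (M : C), Summand M (tp T m) → d M ≠ 0 →
    128 * (m + 1) ^ 2 * bt R T ^ (2 * m + 6) ≤ 2 * n →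
      Pool.Agent.Run7.h184.AJ.Large Λ R T n (d (tp T (2 * n)))

end Pool.Agent.Run7.h848.XG
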