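import Pool.Agent.Run7.h848.XG.Alg
import Pool.Agent.Run7.h848.XG.Fin
import Pool.Agent.N64.AF.V2

/-!
# Cycles modulo smash-nilpotence
-/

set_option autoImplicit false
set_option linter.unusedSectionVars false

open CategoryTheory Limits MonoidalCategory Module Filter Topology
open Pool.Agent.Y112.SR Pool.Agent.Y112.KD Pool.Agent.N64.AF
open Pool.Agent.Y116.MT (tr)
open scoped ENNReal

namespace Pool.Agent.Run7.h848.XG

universe v u w t x

section Nil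

variable {C : Type u} [Category.{v} C] [Preadditive C] [MonoidalCategory C]
  [MonoidalPreadditive C] [SymmetricCategory C] [RightRigidCategory C]
  {Λ : Type t} [Field Λ] [CharZero Λ] [Linear Λ C] [MonoidalLinear Λ C]
  {K : Type w} [Field K] [IsAlgClosed K] [Algebra Λ K] {R : SuperRealisation C K}

/-- The contraction. -/
def kap' (Y Y' : C) [ExactPairing Y Y'] : (Y ⊗ Y') ⊗ Y' ⟶ Y' :=
  (β_ (Y ⊗ Y') Y').hom ≫ ((λ_ Y').inv ▷ (Y ⊗ Y')) ≫ kap (Y := Y) (𝟙_ C) ≫ (λ_ Y').hom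

lemma ins_kap' {Y Y' : C} [ExactPairing Y Y'] (p : Y' ⟶ Y') :
    (λ_ Y').inv ≫ (η_ Y Y' ≫ Y ◁ p) ▷ Y' ≫ kap' Y Y' = p := by
  obtain ⟨z, hz⟩ : ∃ z : 𝟙_ C ⟶ Y ⊗ Y', z = η_ Y Y' ≫ Y ◁ p := ⟨_, rfl⟩
  have h1 := ins_kap (Y := Y) p (𝟙_ C)
  unfold ins at h1
  unfold kap'
  rw [← hz] at h1 ⊢
  rw [← Category.assoc (z ▷ Y'), BraidedCategory.braiding_naturality_left,
    braiding_tensorUnit_left]
  simp only [Category.assoc, Iso.inv_hom_id_assoc]
  rw [← Category.assoc (Y' ◁ z), whisker_exchange, Category.assoc, ← Category.assoc (ρ_ Y').inv,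
    ← rightUnitor_inv_naturality]
  have h2 : (λ_ Y').inv ≫ (((ρ_ (𝟙_ C ⊗ Y')).inv ≫ (𝟙_ C ⊗ Y') ◁ z) ≫ kap (Y := Y) (𝟙_ C)) ≫
      (λ_ Y').hom = p := by
    rw [h1, id_whiskerLeft]
    simp
  simpa only [Category.assoc] using h2

/-- If the cycle of an endomorphism is smash-nilpotent then the endomorphism is nilpotent. -/
lemma nil_of_smash {Y Y' : C} [ExactPairing Y Y'] (p : End Y')
    (h : SmashNil (η_ Y Y' ≫ Y ◁ (p : Y' ⟶ Y'))) : IsNilpotent p := by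
  obtain ⟨z, hz⟩ : ∃ z : 𝟙_ C ⟶ Y ⊗ Y', z = η_ Y Y' ≫ Y ◁ (p : Y' ⟶ Y') := ⟨_, rfl⟩
  have hk := ins_kap' (Y := Y) (p : Y' ⟶ Y')
  rw [← hz] at h hk
  have key : ∀ r : ℕ, ∃ g : tp (Y ⊗ Y') r ⊗ Y' ⟶ Y',
      (λ_ Y').inv ≫ (tpow z r ▷ Y') ≫ g = ((p ^ r : End Y') : Y' ⟶ Y') := by
    intro r
    induction r with
    | zero =>
      refine ⟨(λ_ Y').hom, ?_⟩
      change (λ_ Y').inv ≫ (𝟙 (𝟙_ C) ▷ Y') ≫ (λ_ Y').hom = 𝟙 Y'
      simp
    | succ r ih =>
      obtain ⟨g, hg⟩ := ih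
      refine ⟨(α_ (tp (Y ⊗ Y') r) (Y ⊗ Y') Y').hom ≫ (tp (Y ⊗ Y') r ◁ kap' Y Y') ≫ g, ?_⟩
      have h1 : ((ρ_ (tp (Y ⊗ Y') r)).inv ≫ (tp (Y ⊗ Y') r ◁ z)) ▷ Y' ≫
          (α_ (tp (Y ⊗ Y') r) (Y ⊗ Y') Y').hom =
          tp (Y ⊗ Y') r ◁ ((λ_ Y').inv ≫ z ▷ Y') := by
        rw [comp_whiskerRight, Category.assoc, associator_naturality_middle, ← Category.assoc,
          whiskerLeft_comp]
        congr 1
        simp
      have h2 : tpow z (r + 1) ▷ Y' ≫ (α_ (tp (Y ⊗ Y') r) (Y ⊗ Y') Y').hom ≫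
          (tp (Y ⊗ Y') r ◁ kap' Y Y') ≫ g = (tpow z r ▷ Y') ≫ (tp (Y ⊗ Y') r ◁ (p : Y' ⟶ Y')) ≫ g := by
        change (tpow z r ≫ ((ρ_ (tp (Y ⊗ Y') r)).inv ≫ (tp (Y ⊗ Y') r ◁ z))) ▷ Y' ≫ _ = _
        rw [comp_whiskerRight, Category.assoc, ← Category.assoc (_ ▷ Y') (α_ _ _ _).hom, h1,
          ← Category.assoc (tp (Y ⊗ Y') r ◁ _) (tp (Y ⊗ Y') r ◁ _), ← whiskerLeft_comp,
          Category.assoc (λ_ Y').inv, hk]
      rw [h2, ← Category.assoc (tpow z r ▷ Y'), ← whisker_exchange, Category.assoc,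
        id_whiskerLeft, Category.assoc, Category.assoc, Iso.inv_hom_id_assoc, hg, pow_succ,
        End.mul_def]
  obtain ⟨k, hk⟩ := h
  obtain ⟨g, hg⟩ := key k
  refine ⟨k, ?_⟩
  rw [hk, MonoidalPreadditive.zero_whiskerRight, zero_comp, comp_zero] at hg
  exact hg.symm

/-- The left ideal of the endomorphisms with smash-nilpotent cycle. -/
def smashIdeal (Λ : Type t) [Field Λ] [Linear Λ C] [MonoidalLinear Λ C] (Y Y' : C)
    [ExactPairing Y Y'] : Ideal (End Y') where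
  carrier := {x | SmashNil (η_ Y Y' ≫ Y ◁ (x : Y' ⟶ Y'))}
  zero_mem' := by
    change SmashNil (η_ Y Y' ≫ Y ◁ (0 : Y' ⟶ Y'))
    rw [MonoidalPreadditive.whiskerLeft_zero, comp_zero]
    exact smashNil_zero _
  add_mem' := by
    intro a b ha hb
    have h1 := SmashNil.add (show SmashNil (η_ Y Y' ≫ Y ◁ (a : Y' ⟶ Y')) from ha)
      (show SmashNil (η_ Y Y' ≫ Y ◁ (b : Y' ⟶ Y')) from hb)
    rw [← Preadditive.comp_add, ← MonoidalPreadditive.whiskerLeft_add] at h1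
    exact h1
  smul_mem' := by
    intro c a ha
    have h1 := SmashNil.comp (show SmashNil (η_ Y Y' ≫ Y ◁ (a : Y' ⟶ Y')) from ha)
      (Y ◁ (c : Y' ⟶ Y'))
    rw [Category.assoc, ← whiskerLeft_comp] at h1
    exact h1

lemma finite_quot (Y Y' : C) [ExactPairing Y Y']
    [Module.Finite Λ ((𝟙_ C ⟶ Y ⊗ Y') ⧸ smashSub Λ (Y ⊗ Y'))] :
    Module.Finite Λ (End Y' ⧸ smashIdeal Λ Y Y') := by
  let f : End Y' →ₗ[Λ] ((𝟙_ C ⟶ Y ⊗ Y') ⧸ smashSub Λ (Y ⊗ Y')) :=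
    (smashSub Λ (Y ⊗ Y')).mkQ ∘ₗ zz Λ Y Y'
  have hf : LinearMap.ker f = (smashIdeal Λ Y Y').restrictScalars Λ := by
    ext x
    rw [LinearMap.mem_ker]
    exact Submodule.Quotient.mk_eq_zero _
  have h1 : Module.Finite Λ (LinearMap.range f) := inferInstance
  have e1 := f.quotKerEquivRange
  have h2 : Module.Finite Λ (End Y' ⧸ LinearMap.ker f) := Module.Finite.equiv e1.symm
  rw [hf] at h2
  exact Module.Finite.equiv (Submodule.Quotient.restrictScalarsEquiv Λ (smashIdeal Λ Y Y'))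

end Nil

section Main

variable {C : Type u} [Category.{v} C] [Preadditive C] [MonoidalCategory C]
  [MonoidalPreadditive C] [SymmetricCategory C] [RightRigidCategory C]
  {Λ : Type t} [Field Λ] [CharZero Λ] [Linear Λ C] [MonoidalLinear Λ C]
  {K : Type w} [Field K] [IsAlgClosed K] [Algebra Λ K] {R : SuperRealisation C K}

/-- Smash-nilpotent cycles are numerically trivial. -/
lemma numTriv_of_smash (hR : IsReal Λ R) {Z : C} {α : 𝟙_ C ⟶ Z} (h : SmashNil α) :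
    NumTriv α := by
  rw [numTriv_unit_iff hR]
  intro β
  obtain ⟨q, hq⟩ := hR.unit (α ≫ β)
  by_cases hq0 : q = 0
  · rw [hq, hq0, zero_smul]
  · exfalso
    have h1 := SmashNil.comp h β
    rw [hq] at h1
    have h2 := SmashNil.smul h1 q⁻¹
    rw [smul_smul, inv_mul_cancel₀ hq0, one_smul] at h2
    obtain ⟨k, hk⟩ := h2
    have := N690V2.isIso_tpow_one (C := C) k
    apply N690V2.one_ne (R := R) hR
    have h4 := IsIso.hom_inv_id (tpow (𝟙 (𝟙_ C)) k)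
    rw [← h4]
    simp only [hk, zero_comp]

lemma smash_stab : IsStab (homF Λ (𝟙_ C)) (fun Z => (smashSub Λ Z : Submodule Λ (𝟙_ C ⟶ Z))) :=
  fun _ _ f _ hα => SmashNil.comp hα f

/-- The functor of the cycles modulo smash-nilpotence. -/
abbrev smF (Λ : Type t) [Field Λ] [CharZero Λ] [Linear Λ C] [MonoidalLinear Λ C] : C ⥤ ModuleCat.{v} Λ :=
  quoS (homF Λ (𝟙_ C)) (fun Z => (smashSub Λ Z : Submodule Λ (𝟙_ C ⟶ Z))) smash_stab

lemma numRank_le_smash (hR : IsReal Λ R) (X : C) :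
    ((numRank Λ X : ℕ) : ℕ∞) ≤ dimE Λ ((𝟙_ C ⟶ X) ⧸ smashSub Λ X) := by
  have := finite_num (Λ := Λ) hR (𝟙_ C) X
  refine (le_dimE (smashSub Λ X).mkQ (numIdeal Λ (𝟙_ C) X) ?_).trans
    (dimE_le_of_injective (Submodule.subtype _) (Submodule.subtype_injective _))
  rw [Submodule.ker_mkQ]
  exact fun x hx => numTriv_of_smash hR hx

lemma dimE_mono_smash {T : C} (h : IsPow Λ R T) (n : ℕ) :
    dimE Λ ((𝟙_ C ⟶ tp T n) ⧸ smashSub Λ (tp T n)) ≤
      dimE Λ ((𝟙_ C ⟶ tp T (n + 1)) ⧸ smashSub Λ (tp T (n + 1))) := by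
  obtain ⟨i, r, hir⟩ := exists_retract_tp h n
  refine dimE_le_of_injective ((smF Λ).map i).hom ?_
  intro a b hab
  have h1 : (smF (C := C) Λ).map i ≫ (smF Λ).map r = 𝟙 _ := by
    rw [← Functor.map_comp, hir, CategoryTheory.Functor.map_id]
  have h2 : ∀ a, ((smF (C := C) Λ).map r).hom (((smF Λ).map i).hom a) = a := fun a =>
    congrArg (fun g : (smF (C := C) Λ).obj (tp T n) ⟶ (smF Λ).obj (tp T n) => g.hom a) h1
  rw [← h2 a, ← h2 b]
  exact congrArg _ hab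

/-- **Many cycles modulo smash-nilpotence.** -/
theorem many_smash [IsIdempotentComplete C] {T : C} [ExactPairing T T] (h : IsPow Λ R T) (m : ℕ)
    (hm : ¬ ∀ y : End (tp T m), NumTriv (y : tp T m ⟶ tp T m) → IsNilpotent y) (n : ℕ) :
    ((∑ i ∈ Finset.range (n + 1), n.choose i * numRank Λ (tp T (2 * m * (n - i))) : ℕ) : ℕ∞) ≤
      dimE Λ ((𝟙_ C ⟶ tp T (2 * m * n)) ⧸ smashSub Λ (tp T (2 * m * n))) := by
  push Not at hm
  obtain ⟨y, hy, hyn⟩ := hm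
  obtain ⟨D, hD, ⟨e⟩⟩ := exists_dual_tp T m
  obtain ⟨j, -⟩ := exists_tp_iso T m m
  have eP : D ⊗ tp T m ≅ tp T (2 * m) := (whiskerRightIso e (tp T m)) ≪≫ j ≪≫
    eqToIso (congrArg (tp T) (two_mul m).symm)
  have iso_le : ∀ {X X' : C} (f : X ≅ X'), dimE Λ ((smF Λ).obj X) ≤ dimE Λ ((smF Λ).obj X') := by
    intro X X' f
    refine dimE_le_of_injective ((smF Λ).map f.hom).hom ?_
    intro a b hab
    have h1 : (smF (C := C) Λ).map f.hom ≫ (smF Λ).map f.inv = 𝟙 _ := by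
      rw [← Functor.map_comp, f.hom_inv_id, CategoryTheory.Functor.map_id]
    have h2 : ∀ a, ((smF (C := C) Λ).map f.inv).hom (((smF Λ).map f.hom).hom a) = a := fun a =>
      congrArg (fun g : (smF (C := C) Λ).obj X ⟶ (smF Λ).obj X => g.hom a) h1
    rw [← h2 a, ← h2 b]
    exact congrArg _ hab
  by_cases hfin : Module.Finite Λ ((smF Λ).obj (tp T (2 * m)))
  · have hf1 : Module.Finite Λ ((𝟙_ C ⟶ D ⊗ tp T m) ⧸ smashSub Λ (D ⊗ tp T m)) := by
      have e1 := ((smF Λ).mapIso eP).toLinearEquiv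
      exact Module.Finite.equiv e1.symm
    have hf2 : Module.Finite Λ (End (tp T m) ⧸ smashIdeal Λ D (tp T m)) := finite_quot D (tp T m)
    obtain ⟨u, hu1, hu2⟩ := exists_idem_of_nil (Λ := Λ) (smashIdeal Λ D (tp T m))
      (fun x hx => nil_of_smash x hx) y hyn
    have hp2 : NumTriv ((u * y : End (tp T m)) : tp T m ⟶ tp T m) := by
      have h2 := hy.comp h.real (𝟙 (tp T m)) (u : tp T m ⟶ tp T m)
      rw [Category.id_comp] at h2
      exact h2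
    have hv : ((smF Λ).map (η_ D (tp T m) ≫ D ◁ ((u * y : End (tp T m)) : tp T m ⟶ tp T m))).hom
        (Submodule.Quotient.mk (𝟙 (𝟙_ C))) ≠ 0 := by
      intro h0
      have h1 : (Submodule.Quotient.mk (𝟙 (𝟙_ C) ≫ (η_ D (tp T m) ≫
          D ◁ ((u * y : End (tp T m)) : tp T m ⟶ tp T m))) :
          (𝟙_ C ⟶ D ⊗ tp T m) ⧸ smashSub Λ (D ⊗ tp T m)) = 0 := h0
      rw [Category.id_comp] at h1
      have h2 := (Submodule.Quotient.mk_eq_zero _).1 h1
      obtain ⟨k, hk⟩ := nil_of_smash (Y := D) (u * y) h2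
      apply hu2
      cases k with
      | zero =>
        have h3 : (1 : End (tp T m)) = 0 := by rw [← pow_zero (u * y), hk]
        rw [← mul_one (u * y), h3, mul_zero]
      | succ k => rw [← hu1.pow_succ_eq k, hk]
    have h1 := expo h.real (smF Λ) (Submodule.Quotient.mk (𝟙 (𝟙_ C)))
      ((u * y : End (tp T m)) : tp T m ⟶ tp T m) hu1 hp2 hv n
    have hQ : ∀ k, Nonempty (Q (D ⊗ tp T m) (𝟙_ C) k ≅ tp T (2 * m * k)) := by
      intro k
      obtain ⟨f⟩ := Q_tp T eP k (X := 𝟙_ C) (l := 0) (Iso.refl _)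
      exact ⟨f ≪≫ eqToIso (congrArg (tp T) (zero_add _))⟩
    have h2 : dimE Λ ((smF Λ).obj (Q (D ⊗ tp T m) (𝟙_ C) n)) ≤
        dimE Λ ((smF Λ).obj (tp T (2 * m * n))) := iso_le (hQ n).some
    refine le_trans (le_of_eq ?_) (h1.trans h2)
    congr 1
    refine Finset.sum_congr rfl fun i _ => ?_
    obtain ⟨f⟩ := hQ (n - i)
    rw [numRank_iso h.real f]
  · cases n with
    | zero => simpa using numRank_le_smash h.real (tp T (2 * m * 0))
    | succ n =>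
      have h1 : ∀ k, 2 * m ≤ k → ¬ Module.Finite Λ ((smF Λ).obj (tp T k)) := by
        intro k hk
        induction k, hk using Nat.le_induction with
        | base => exact hfin
        | succ n _ ih => exact not_finite_succ h (smF Λ) ih
      have h2 := dimE_top (h1 (2 * m * (n + 1)) (Nat.le_mul_of_pos_right _ (Nat.succ_pos n)))
      exact le_top.trans_eq h2.symm

/-- The asymptotic form. -/
theorem growth_of {T : C} [ExactPairing T T] (h : IsPow Λ R T) {m : ℕ} (hm0 : m ≠ 0)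
    (d : ℕ → ℕ∞) (hd : ∀ n, d n ≤ d (n + 1))
    (hmany : ∀ n, ((∑ i ∈ Finset.range (n + 1),
      n.choose i * numRank Λ (tp T (2 * m * (n - i))) : ℕ) : ℕ∞) ≤ d (2 * m * n)) :
    ∃ c : ℝ, (bt R T : ℝ) < c ∧ ∀ᶠ n : ℕ in atTop, ENNReal.ofReal (c ^ n) ≤ ((d n : ℕ∞) : ℝ≥0∞) := by
  have hb := bt_pos h
  set B := bt R T ^ (2 * m) with hB
  set c : ℝ := ((B : ℝ) + 1 / 2) ^ (((2 * m : ℕ) : ℝ)⁻¹) with hc
  have h2m : 2 * m ≠ 0 := by omega
  have hcm : c ^ (2 * m) = (B : ℝ) + 1 / 2 := Real.rpow_inv_natCast_pow (by positivity) h2m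
  have hcb : (bt R T : ℝ) < c := by
    refine lt_of_pow_lt_pow_left₀ (2 * m) (by positivity) ?_
    rw [hcm, hB]
    push_cast
    linarith
  have hc1 : 1 ≤ c := by
    have : (1 : ℝ) ≤ bt R T := by exact_mod_cast hb
    linarith
  refine ⟨c, hcb, ?_⟩
  have h1 := event B m (bt R T ^ 2) c hc1 (by rw [hcm]; linarith)
  have hdiv : Tendsto (fun n : ℕ => n / (2 * m)) atTop atTop :=
    Nat.tendsto_div_const_atTop h2m
  filter_upwards [hdiv.eventually h1] with n hn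
  set k := n / (2 * m) with hk
  have hkn : 2 * m * k ≤ n := Nat.mul_div_le n (2 * m)
  have hnk : n ≤ 2 * m * (k + 1) := (Nat.lt_mul_div_succ n (Nat.pos_of_ne_zero h2m)).le
  have hmono : ∀ j, d (2 * m * k) ≤ d (2 * m * k + j) := by
    intro j
    induction j with
    | zero => exact le_refl _
    | succ j ih => exact ih.trans (hd _)
  have h2 := (hmany k).trans (hmono (n - 2 * m * k))
  rw [Nat.add_sub_cancel' hkn] at h2
  set s := ∑ i ∈ Finset.range (k + 1), k.choose i * numRank Λ (tp T (2 * m * (k - i))) with hs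
  have h3 : c ^ n ≤ (s : ℝ) := by
    have h4 := sum_ge h m k
    rw [← hs, ← hB] at h4
    have h5 : ((B : ℝ) + 1) ^ k ≤ ((m : ℝ) * k + 1) ^ (bt R T ^ 2) * s := by exact_mod_cast h4
    have h6 : (0 : ℝ) < ((m : ℝ) * k + 1) ^ (bt R T ^ 2) := by positivity
    have h7 : c ^ n ≤ c ^ (2 * m * (k + 1)) := pow_le_pow_right₀ hc1 hnk
    refine le_of_mul_le_mul_right ?_ h6
    calc c ^ n * ((m : ℝ) * k + 1) ^ (bt R T ^ 2)
        ≤ c ^ (2 * m * (k + 1)) * ((m : ℝ) * k + 1) ^ (bt R T ^ 2) :=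
          mul_le_mul_of_nonneg_right h7 h6.le
      _ ≤ _ := hn.trans (h5.trans_eq (mul_comm _ _))
  calc ENNReal.ofReal (c ^ n) ≤ ENNReal.ofReal (s : ℝ) := ENNReal.ofReal_le_ofReal h3
    _ = ((s : ℕ∞) : ℝ≥0∞) := by simp
    _ ≤ _ := by exact_mod_cast h2

end Main

/-- Kimura finite-dimensional, or exponentially many cycles modulo smash-nilpotence. -/
theorem kimura_or_smash {C : Type u} [Category.{v} C] [Preadditive C] [MonoidalCategory C]
    [MonoidalPreadditive C] [SymmetricCategory C] [RightRigidCategory C]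
    [Linear ℚ C] [MonoidalLinear ℚ C] [IsIdempotentComplete C]
    {K : Type w} [Field K] [IsAlgClosed K] [Algebra ℚ K] {R : SuperRealisation C K}
    {T : C} [ExactPairing T T] (h : IsPow ℚ R T) :
    (∀ m : ℕ, (∃ y : End (tp T m), NumTriv (y : tp T m ⟶ tp T m) ∧ ¬ IsNilpotent y) → ∀ n : ℕ,
      ((∑ i ∈ Finset.range (n + 1), n.choose i * numRank ℚ (tp T (2 * m * (n - i))) : ℕ) : ℕ∞) ≤
        dimE ℚ ((𝟙_ C ⟶ tp T (2 * m * n)) ⧸ smashSub ℚ (tp T (2 * m * n)))) ∧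
    (∀ m n : ℕ, (bt R T ^ (2 * m) + 1) ^ n ≤ (m * n + 1) ^ (bt R T ^ 2) *
      ∑ i ∈ Finset.range (n + 1), n.choose i * numRank ℚ (tp T (2 * m * (n - i)))) ∧
    (Pool.Agent.R905.IsKimuraFinite T ∨
      ∃ c : ℝ, (bt R T : ℝ) < c ∧ ∀ᶠ n : ℕ in atTop, ENNReal.ofReal (c ^ n) ≤
        ((dimE ℚ ((𝟙_ C ⟶ tp T n) ⧸ smashSub ℚ (tp T n)) : ℕ∞) : ℝ≥0∞)) := by
  refine ⟨fun m hm n => ?_, sum_ge h, ?_⟩
  · obtain ⟨y, hy, hn⟩ := hm
    exact many_smash h m (fun h1 => hn (h1 y hy)) n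
  · by_cases hall : ∀ (m : ℕ) (y : End (tp T m)), NumTriv (y : tp T m ⟶ tp T m) → IsNilpotent y
    · exact Or.inl (kimura_of_nil h.real h.cplus fun n y hy => hall n y (numTriv_of_map h.real hy))
    · rw [not_forall] at hall
      obtain ⟨m, hm⟩ := hall
      have hm0 : m ≠ 0 := by
        rintro rfl
        exact hm (nil_zero h.real T)
      exact Or.inr (growth_of h hm0 (fun n => dimE ℚ ((𝟙_ C ⟶ tp T n) ⧸ smashSub ℚ (tp T n)))
        (dimE_mono_smash h) (many_smash h m hm))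

end Pool.Agent.Run7.h848.XG
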