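import Pool.Agent.Run7.h848.XG.Deep

/-!
# One power decides whether an object is Kimura finite-dimensional
-/

set_option autoImplicit false
set_option linter.unusedSectionVars false

open CategoryTheory Limits MonoidalCategory Module Filter Topology
open Pool.Agent.Y112.SR Pool.Agent.Y112.KD Pool.Agent.N64.AF Pool.Agent.R905
open Pool.Agent.Y116.MT (tr)
open scoped ENNReal

namespace Pool.Agent.Run7.h848.XG

universe v u w t x

section Num

lemma two_mul_pow_le (B : ℕ) (hB : 1 ≤ B) : 2 * B ^ B ≤ (B + 1) ^ B := by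
  have hB0 : (0 : ℝ) < B := by exact_mod_cast hB
  have h1 := one_add_mul_le_pow (a := (1 : ℝ) / B) (by
    have : (0 : ℝ) ≤ 1 / B := by positivity
    linarith) B
  have h2 : (1 : ℝ) + B * (1 / B) = 2 := by field_simp; norm_num
  rw [h2] at h1
  have h3 : (2 : ℝ) * (B : ℝ) ^ B ≤ ((B : ℝ) + 1) ^ B := by
    have h4 : ((B : ℝ) + 1) ^ B = (1 + 1 / (B : ℝ)) ^ B * (B : ℝ) ^ B := by
      rw [← mul_pow]
      congr 1
      field_simp
    rw [h4]
    exact mul_le_mul_of_nonneg_right h1 (by positivity)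
  exact_mod_cast h3

lemma pow_lt_two_pow (b : ℕ) (hb : 1 ≤ b) :
    ((b + 1) * (4 * (b ^ (2 * (b + 1))) ^ 2) + 1) ^ (b ^ 2) < 2 ^ (4 * b ^ (2 * (b + 1))) := by
  rcases Nat.lt_or_ge 1 b with h2 | h2
  swap
  · have h1 : b = 1 := by omega
    subst h1
    norm_num
  obtain ⟨B, hB⟩ : ∃ B, B = b ^ (2 * (b + 1)) := ⟨_, rfl⟩
  rw [← hB]
  have hb2 : b ≤ 2 ^ b := Nat.lt_two_pow_self.le
  -- `b + 1 ≤ B`
  have hM : b + 1 ≤ B := by
    rw [hB]
    calc b + 1 ≤ b ^ 2 := by nlinarith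
      _ ≤ b ^ (2 * (b + 1)) := Nat.pow_le_pow_right (by omega) (by omega)
  have hB1 : 1 ≤ B := by omega
  have h3 : (b + 1) * (4 * B ^ 2) + 1 ≤ 2 ^ 3 * B ^ 3 := by
    have h4 : (b + 1) * (4 * B ^ 2) ≤ B * (4 * B ^ 2) := Nat.mul_le_mul_right _ hM
    have h5 : 1 ≤ B ^ 3 := Nat.one_le_pow _ _ hB1
    calc (b + 1) * (4 * B ^ 2) + 1 ≤ B * (4 * B ^ 2) + B ^ 3 := Nat.add_le_add h4 h5
      _ = 5 * B ^ 3 := by ring
      _ ≤ 2 ^ 3 * B ^ 3 := Nat.mul_le_mul_right _ (by norm_num)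
  have h4 : B ^ 3 ≤ 2 ^ (6 * b * (b + 1)) := by
    calc B ^ 3 = b ^ (6 * (b + 1)) := by rw [hB, ← pow_mul]; congr 1; ring
      _ ≤ (2 ^ b) ^ (6 * (b + 1)) := Nat.pow_le_pow_left hb2 _
      _ = 2 ^ (6 * b * (b + 1)) := by rw [← pow_mul]; congr 1; ring
  have h5 : (b + 1) * (4 * B ^ 2) + 1 ≤ 2 ^ (3 + 6 * b * (b + 1)) := by
    rw [pow_add]
    exact h3.trans (Nat.mul_le_mul_left _ h4)
  calc ((b + 1) * (4 * B ^ 2) + 1) ^ (b ^ 2) ≤ (2 ^ (3 + 6 * b * (b + 1))) ^ (b ^ 2) :=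
        Nat.pow_le_pow_left h5 _
    _ = 2 ^ ((3 + 6 * b * (b + 1)) * b ^ 2) := by rw [← pow_mul]
    _ < 2 ^ (4 * B) := by
        apply Nat.pow_lt_pow_right (by norm_num)
        have h6 : b ^ 6 ≤ B := by
          rw [hB]
          exact Nat.pow_le_pow_right (by omega) (by omega)
        have h7 : 3 + 6 * b * (b + 1) < 4 * b ^ 4 := by
          have h8 : 4 ≤ b ^ 2 := by nlinarith
          have h9 : 3 + 6 * b * (b + 1) ≤ 10 * b ^ 2 := by nlinarith
          have h10 : b ^ 4 = b ^ 2 * b ^ 2 := by ring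
          nlinarith
        calc (3 + 6 * b * (b + 1)) * b ^ 2 < 4 * b ^ 4 * b ^ 2 :=
              Nat.mul_lt_mul_of_pos_right h7 (by positivity)
          _ = 4 * b ^ 6 := by ring
          _ ≤ 4 * B := Nat.mul_le_mul_left _ h6

lemma num_bound (b : ℕ) (hb : 1 ≤ b) :
    ((b + 1) * (4 * (b ^ (2 * (b + 1))) ^ 2) + 1) ^ (b ^ 2) *
      (b ^ (2 * (b + 1))) ^ (4 * (b ^ (2 * (b + 1))) ^ 2) <
      (b ^ (2 * (b + 1)) + 1) ^ (4 * (b ^ (2 * (b + 1))) ^ 2) := by
  have h0 := pow_lt_two_pow b hb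
  obtain ⟨B, hB⟩ : ∃ B, B = b ^ (2 * (b + 1)) := ⟨_, rfl⟩
  rw [← hB] at h0 ⊢
  have hB1 : 1 ≤ B := by
    rw [hB]
    exact Nat.one_le_pow _ _ hb
  have h1 : 2 ^ (4 * B) * B ^ (4 * B ^ 2) ≤ (B + 1) ^ (4 * B ^ 2) := by
    have h2 := Nat.pow_le_pow_left (two_mul_pow_le B hB1) (4 * B)
    rw [mul_pow, ← pow_mul, ← pow_mul] at h2
    have h3 : B * (4 * B) = 4 * B ^ 2 := by ring
    rwa [h3] at h2
  exact lt_of_lt_of_le (Nat.mul_lt_mul_of_pos_right h0 (by positivity)) h1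

end Num

section Kimura

variable {C : Type u} [Category.{v} C] [Preadditive C] [MonoidalCategory C]
  [MonoidalPreadditive C] [SymmetricCategory C] [RightRigidCategory C]
  [Linear ℚ C] [MonoidalLinear ℚ C] [IsIdempotentComplete C]
  {K : Type w} [Field K] [Algebra ℚ K] {R : SuperRealisation C K}

lemma asym_zero_of_nil_at (hU : UnitQ C) {E : C} (d : ℚ) (hd : d * d = 1)
    (hE : R.par E = (d : K) • 𝟙 _) (hnil : HomNil R (tp E (finrank K (R.H.obj E) + 1))) :
    ∃ n, asym (-d) E n = 0 := by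
  refine ⟨finrank K (R.H.obj E) + 1, ?_⟩
  have hη : (-d) * (-d) = 1 := by linear_combination hd
  obtain ⟨k, hk⟩ := hnil (en (asym (-d) E (finrank K (R.H.obj E) + 1)))
    (Pool.Agent.N861.AF.map_asym_zero R hU d hd hE)
  have h1 : IsIdempotentElem (en (asym (-d) E (finrank K (R.H.obj E) + 1))) := asym_idem hη E _
  have h2 := h1.pow_succ_eq k
  rw [pow_succ, hk, zero_mul] at h2
  exact h2.symm

/-- Nilpotence on the powers up to `b + 1` is sufficient. -/
theorem kimura_of_nil_le (hR : IsReal ℚ R) {T : C} (hT : R.CPlus T)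
    (hn : ∀ n ≤ bt R T + 1, HomNil R (tp T n)) : IsKimuraFinite T := by
  have hc := R_charZero R
  have hU : UnitQ C := by
    refine ⟨hR.unit, fun h => ?_⟩
    have h1 := bt_unit R
    have h2 : 𝟙 (R.H.obj (𝟙_ C)) = 0 := by
      rw [← CategoryTheory.Functor.map_id, h, Functor.map_zero]
    have h3 : IsZero (R.H.obj (𝟙_ C)) := (IsZero.iff_id_eq_zero _).2 h2
    have h4 : Subsingleton (R.H.obj (𝟙_ C)) := ModuleCat.subsingleton_of_isZero h3
    unfold bt at h1
    rw [finrank_zero_of_subsingleton] at h1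
    exact zero_ne_one h1
  have hT1 : HomNil R T := (hn 1 (by omega)).retract (λ_ T).inv (λ_ T).hom (by simp)
  obtain ⟨E, O, i, r, i', r', h1, h2, h3, hE, hO⟩ := exists_parts R hT hT1
  have hfin := R.finite T
  have key : ∀ (P : C) (i : P ⟶ T) (r : T ⟶ P), i ≫ r = 𝟙 P →
      HomNil R (tp P (finrank K (R.H.obj P) + 1)) := by
    intro P i r hir
    have h4 : finrank K (R.H.obj P) ≤ bt R T := by
      refine LinearMap.finrank_le_finrank_of_injective (f := (R.H.map i).hom) ?_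
      intro a b hab
      have h5 : ∀ a, (R.H.map r).hom ((R.H.map i).hom a) = a := by
        intro a
        have h6 := congrArg R.H.map hir
        rw [R.H.map_comp, R.H.map_id] at h6
        exact congrArg (fun f => (ModuleCat.Hom.hom f) a) h6
      rw [← h5 a, ← h5 b, hab]
    refine (hn _ (by omega)).retract (tpm i _) (tpm r _) ?_
    rw [tpm_comp, hir, tpm_id]
  obtain ⟨n, hn1⟩ := asym_zero_of_nil_at hU (E := E) 1 (by norm_num) (by rw [hE]; norm_num)
    (key E i r h1)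
  obtain ⟨m, hm⟩ := asym_zero_of_nil_at hU (E := O) (-1) (by norm_num) (by rw [hO]; norm_num)
    (key O i' r' h2)
  rw [neg_neg] at hm
  exact (isKimuraFinite_iff T).2 ⟨E, O, i, r, i', r', h1, h2, h3, ⟨n, hn1⟩, m, hm⟩

end Kimura

section Main

variable {C : Type u} [Category.{v} C] [Preadditive C] [MonoidalCategory C]
  [MonoidalPreadditive C] [SymmetricCategory C] [RightRigidCategory C]
  [Linear ℚ C] [MonoidalLinear ℚ C] [IsIdempotentComplete C]
  {K : Type w} [Field K] [IsAlgClosed K] [Algebra ℚ K] {R : SuperRealisation C K}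

lemma retract_le {T : C} (h : IsPow ℚ R T) {m n : ℕ} (hmn : m ≤ n) :
    ∃ (i : tp T m ⟶ tp T n) (r : tp T n ⟶ tp T m), i ≫ r = 𝟙 (tp T m) := by
  induction n, hmn using Nat.le_induction with
  | base => exact ⟨𝟙 _, 𝟙 _, Category.comp_id _⟩
  | succ n _ ih =>
    obtain ⟨i, r, hir⟩ := ih
    obtain ⟨i', r', hir'⟩ := exists_retract_tp h n
    exact ⟨i ≫ i', r' ≫ r, by rw [Category.assoc, reassoc_of% hir', hir]⟩

/-- Nilpotence on the one power `b + 1` is sufficient. -/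
theorem kimura_of_nil_one {T : C} (h : IsPow ℚ R T) (hn : HomNil R (tp T (bt R T + 1))) :
    IsKimuraFinite T := by
  refine kimura_of_nil_le h.real h.cplus fun n hn1 => ?_
  obtain ⟨i, r, hir⟩ := retract_le h hn1
  exact hn.retract i r hir

/-- **The uniform dichotomy.** -/
theorem uniform_main {T : C} [ExactPairing T T] (h : IsPow ℚ R T) :
    IsKimuraFinite T ∨
    (∀ (k n N : ℕ) (S₀ : ∀ Z : C, Submodule ℚ (𝟙_ C ⟶ Z)), 0 < k → IsDeep R k S₀ →
      2 * (bt R T + 1) * (n + k) ≤ N →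
      ((∑ i ∈ Finset.range (n + 1),
        n.choose i * numRank ℚ (tp T (2 * (bt R T + 1) * (n - i))) : ℕ) : ℕ∞) ≤
          deepDim S₀ (tp T N)) ∧
    ∀ n : ℕ, ((∑ i ∈ Finset.range (n + 1),
        n.choose i * numRank ℚ (tp T (2 * (bt R T + 1) * (n - i))) : ℕ) : ℕ∞) ≤
      dimE ℚ ((𝟙_ C ⟶ tp T (2 * (bt R T + 1) * n)) ⧸ smashSub ℚ (tp T (2 * (bt R T + 1) * n))) := by
  by_cases hn : HomNil R (tp T (bt R T + 1))
  · exact Or.inl (kimura_of_nil_one h hn)
  · refine Or.inr ⟨?_, ?_⟩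
    · unfold HomNil at hn
      push Not at hn
      obtain ⟨y, hy, hyn⟩ := hn
      intro k n N S₀ hk hS hN
      obtain ⟨i, r, hir⟩ := retract_le h hN
      exact (many_deep h y hy hyn hk hS n).trans (deepDim_le hS i r hir)
    · refine many_smash h (bt R T + 1) fun h1 => hn fun y hy => ?_
      exact h1 y (numTriv_of_map h.real hy)

/-- The number of the power which decides. -/
def decisive (b : ℕ) : ℕ := 8 * (b + 1) * b ^ (4 * (b + 1))

/-- **One power decides.** -/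
theorem one_power {T : C} [ExactPairing T T] (h : IsPow ℚ R T)
    (hσ : dimE ℚ ((𝟙_ C ⟶ tp T (decisive (bt R T))) ⧸ smashSub ℚ (tp T (decisive (bt R T)))) ≤
      (bt R T ^ decisive (bt R T) : ℕ)) : IsKimuraFinite T := by
  rcases uniform_main h with h1 | ⟨-, h1⟩
  · exact h1
  · exfalso
    obtain ⟨b, hb⟩ : ∃ b, b = bt R T := ⟨_, rfl⟩
    have hb1 : 1 ≤ b := by
      rw [hb]
      exact bt_pos h
    have h2 := h1 (4 * (b ^ (2 * (b + 1))) ^ 2)
    have h3 := sum_ge h (bt R T + 1) (4 * (b ^ (2 * (b + 1))) ^ 2)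
    have h4 := num_bound b hb1
    rw [← hb] at h2 h3 hσ
    have h5 : 2 * (b + 1) * (4 * (b ^ (2 * (b + 1))) ^ 2) = decisive b := by
      unfold decisive
      rw [← pow_mul]
      have h6 : 2 * (b + 1) * 2 = 4 * (b + 1) := by ring
      rw [h6]
      ring
    rw [h5] at h2
    have h6 := h2.trans hσ
    have h7 : (∑ i ∈ Finset.range (4 * (b ^ (2 * (b + 1))) ^ 2 + 1),
        (4 * (b ^ (2 * (b + 1))) ^ 2).choose i *
          numRank ℚ (tp T (2 * (b + 1) * (4 * (b ^ (2 * (b + 1))) ^ 2 - i)))) ≤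
        b ^ decisive b := by exact_mod_cast h6
    have h8 : b ^ decisive b = (b ^ (2 * (b + 1))) ^ (4 * (b ^ (2 * (b + 1))) ^ 2) := by
      rw [← pow_mul, h5]
    rw [h8] at h7
    exact absurd (h3.trans (Nat.mul_le_mul_left _ h7)) (not_le.2 h4)

end Main

end Pool.Agent.Run7.h848.XG
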